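import Mathlib

attribute [-instance] NonUnitalRingHomClass.toMulHomClass MonTypeEquivalenceMon.monMonoid
  NonUnitalNormedRing.toNormedAddCommGroup IsMulCommutative.is_comm littleWedderburn
  CommSemiring.toSemiring Ring.toSemiring SemigroupWithZero.toSemigroup TestFunctionClass.toDFunLike
  NonUnitalAlgSemiHomClass.toMulHomClass Std.instLawfulBEqOfLawfulOrderBEqOfIsPartialOrder
  GrpTypeEquivalenceGrp.grpGroup ContDiffMapSupportedInClass.toDFunLike
  MonoidWithZero.toMulZeroOneClass instTransOfIsTrans UniformSpace.toTopologicalSpace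
  FiniteField.instGrindPowIdentity DivisionSemiring.toSemiring SemilatticeInf.toPartialOrder
  CommGrpTypeEquivalenceCommGrp.commGrpCommGroup CompletePartialOrder.toPartialOrder

-- part Pm
section

set_option autoImplicit false
set_option linter.unusedSectionVars false

namespace Pool.Agent.MP_1d62fe_al.W

open Equiv

variable {Ω I : Type} [Fintype Ω] [DecidableEq Ω] [DecidableEq I]

/-- the 3-cycle `a → b → c → a` -/
def c3 (a b c : Ω) : Perm Ω := swap a b * swap b c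

/-- two distinct points of one fibre -/
structure D2 (fib : Ω → I) (a b : Ω) : Prop where
  ab : a ≠ b
  fb : fib b = fib a

/-- three distinct points of one fibre -/
structure D3 (fib : Ω → I) (a b c : Ω) : Prop where
  ab : a ≠ b
  ac : a ≠ c
  bc : b ≠ c
  fb : fib b = fib a
  fc : fib c = fib a

/-- even permutations supported in `F` -/
def AF (F : Finset Ω) : Subgroup (Perm Ω) where
  carrier := {σ | (∀ x, x ∉ F → σ x = x) ∧ Perm.sign σ = 1}
  one_mem' := ⟨fun _ _ => rfl, by simp⟩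
  mul_mem' := fun {a b} ha hb => ⟨fun x hx => by rw [Perm.mul_apply, hb.1 x hx, ha.1 x hx], by
    rw [map_mul, ha.2, hb.2, mul_one]⟩
  inv_mem' := fun {a} ha => ⟨fun x hx => by rw [Perm.inv_eq_iff_eq, ha.1 x hx], by
    rw [map_inv, ha.2, inv_one]⟩

theorem mem_AF {F : Finset Ω} {σ : Perm Ω} :
    σ ∈ AF F ↔ (∀ x, x ∉ F → σ x = x) ∧ Perm.sign σ = 1 := Iff.rfl

/-- the fibre through `a` -/
def fbr (fib : Ω → I) (a : Ω) : Finset Ω := Finset.univ.filter fun x => fib x = fib a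

theorem mem_fbr {fib : Ω → I} {a x : Ω} : x ∈ fbr fib a ↔ fib x = fib a := by simp only [fbr, Finset.mem_filter, Finset.mem_univ, true_and]

/-- all fibres have at least 17 points -/
def Big (fib : Ω → I) : Prop := ∀ a, 17 ≤ (fbr fib a).card

/-- `σ` fixes every fibre -/
def FP (fib : Ω → I) (σ : Perm Ω) : Prop := ∀ a, fib (σ a) = fib a

section c3
variable {a b c x y a' : Ω}

theorem c3_a (h1 : a ≠ b) (h2 : a ≠ c) : c3 a b c a = b := by
  simp [c3, swap_apply_of_ne_of_ne h1 h2]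

theorem c3_b (h2 : a ≠ c) (h3 : b ≠ c) : c3 a b c b = c := by
  simp [c3, swap_apply_of_ne_of_ne h2.symm h3.symm]

theorem c3_c : c3 a b c c = a := by simp [c3]

theorem c3_ne (h1 : x ≠ a) (h2 : x ≠ b) (h3 : x ≠ c) : c3 a b c x = x := by
  simp [c3, swap_apply_of_ne_of_ne h2 h3, swap_apply_of_ne_of_ne h1 h2]

theorem c3_conj (σ : Perm Ω) (a b c : Ω) : σ * c3 a b c * σ⁻¹ = c3 (σ a) (σ b) (σ c) := by
  rw [c3, c3, swap_apply_apply, swap_apply_apply]; group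

theorem c3_rot (h1 : a ≠ b) (h2 : a ≠ c) (h3 : b ≠ c) : c3 a b c = c3 b c a := by
  ext z; simp only [c3, Perm.mul_apply, swap_apply_def]; grind

theorem c3_inv (h1 : a ≠ b) (h2 : a ≠ c) (h3 : b ≠ c) : (c3 a b c)⁻¹ = c3 a c b := by
  rw [inv_eq_iff_mul_eq_one]
  ext z; simp only [c3, Perm.mul_apply, swap_apply_def, Perm.one_apply]; grind

theorem c3_cube (h1 : a ≠ b) (h2 : a ≠ c) (h3 : b ≠ c) : c3 a b c ^ 3 = 1 := by
  ext z; simp only [c3, pow_succ, pow_zero, Perm.mul_apply, swap_apply_def, Perm.one_apply]; grind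

theorem c3_ne_one (h1 : a ≠ b) (h2 : a ≠ c) : c3 a b c ≠ 1 := fun h => h1 (by
  have := c3_a h1 h2
  rwa [h] at this)

theorem c3_mul (h : [a, a', x, y].Nodup) : c3 a' x y * (c3 a x y)⁻¹ = c3 a a' x := by
  simp only [List.nodup_cons, List.mem_cons, List.not_mem_nil, not_or] at h
  rw [mul_inv_eq_iff_eq_mul]
  ext z; simp only [c3, Perm.mul_apply, swap_apply_def]; grind

theorem sign_c3 (h1 : a ≠ b) (h3 : b ≠ c) : Perm.sign (c3 a b c) = 1 := by
  simp [c3, h1, h3]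

theorem c3_mem_AF {F : Finset Ω} (h1 : a ≠ b) (h3 : b ≠ c) (ha : a ∈ F) (hb : b ∈ F)
    (hc : c ∈ F) : c3 a b c ∈ AF F :=
  ⟨fun _ hx => c3_ne (fun h => hx (h ▸ ha)) (fun h => hx (h ▸ hb)) (fun h => hx (h ▸ hc)),
    sign_c3 h1 h3⟩

theorem dt_mem_AF {F : Finset Ω} (h1 : a ≠ b) (h3 : x ≠ y) (ha : a ∈ F) (hb : b ∈ F)
    (hx : x ∈ F) (hy : y ∈ F) : swap a b * swap x y ∈ AF F :=
  ⟨fun z hz => by
    have e1 : z ≠ a := fun h => hz (h ▸ ha)
    have e2 : z ≠ b := fun h => hz (h ▸ hb)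
    have e3 : z ≠ x := fun h => hz (h ▸ hx)
    have e4 : z ≠ y := fun h => hz (h ▸ hy)
    rw [Perm.mul_apply, swap_apply_of_ne_of_ne e3 e4, swap_apply_of_ne_of_ne e1 e2],
   by simp [h1, h3]⟩

/-- a permutation fixing the three points commutes with the 3-cycle -/
theorem c3_comm_of_fix {σ : Perm Ω} (ha : σ a = a) (hb : σ b = b) (hc : σ c = c) :
    σ * c3 a b c * σ⁻¹ = c3 a b c := by rw [c3_conj, ha, hb, hc]

theorem FP_c3 {fib : Ω → I} (h : D3 fib a b c) : FP fib (c3 a b c) := by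
  intro z
  have := h.fb; have := h.fc
  simp only [c3, Perm.mul_apply, swap_apply_def]; grind

end c3

theorem AF_mono {F F' : Finset Ω} (h : F ⊆ F') : AF F ≤ AF F' :=
  fun _ hσ => ⟨fun x hx => hσ.1 x fun h' => hx (h h'), hσ.2⟩

theorem AF_maps {F : Finset Ω} {σ : Perm Ω} (h : σ ∈ AF F) {x : Ω} (hx : x ∈ F) : σ x ∈ F := by
  by_contra hc
  have := h.1 _ hc
  rw [σ.injective this] at hc
  exact hc hx

theorem FP_of_AF {fib : Ω → I} {a : Ω} {F : Finset Ω} (hF : F ⊆ fbr fib a) {σ : Perm Ω}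
    (h : σ ∈ AF F) : FP fib σ := fun x => by
  by_cases hx : x ∈ F
  · rw [mem_fbr.1 (hF (AF_maps h hx)), mem_fbr.1 (hF hx)]
  · rw [h.1 x hx]

/-- a permutation fixing `F` pointwise commutes with `A(F)` -/
theorem comm_of_fix {F : Finset Ω} {σ τ : Perm Ω} (h : σ ∈ AF F) (hτ : ∀ x ∈ F, τ x = x) :
    τ * σ = σ * τ := by
  ext x
  by_cases hx : x ∈ F
  · rw [Perm.mul_apply, Perm.mul_apply, hτ x hx, hτ _ (AF_maps h hx)]
  · have : τ x ∉ F := fun h' => hx (by rwa [τ.injective (hτ _ h')] at h')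
    rw [Perm.mul_apply, Perm.mul_apply, h.1 x hx, h.1 _ this]

theorem card_filter_notMem (F : Finset Ω) (l : List Ω) :
    F.card ≤ (F.filter fun x => x ∉ l).card + l.length := by
  have h1 : F ⊆ (F.filter fun x => x ∉ l) ∪ l.toFinset := fun x hx => by
    by_cases h : x ∈ l <;> simp [hx, h]
  exact (Finset.card_le_card h1).trans ((Finset.card_union_le _ _).trans
    (Nat.add_le_add_left (List.toFinset_card_le l) _))

theorem exists_notMem {F : Finset Ω} (l : List Ω) (h : l.length < F.card) : ∃ x ∈ F, x ∉ l := by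
  have := card_filter_notMem F l
  obtain ⟨x, hx⟩ := Finset.card_pos.1 (show 0 < (F.filter fun x => x ∉ l).card by omega)
  exact ⟨x, (Finset.mem_filter.1 hx).1, (Finset.mem_filter.1 hx).2⟩

theorem Big.avoid {fib : Ω → I} (h : Big fib) (a : Ω) (l : List Ω) (hl : l.length ≤ 16) :
    ∃ x, fib x = fib a ∧ x ∉ l := by
  obtain ⟨x, h1, h2⟩ := exists_notMem (F := fbr fib a) l (by have := h a; omega)
  exact ⟨x, mem_fbr.1 h1, h2⟩

theorem Pm_of {F : Finset Ω} {τ : Perm {x // x ∈ F}} (h : Perm.sign τ = 1) :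
    Perm.ofSubtype τ ∈ AF F :=
  ⟨fun _ hx => Perm.ofSubtype_apply_of_not_mem τ hx, by rw [Perm.sign_ofSubtype, h]⟩

theorem Pm_ex {F : Finset Ω} {σ : Perm Ω} (h : σ ∈ AF F) :
    ∃ τ : Perm {x // x ∈ F}, Perm.sign τ = 1 ∧ Perm.ofSubtype τ = σ := by
  have h1 : ∀ x, σ x ∈ F ↔ x ∈ F := fun x =>
    ⟨fun hx => by_contra fun hc => hc (by rwa [h.1 x hc] at hx), AF_maps h⟩
  have h2 := Perm.ofSubtype_subtypePerm h1 fun x hx => by_contra fun hc => hx (h.1 x hc)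
  exact ⟨_, by rw [← Perm.sign_ofSubtype, h2, h.2], h2⟩

/-- `A(F)` is generated by the 3-cycles inside `F` -/
theorem AF_le {F : Finset Ω} {D : Subgroup (Perm Ω)}
    (h : ∀ a ∈ F, ∀ b ∈ F, ∀ c ∈ F, a ≠ b → a ≠ c → b ≠ c → c3 a b c ∈ D) : AF F ≤ D := by
  intro σ
  induction hn : σ.support.card using Nat.strong_induction_on generalizing σ with
  | _ n ih =>
  intro hσ
  by_cases h1 : σ = 1
  · rw [h1]; exact D.one_mem
  obtain ⟨a, ha⟩ : ∃ a, σ a ≠ a := by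
    by_contra hc
    push Not at hc
    exact h1 (Equiv.ext hc)
  have inF : ∀ x, σ x ≠ x → x ∈ F := fun x hx => by_contra fun hc => hx (hσ.1 x hc)
  have hb : σ (σ a) ≠ σ a := fun e => ha (σ.injective e)
  obtain ⟨c, hc, c1, c2⟩ : ∃ c, σ c ≠ c ∧ c ≠ a ∧ c ≠ σ a := by
    by_contra hc
    push Not at hc
    have e : σ (σ a) = a := by
      by_contra e
      exact hb (hc _ (fun e' => hb (σ.injective e')) e)
    have : σ = swap a (σ a) := by
      ext x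
      by_cases x1 : x = a
      · rw [x1, swap_apply_left]
      by_cases x2 : x = σ a
      · rw [x2, swap_apply_right, e]
      rw [swap_apply_of_ne_of_ne x1 x2]
      by_contra e'
      exact x2 (hc x e' x1)
    have h2 := hσ.2
    rw [this, Perm.sign_swap ha.symm] at h2
    exact absurd h2 (by decide)
  have m1 := h a (inF a ha) _ (inF _ hb) c (inF c hc) ha.symm c1.symm c2.symm
  have m2 := c3_mem_AF ha.symm c2.symm (inF a ha) (inF _ hb) (inF c hc)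
  have m3 : (c3 a (σ a) c)⁻¹ * σ ∈ D := by
    refine ih _ ?_ rfl ((AF F).mul_mem ((AF F).inv_mem m2) hσ)
    rw [← hn]
    refine Finset.card_lt_card ⟨fun x hx => ?_, fun hs => ?_⟩
    · rw [Perm.mem_support] at hx ⊢
      intro e
      apply hx
      rw [Perm.mul_apply, e, Perm.inv_eq_iff_eq, c3_ne]
      · exact fun e' => ha (e' ▸ e)
      · exact fun e' => hb (e' ▸ e)
      · exact fun e' => hc (e' ▸ e)
    · have := hs (Perm.mem_support.2 ha)
      rw [Perm.mem_support, Perm.mul_apply, Ne, Perm.inv_eq_iff_eq, c3_a ha.symm c1.symm] at this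
      exact this rfl
  simpa using D.mul_mem m1 m3

/-- normal-closure lemma -/
theorem NC {F : Finset Ω} (hF : 5 ≤ F.card) {D : Subgroup (Perm Ω)}
    (hn : ∀ a ∈ F, ∀ b ∈ F, ∀ c ∈ F, a ≠ b → a ≠ c → b ≠ c →
      ∀ g ∈ D, c3 a b c * g * (c3 a b c)⁻¹ ∈ D)
    {g : Perm Ω} (hg : g ∈ D) {α : Ω} (hα : α ∈ F) (hm : g α ≠ α)
    (hi : (∀ x ∈ F, g x ∈ F) ∨ (∀ x ∈ F, g x ∉ F)) : AF F ≤ D := by
  have pick : ∀ y : Ω, ∃ β ∈ F, ∃ γ ∈ F, α ≠ β ∧ α ≠ γ ∧ β ≠ γ ∧ β ≠ y ∧ γ ≠ y := fun y => by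
    obtain ⟨β, b1, b2⟩ := exists_notMem (F := F) [α, y] (by simp; omega)
    obtain ⟨γ, c1, c2⟩ := exists_notMem (F := F) [α, y, β] (by simp; omega)
    simp only [List.mem_cons, List.not_mem_nil, not_or] at b2 c2
    exact ⟨β, b1, γ, c1, Ne.symm b2.1, Ne.symm c2.1, Ne.symm c2.2.2.1, b2.2.1, c2.2.1⟩
  have comm : ∀ {g : Perm Ω}, g ∈ D → ∀ β ∈ F, ∀ γ ∈ F, α ≠ β → α ≠ γ → β ≠ γ →
      c3 (g α) (g β) (g γ) * (c3 α β γ)⁻¹ ∈ D := fun {g} hg β b γ c h1 h2 h3 => by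
    have := D.mul_mem hg (hn α hα β b γ c h1 h2 h3 _ (D.inv_mem hg))
    rwa [← c3_conj, mul_assoc, mul_assoc, ← mul_assoc (c3 α β γ)]
  obtain ⟨g, hg, hm, hi⟩ : ∃ g ∈ D, g α ≠ α ∧ ∀ x ∈ F, g x ∈ F := by
    rcases hi with hi | hi
    · exact ⟨g, hg, hm, hi⟩
    obtain ⟨β, b, γ, c, h1, h2, h3, -⟩ := pick α
    have e : ∀ x ∈ F, c3 (g α) (g β) (g γ) x = x := fun x hx =>
      c3_ne (fun e => hi α hα (e ▸ hx)) (fun e => hi β b (e ▸ hx)) (fun e => hi γ c (e ▸ hx))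
    have m := (AF F).inv_mem (c3_mem_AF h1 h3 hα b c)
    refine ⟨_, comm hg β b γ c h1 h2 h3, ?_, fun x hx => ?_⟩
    · rw [Perm.mul_apply, e _ (AF_maps m hα), Ne, Perm.inv_eq_iff_eq, c3_a h1 h2]
      exact h1
    · rw [Perm.mul_apply, e _ (AF_maps m hx)]
      exact AF_maps m hx
  obtain ⟨β, b, γ, c, h1, h2, h3, h4, h5⟩ := pick (g⁻¹ α)
  obtain ⟨τ, t1, t2⟩ := Pm_ex ((AF F).mul_mem (c3_mem_AF (g.injective.ne h1) (g.injective.ne h3)
    (hi α hα) (hi β b) (hi γ c)) ((AF F).inv_mem (c3_mem_AF h1 h3 hα b c)))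
  have hN : AF F ≤ Subgroup.normalizer (D : Set (Perm Ω)) := AF_le fun a ha b hb c hc h1 h2 h3 =>
    Subgroup.mem_normalizer_fintype (hn a ha b hb c hc h1 h2 h3)
  have hS : IsSimpleGroup (alternatingGroup {x // x ∈ F}) :=
    alternatingGroup.isSimpleGroup (by simpa only [Nat.card_eq_fintype_card, Fintype.card_coe] using hF)
  let N : Subgroup (alternatingGroup {x // x ∈ F}) :=
    D.comap (Perm.ofSubtype.comp (Subgroup.subtype _))
  have hNn : N.Normal := ⟨fun n hn k => by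
    have := (Subgroup.mem_normalizer_iff.1 (hN (Pm_of (Perm.mem_alternatingGroup.1 k.2))) _).1 hn
    simpa only [N, Subgroup.mem_comap, MonoidHom.coe_comp, Subgroup.coe_subtype, Function.comp_apply, Subgroup.coe_mul, InvMemClass.coe_inv, map_mul, map_inv] using this⟩
  rcases hNn.eq_bot_or_eq_top with e | e
  · exfalso
    have m : (⟨τ, Perm.mem_alternatingGroup.2 t1⟩ : alternatingGroup _) ∈ N := by
      simpa only [N, Subgroup.mem_comap, MonoidHom.coe_comp, Subgroup.coe_subtype, Function.comp_apply, t2] using comm hg β b γ c h1 h2 h3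
    rw [e, Subgroup.mem_bot, Subtype.ext_iff] at m
    simp only [OneMemClass.coe_one] at m
    rw [m, map_one, eq_comm, mul_inv_eq_one] at t2
    have := congrArg (fun σ : Perm Ω => σ α) t2
    simp only [c3_a h1 h2] at this
    rw [c3_ne hm.symm (fun e => h4 (by rw [Perm.eq_inv_iff_eq, ← e]))
      (fun e => h5 (by rw [Perm.eq_inv_iff_eq, ← e]))] at this
    exact h1 this
  · intro σ hσ
    obtain ⟨ρ, r1, rfl⟩ := Pm_ex hσ
    have m : (⟨ρ, Perm.mem_alternatingGroup.2 r1⟩ : alternatingGroup _) ∈ N := e ▸ Subgroup.mem_top _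
    simpa only [N, Subgroup.mem_comap, MonoidHom.coe_comp, Subgroup.coe_subtype, Function.comp_apply] using m

/-- `A(F)` is `(|F|-2)`-transitive -/
theorem trans_list {F : Finset Ω} (l l' : List Ω) (h1 : l.Nodup) (h2 : l'.Nodup)
    (hl : l.length = l'.length) (h3 : ∀ x ∈ l, x ∈ F) (h4 : ∀ x ∈ l', x ∈ F)
    (hF : l.length + 2 ≤ F.card) : ∃ σ ∈ AF F, l.map σ = l' := by
  obtain ⟨τ, hτ⟩ := Perm.exists_extending_pair
    (f := fun i : Fin l.length => (⟨l[i], h3 _ (List.getElem_mem _)⟩ : {x // x ∈ F}))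
    (g := fun i : Fin l.length => (⟨l'[i.1]'(hl ▸ i.2), h4 _ (List.getElem_mem _)⟩ : {x // x ∈ F}))
    (fun i j e => Fin.ext (h1.getElem_inj_iff.1 (congrArg Subtype.val e)))
    (fun i j e => Fin.ext (h2.getElem_inj_iff.1 (congrArg Subtype.val e)))
  have key : ∀ ρ : Perm {x // x ∈ F}, (∀ x, x.1 ∈ l → ρ x = τ x) →
      l.map (Perm.ofSubtype ρ) = l' := fun ρ hρ => by
    refine List.ext_getElem (by simpa using hl) fun i a b => ?_
    rw [List.length_map] at a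
    rw [List.getElem_map, Perm.ofSubtype_apply_of_mem ρ (h3 _ (List.getElem_mem _)),
      hρ _ (List.getElem_mem _)]
    exact congrArg Subtype.val (hτ ⟨i, a⟩)
  rcases Int.units_eq_one_or (Perm.sign τ) with e | e
  · exact ⟨_, Pm_of e, key τ fun _ _ => rfl⟩
  obtain ⟨u, u1, u2⟩ := exists_notMem (F := F) l (by omega)
  obtain ⟨v, v1, v2⟩ := exists_notMem (F := F) (u :: l) (by simp; omega)
  rw [List.mem_cons, not_or] at v2
  have huv : (⟨u, u1⟩ : {x // x ∈ F}) ≠ ⟨v, v1⟩ := fun e => v2.1 (congrArg Subtype.val e).symm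
  refine ⟨_, Pm_of (τ := τ * swap ⟨u, u1⟩ ⟨v, v1⟩) (by simp [e, huv]), key _ fun x hx => ?_⟩
  rw [Perm.mul_apply, swap_apply_of_ne_of_ne (fun e => u2 (by rwa [e] at hx))
    (fun e => v2.2 (by rwa [e] at hx))]

theorem exists_order {F : Finset Ω} {r : ℕ} (hr : r.Prime) (h2 : r ≠ 2) (hF : r ≤ F.card) :
    ∃ σ ∈ AF F, σ ≠ 1 ∧ σ ^ r = 1 := by
  have := Fact.mk hr
  obtain ⟨τ, hτ⟩ := exists_prime_orderOf_dvd_card (G := Perm {x // x ∈ F}) r (by
    rw [Fintype.card_perm]; exact (hr.dvd_factorial).2 (by simpa only [Fintype.card_coe] using hF))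
  have h1 : τ ^ r = 1 := hτ ▸ pow_orderOf_eq_one τ
  refine ⟨_, Pm_of (τ := τ) ?_, fun e => ?_, by rw [← map_pow, h1, map_one]⟩
  · have h3 := congrArg Perm.sign h1
    rw [map_pow, map_one] at h3
    rcases Int.units_eq_one_or (Perm.sign τ) with e | e
    · exact e
    · rw [e, (hr.odd_of_ne_two h2).neg_one_pow] at h3
      exact absurd h3 (by decide)
  · rw [← map_one (Perm.ofSubtype (p := fun x => x ∈ F))] at e
    rw [Perm.ofSubtype_injective e, orderOf_one] at hτ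
    exact hr.one_lt.ne hτ

section Fixer
variable {X : Type} [Group X] (π : X →* Perm Ω)

/-- pointwise stabiliser -/
def fixer (F : Finset Ω) : Subgroup X where
  carrier := {g | ∀ x ∈ F, π g x = x}
  one_mem' := fun _ _ => by simp
  mul_mem' := fun {a b} ha hb x hx => by rw [map_mul, Perm.mul_apply, hb x hx, ha x hx]
  inv_mem' := fun {a} ha x hx => by rw [map_inv, Perm.inv_eq_iff_eq, ha x hx]

theorem mem_fixer {F : Finset Ω} {g : X} : g ∈ fixer π F ↔ ∀ x ∈ F, π g x = x := Iff.rfl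

/-- index of a point stabiliser is at most the length of a list containing the orbit -/
theorem relIndex_fixer_le (B : Subgroup X) (α : Ω) (l : List Ω) (h : ∀ b ∈ B, π b α ∈ l) :
    (fixer π {α}).relIndex B ≤ l.length := by
  have key : ∀ a b : B, a⁻¹ * b ∈ (fixer π {α}).subgroupOf B ↔ π a α = π b α := fun a b => by
    rw [Subgroup.mem_subgroupOf, mem_fixer]
    simp only [Finset.mem_singleton, forall_eq, Subgroup.coe_mul, Subgroup.coe_inv, map_mul,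
      map_inv, Perm.mul_apply, Perm.inv_eq_iff_eq]
    exact eq_comm
  have := Nat.card_le_card_of_injective
    (fun q : B ⧸ (fixer π {α}).subgroupOf B =>
      (⟨π q.out α, List.mem_toFinset.2 (h _ q.out.2)⟩ : {x // x ∈ l.toFinset}))
    fun q q' e => by
      rw [← q.out_eq, ← q'.out_eq]
      exact QuotientGroup.eq.2 ((key _ _).2 (congrArg Subtype.val e))
  rw [Nat.card_eq_finsetCard] at this
  exact this.trans (List.toFinset_card_le l)

/-- EA bound for abelian `p`-groups -/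
theorem EA_bound [Finite X] {p : ℕ} (hp : p.Prime) (F : Finset Ω) (B : Subgroup X)
    (h1 : ∀ b ∈ B, b ^ p = 1) (h2 : ∀ a ∈ B, ∀ b ∈ B, a * b = b * a)
    (hF : ∀ b ∈ B, ∀ x ∈ F, π b x ∈ F) : (fixer π F).relIndex B ≤ p ^ (F.card / p) := by
  classical
  induction hn : F.card using Nat.strong_induction_on generalizing F B with
  | _ n ih =>
  rcases F.eq_empty_or_nonempty with rfl | ⟨α, hα⟩
  · rw [Subgroup.relIndex_eq_one.2 fun b _ x hx => absurd hx (Finset.notMem_empty x)]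
    exact Nat.one_le_pow _ _ hp.pos
  have := Fact.mk hp
  set O := F.filter fun x => ∃ b ∈ B, π b α = x with hO
  have hs : O ⊆ F := Finset.filter_subset _ _
  have hαO : α ∈ O := Finset.mem_filter.2 ⟨hα, 1, B.one_mem, by simp⟩
  have hc := Finset.card_le_card hs
  have hp0 := Finset.card_pos.2 ⟨α, hαO⟩
  have i1 := relIndex_fixer_le π B α O.toList fun b hb =>
    Finset.mem_toList.2 (Finset.mem_filter.2 ⟨hF b hb α hα, b, hb, rfl⟩)
  rw [Finset.length_toList] at i1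
  have hP : IsPGroup p B := fun b => ⟨1, Subtype.ext (by simpa only [pow_one, SubmonoidClass.coe_pow, OneMemClass.coe_one] using h1 b b.2)⟩
  obtain ⟨k, hk⟩ := hP.index ((fixer π {α}).subgroupOf B)
  have i2 := ih (F \ O).card (by rw [Finset.card_sdiff_of_subset hs]; omega) (F \ O)
    (fixer π {α} ⊓ B) (fun b hb => h1 b hb.2) (fun a ha b hb => h2 a ha.2 b hb.2)
    (fun b hb x hx => by
      rw [Finset.mem_sdiff] at hx ⊢
      refine ⟨hF b hb.2 x hx.1, fun hm => hx.2 ?_⟩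
      obtain ⟨c, hc, e⟩ := (Finset.mem_filter.1 hm).2
      exact Finset.mem_filter.2 ⟨hx.1, b⁻¹ * c, B.mul_mem (B.inv_mem hb.2) hc, by
        rw [map_mul, map_inv, Perm.mul_apply, e, Perm.inv_eq_iff_eq]⟩) rfl
  have e1 : fixer π (F \ O) ⊓ (fixer π {α} ⊓ B) = fixer π F ⊓ B := by
    refine le_antisymm (fun b hb => ⟨fun x hx => ?_, hb.2.2⟩) fun b hb =>
      ⟨fun x hx => hb.1 x (Finset.mem_sdiff.1 hx).1,
        fun x hx => hb.1 x (by rwa [Finset.mem_singleton.1 hx]), hb.2⟩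
    by_cases hm : x ∈ O
    · obtain ⟨c, hc, rfl⟩ := (Finset.mem_filter.1 hm).2
      rw [← Perm.mul_apply, ← map_mul, h2 b hb.2.2 c hc, map_mul, Perm.mul_apply,
        hb.2.1 α (Finset.mem_singleton_self α)]
    · exact hb.1 x (Finset.mem_sdiff.2 ⟨hx, hm⟩)
  have e2 := Subgroup.relIndex_mul_relIndex (fixer π F ⊓ B) (fixer π {α} ⊓ B) B
    (e1 ▸ inf_le_right) inf_le_right
  rw [Subgroup.inf_relIndex_right, Subgroup.inf_relIndex_right] at e2
  rw [← Subgroup.inf_relIndex_right, e1, Finset.card_sdiff_of_subset hs] at i2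
  change (fixer π {α}).relIndex B = _ at hk
  rw [← e2, hk]
  refine (Nat.mul_le_mul_right _ i2).trans ?_
  rw [← pow_add, ← Nat.add_mul_div_left _ _ hp.pos]
  refine Nat.pow_le_pow_right hp.pos (Nat.div_le_div_right ?_)
  have := Nat.mul_le_pow hp.one_lt.ne' k
  omega

end Fixer

end Pool.Agent.MP_1d62fe_al.W

end

-- part LC
section

set_option autoImplicit false
set_option linter.unusedSectionVars false

namespace Pool.Agent.MP_1d62fe_al.W

open Equiv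

variable {Ω I : Type} [Fintype Ω] [DecidableEq Ω] [DecidableEq I]

/-- `L` with a maximal core-free subgroup `H` and a normal `p`-subgroup `P` of `H` -/
structure PSet (fib : Ω → I) (p : ℕ) where
  L : Subgroup (Perm Ω)
  H : Subgroup (Perm Ω)
  P : Subgroup (Perm Ω)
  HL : H ≤ L
  PH : P ≤ H
  nP : ∀ h ∈ H, ∀ g ∈ P, h * g * h⁻¹ ∈ P
  pP : ∀ g ∈ P, ∃ k : ℕ, g ^ p ^ k = 1
  max : ∀ M : Subgroup (Perm Ω), H ≤ M → M ≤ L → M ≤ H ∨ L ≤ M
  core : ∀ D : Subgroup (Perm Ω), D ≤ H → (∀ g ∈ L, ∀ d ∈ D, g * d * g⁻¹ ∈ D) → D = ⊥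
  fibp : ∀ g ∈ L, ∀ a b, fib a = fib b → fib (g a) = fib (g b)
  three : ∀ a b c, D3 fib a b c → c3 a b c ∈ L
  big : Big fib

/-- a fibre-preserving member of `R` fixing a point fixes its fibre pointwise -/
def SR (fib : Ω → I) (R : Perm Ω → Prop) : Prop :=
  ∀ g, R g → ∀ a b, fib a = fib b → g a = a → g b = b

/-- orbits of size at most four -/
def O4 (R : Perm Ω → Prop) : Prop := ∀ a, ∃ l : List Ω, l.length ≤ 4 ∧ ∀ g, R g → g a ∈ l

/-- every moved point lies in a set of four points of its fibre on which `R` is semiregular -/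
def NoT (fib : Ω → I) (R : Perm Ω → Prop) : Prop :=
  ∀ g, R g → ∀ a, g a ≠ a → ∃ O : Finset Ω, a ∈ O ∧ 4 ≤ O.card ∧ O ⊆ fbr fib a ∧
    ∀ h, R h → ∀ x ∈ O, ∀ y ∈ O, h x = x → h y = y

/-- `{a, a'}` is a non-trivial orbit pair of `P` -/
def Blk (P : Subgroup (Perm Ω)) (a a' : Ω) : Prop := a ≠ a' ∧ ∃ g ∈ P, g a = a'

/-- type M: all points are in blocks -/
def TM (P : Subgroup (Perm Ω)) : Prop := ∀ a, ∃ a', Blk P a a'

/-- type D: one block in each fibre -/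
def TD (fib : Ω → I) (P : Subgroup (Perm Ω)) : Prop :=
  ∀ a₀, ∃ a a', fib a = fib a₀ ∧ Blk P a a' ∧
    ∀ x x', fib x = fib a₀ → Blk P x x' → x = a ∨ x = a'

/-- the case of transposition type -/
structure TT (fib : Ω → I) (P : Subgroup (Perm Ω)) : Prop where
  fp : ∀ g ∈ P, FP fib g
  two : ∀ a a' a'', Blk P a a' → Blk P a a'' → a' = a''
  ty : TM P ∨ TD fib P

/-- a multiplicatively closed property defines a subgroup of a finite group -/
def LC_sub {G : Type} [Group G] [Finite G] (Q : G → Prop) (h1 : Q 1)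
    (hm : ∀ a b, Q a → Q b → Q (a * b)) : Subgroup G where
  carrier := {g | Q g}
  one_mem' := h1
  mul_mem' := hm _ _
  inv_mem' := fun {a} ha => by
    have hp : ∀ n, Q (a ^ n) := fun n => by
      induction n with
      | zero => rwa [pow_zero]
      | succ n ih => rw [pow_succ]; exact hm _ _ ih ha
    have : a⁻¹ = a ^ (orderOf a - 1) := by
      rw [inv_eq_iff_mul_eq_one, ← pow_succ', Nat.sub_add_cancel (orderOf_pos a),
        pow_orderOf_eq_one]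
    rw [this]; exact hp _

theorem Blk.symm {P : Subgroup (Perm Ω)} {a a' : Ω} (h : Blk P a a') : Blk P a' a := by
  obtain ⟨h1, g, hg, rfl⟩ := h
  exact ⟨h1.symm, g⁻¹, P.inv_mem hg, by simp⟩

theorem TT.fib_eq {fib : Ω → I} {P : Subgroup (Perm Ω)} (hT : TT fib P) {a a' : Ω}
    (h : Blk P a a') : fib a' = fib a := by
  obtain ⟨_, g, hg, rfl⟩ := h
  exact hT.fp g hg a

theorem TT.swap_blk {fib : Ω → I} {P : Subgroup (Perm Ω)} (hT : TT fib P) {u u' : Ω}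
    (hu : Blk P u u' ∨ ((∀ z, ¬ Blk P u z) ∧ ∀ z, ¬ Blk P u' z)) {a a' : Ω} (h : Blk P a a') :
    Blk P (swap u u' a) (swap u u' a') := by
  rcases hu with hu | hu
  · by_cases h1 : a = u
    · subst h1
      rw [hT.two _ _ _ h hu, swap_apply_left, swap_apply_right]; exact hu.symm
    by_cases h2 : a = u'
    · subst h2
      rw [hT.two _ _ _ h hu.symm, swap_apply_left, swap_apply_right]; exact hu
    rwa [swap_apply_of_ne_of_ne h1 h2, swap_apply_of_ne_of_ne (a := u) (b := u') (x := a')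
      (fun e => h2 (hT.two _ _ _ (e ▸ h.symm) hu)) fun e => h1 (hT.two _ _ _ (e ▸ h.symm) hu.symm)]
  · rwa [swap_apply_of_ne_of_ne (a := u) (b := u') (x := a) (fun e => hu.1 a' (e ▸ h)) (fun e => hu.2 a' (e ▸ h)),
      swap_apply_of_ne_of_ne (a := u) (b := u') (x := a') (fun e => hu.1 a (e ▸ h.symm))
        fun e => hu.2 a (e ▸ h.symm)]

theorem TT.swap_two {fib : Ω → I} {P : Subgroup (Perm Ω)} (hT : TT fib P) {a a' b b' : Ω}
    (ha : Blk P a a') (hb : Blk P b b') (h1 : a ≠ b) (h2 : a ≠ b') {c c' : Ω} (h : Blk P c c') :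
    Blk P ((swap a b * swap a' b') c) ((swap a b * swap a' b') c') := by
  have n1 := ha.1
  have n2 := hb.1
  have n3 : a' ≠ b := fun e => h2 (hT.two _ _ _ (e ▸ ha.symm) hb)
  have n4 : a' ≠ b' := fun e => h1 (hT.two _ _ _ (e ▸ ha.symm) hb.symm)
  have e1 : (swap a b * swap a' b') a = b := by simp only [Perm.mul_apply, swap_apply_def]; grind
  have e2 : (swap a b * swap a' b') a' = b' := by simp only [Perm.mul_apply, swap_apply_def]; grind
  have e3 : (swap a b * swap a' b') b = a := by simp only [Perm.mul_apply, swap_apply_def]; grind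
  have e4 : (swap a b * swap a' b') b' = a' := by simp only [Perm.mul_apply, swap_apply_def]; grind
  have e5 : ∀ z, z ≠ a → z ≠ a' → z ≠ b → z ≠ b' → (swap a b * swap a' b') z = z :=
    fun z k1 k2 k3 k4 => by
      rw [Perm.mul_apply, swap_apply_of_ne_of_ne k2 k4, swap_apply_of_ne_of_ne k1 k3]
  by_cases c1 : c = a
  · subst c1; rwa [hT.two _ _ _ h ha, e1, e2]
  by_cases c2 : c = a'
  · subst c2; rw [hT.two _ _ _ h ha.symm, e1, e2]; exact hb.symm
  by_cases c3 : c = b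
  · subst c3; rwa [hT.two _ _ _ h hb, e3, e4]
  by_cases c4 : c = b'
  · subst c4; rw [hT.two _ _ _ h hb.symm, e3, e4]; exact ha.symm
  rwa [e5 c c1 c2 c3 c4, e5 c' (fun e => c2 (hT.two _ _ _ (e ▸ h.symm) ha))
    (fun e => c1 (hT.two _ _ _ (e ▸ h.symm) ha.symm)) (fun e => c4 (hT.two _ _ _ (e ▸ h.symm) hb))
    fun e => c3 (hT.two _ _ _ (e ▸ h.symm) hb.symm)]

namespace PSet

variable {fib : Ω → I} {p : ℕ} (S : PSet fib p)

/-- fibre-preserving elements of `P` -/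
def R (g : Perm Ω) : Prop := g ∈ S.P ∧ FP fib g

theorem AF_le_L (a : Ω) : AF (fbr fib a) ≤ S.L :=
  AF_le fun x hx y hy z hz h1 h2 h3 => S.three x y z
    ⟨h1, h2, h3, (mem_fbr.1 hy).trans (mem_fbr.1 hx).symm, (mem_fbr.1 hz).trans (mem_fbr.1 hx).symm⟩

theorem LC_dich (Q : Perm Ω → Prop) (h1 : Q 1) (hm : ∀ a b, Q a → Q b → Q (a * b))
    (hH : ∀ g ∈ S.H, Q g) : (∀ g ∈ S.L, Q g → g ∈ S.H) ∨ ∀ g ∈ S.L, Q g :=
  (S.max (S.L ⊓ LC_sub Q h1 hm) (fun g hg => ⟨S.HL hg, hH g hg⟩) inf_le_left).imp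
    (fun h _ hg hq => h ⟨hg, hq⟩) fun h _ hg => (h hg).2

/-- C0 -/
theorem LC_C0 {D : Subgroup (Perm Ω)} (hD : D ≤ S.H) (hn : ∀ h ∈ S.H, ∀ d ∈ D, h * d * h⁻¹ ∈ D)
    (h0 : D ≠ ⊥) {g : Perm Ω} (hg : g ∈ S.L) (h : ∀ d ∈ D, g * d * g⁻¹ ∈ D) : g ∈ S.H := by
  rcases S.LC_dich (fun g => ∀ d ∈ D, g * d * g⁻¹ ∈ D) (fun d hd => by simpa using hd)
    (fun a b ha hb d hd => by
      have := ha _ (hb d hd)
      rwa [show a * (b * d * b⁻¹) * a⁻¹ = a * b * d * (a * b)⁻¹ by group] at this) hn with k | k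
  · exact k g hg h
  · exact (h0 (S.core D hD k)).elim

theorem LC_D3 {g : Perm Ω} (hg : g ∈ S.L) {a b c : Ω} (h : D3 fib a b c) :
    D3 fib (g a) (g b) (g c) :=
  ⟨g.injective.ne h.ab, g.injective.ne h.ac, g.injective.ne h.bc, S.fibp g hg _ _ h.fb,
    S.fibp g hg _ _ h.fc⟩

theorem LC_C1 (a : Ω) : ¬ ∀ x y z, D3 fib x y z → fib x = fib a → c3 x y z ∈ S.H := by
  intro ha
  let J : Ω → Prop := fun a => ∀ x y z, D3 fib x y z → fib x = fib a → c3 x y z ∈ S.H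
  let D := Subgroup.closure {σ | ∃ x y z, D3 fib x y z ∧ J x ∧ σ = c3 x y z}
  have hD : D ≤ S.H := (Subgroup.closure_le _).2 (by
    rintro _ ⟨x, y, z, h, hJ, rfl⟩
    exact hJ x y z h rfl)
  have hn : ∀ g ∈ S.L, (∀ x, J x → J (g x)) → ∀ d ∈ D, g * d * g⁻¹ ∈ D := fun g hg hJ => by
    have : D ≤ D.comap (MulAut.conj g).toMonoidHom := (Subgroup.closure_le _).2 (by
      rintro _ ⟨x, y, z, h, k, rfl⟩
      exact Subgroup.subset_closure ⟨_, _, _, S.LC_D3 hg h, hJ x k, c3_conj g x y z⟩)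
    exact fun d hd => this hd
  have h0 : D ≠ ⊥ := fun h => by
    obtain ⟨y, h1, h2⟩ := S.big.avoid a [a] (by simp)
    obtain ⟨z, h3, h4⟩ := S.big.avoid a [a, y] (by simp)
    simp only [List.mem_cons, List.not_mem_nil, or_false, not_or] at h2 h4
    have : c3 a y z ∈ D := Subgroup.subset_closure
      ⟨a, y, z, ⟨Ne.symm h2, Ne.symm h4.1, Ne.symm h4.2, h1, h3⟩, ha, rfl⟩
    rw [h] at this
    exact c3_ne_one (Ne.symm h2) (Ne.symm h4.1) this
  have hH : ∀ h ∈ S.H, ∀ d ∈ D, h * d * h⁻¹ ∈ D := fun h hh => hn h (S.HL hh)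
    fun x hx u v w k e => by
      have hi := S.L.inv_mem (S.HL hh)
      have k1 := hx _ _ _ (S.LC_D3 hi k) (by simpa using S.fibp _ hi _ _ e)
      have := S.H.mul_mem (S.H.mul_mem hh k1) (S.H.inv_mem hh)
      simpa only [Perm.coe_inv, c3_conj, apply_symm_apply] using this
  have all : ∀ x, J x := fun x u v w k _ => S.LC_C0 hD hH h0 (S.three u v w k)
    (hn _ (S.three u v w k) fun t ht _ _ _ k' e => ht _ _ _ k' (e.trans (FP_c3 k t)))
  exact h0 (S.core D hD fun g hg => hn g hg fun _ _ => all _)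

/-- C1: a non-trivial subgroup of `H` normalised by `H` moves a point of every fibre -/
theorem touch {D : Subgroup (Perm Ω)} (hD : D ≤ S.H) (hn : ∀ h ∈ S.H, ∀ d ∈ D, h * d * h⁻¹ ∈ D)
    (h0 : D ≠ ⊥) (a : Ω) : ∃ g ∈ D, ∃ x, fib x = fib a ∧ g x ≠ x := by
  by_contra hc
  push Not at hc
  refine S.LC_C1 a fun x y z h hx => S.LC_C0 hD hn h0 (S.three x y z h) fun d hd => ?_
  have := c3_comm_of_fix (hc d hd x hx) (hc d hd y (h.fb.trans hx)) (hc d hd z (h.fc.trans hx))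
  rw [mul_inv_eq_iff_eq_mul] at this
  rwa [← this, mul_inv_cancel_right]

/-- Dich: the stabiliser of an `H`-invariant relation is `H` or `L` -/
theorem dich (r : Ω → Ω → Prop) (h : ∀ g ∈ S.H, ∀ a b, r a b → r (g a) (g b)) :
    (∀ g ∈ S.L, (∀ a b, r a b → r (g a) (g b)) → g ∈ S.H) ∨
      ∀ g ∈ S.L, ∀ a b, r a b → r (g a) (g b) := by
  exact S.LC_dich (fun g => ∀ a b, r a b → r (g a) (g b)) (fun _ _ k => k)
    (fun _ _ ha hb _ _ k => ha _ _ (hb _ _ k)) h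

/-- C5 -/
theorem C5 (J : Ω → Prop) (hf : ∀ a b, fib a = fib b → J a → J b)
    (hJ : ∀ g ∈ S.H, ∀ a, J a → J (g a)) {a : Ω} (ha : J a) {g : Perm Ω} (hg : g ∈ S.H)
    (h : ∀ x, J x → g x = x) : g = 1 := by
  let D := S.H ⊓ LC_sub (fun g : Perm Ω => ∀ x, J x → g x = x) (fun _ _ => rfl)
    fun a b ha hb x hx => by rw [Perm.mul_apply, hb x hx, ha x hx]
  by_contra hne
  obtain ⟨k, hk, x, h1, h2⟩ := S.touch (D := D) inf_le_left (fun k hk d hd =>
    ⟨S.H.mul_mem (S.H.mul_mem hk hd.1) (S.H.inv_mem hk), fun x hx => by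
      rw [Perm.mul_apply, Perm.mul_apply, hd.2 _ (hJ _ (S.H.inv_mem hk) x hx)]
      simp⟩)
    (fun e => hne (by
      have : g ∈ D := ⟨hg, h⟩
      rwa [e] at this)) a
  exact h2 (hk.2 x (hf a x h1.symm ha))

/-- P0 -/
theorem P0 (hP : S.P ≠ ⊥) {D : Subgroup (Perm Ω)} (hn : ∀ g ∈ S.L, ∀ d ∈ D, g * d * g⁻¹ ∈ D)
    (hD : S.P ≤ D) {a b c : Ω} (h : D3 fib a b c) : c3 a b c ∈ D := by
  obtain ⟨g, hg, x, h1, h2⟩ := S.touch S.PH S.nP hP a
  have hL := S.HL (S.PH hg)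
  refine NC (F := fbr fib a) (by have := S.big a; omega)
    (fun x hx y hy z hz k1 k2 k3 => hn _ (S.AF_le_L a (c3_mem_AF k1 k3 hx hy hz))) (hD hg)
    (mem_fbr.2 h1) h2 ?_ (c3_mem_AF h.ab h.bc (mem_fbr.2 rfl) (mem_fbr.2 h.fb) (mem_fbr.2 h.fc))
  have e : ∀ y ∈ fbr fib a, fib (g y) = fib (g x) := fun y hy =>
    S.fibp g hL _ _ ((mem_fbr.1 hy).trans h1.symm)
  by_cases k : fib (g x) = fib a
  · exact Or.inl fun y hy => mem_fbr.2 ((e y hy).trans k)
  · exact Or.inr fun y hy k' => k ((e y hy).symm.trans (mem_fbr.1 k'))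

theorem LC_blk {g : Perm Ω} (hg : g ∈ S.H) {a a' : Ω} (h : Blk S.P a a') :
    Blk S.P (g a) (g a') := by
  obtain ⟨h1, q, hq, rfl⟩ := h
  exact ⟨g.injective.ne h1, g * q * g⁻¹, S.nP g hg q hq, by simp only [Perm.coe_mul, Perm.coe_inv, Function.comp_apply, symm_apply_apply]⟩

/-- B2 -/
theorem B2 (hP : S.P ≠ ⊥) (hT : TT fib S.P) {σ : Perm Ω} (hσ : σ ∈ S.L)
    (h : ∀ a a', Blk S.P a a' → Blk S.P (σ a) (σ a')) : σ ∈ S.H := by
  rcases S.dich (Blk S.P) (fun g hg _ _ k => S.LC_blk hg k) with k | k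
  · exact k σ hσ h
  · exfalso
    obtain ⟨⟨g, hg⟩, h1⟩ := Subgroup.ne_bot_iff_exists_ne_one.1 hP
    obtain ⟨a, ha⟩ : ∃ a, g a ≠ a := by
      by_contra hc
      push Not at hc
      exact h1 (Subtype.ext (Equiv.ext hc))
    have hb : Blk S.P a (g a) := ⟨ha.symm, g, hg, rfl⟩
    obtain ⟨x, x1, x2⟩ := S.big.avoid (g a) [a, g a] (by simp)
    obtain ⟨y, y1, y2⟩ := S.big.avoid (g a) [a, g a, x] (by simp)
    simp only [List.mem_cons, List.not_mem_nil, or_false, not_or] at x2 y2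
    have := k _ (S.three (g a) x y ⟨Ne.symm x2.2, Ne.symm y2.2.1, Ne.symm y2.2.2, x1, y1⟩) _ _ hb
    rw [c3_ne ha.symm (Ne.symm x2.1) (Ne.symm y2.1), c3_a (Ne.symm x2.2) (Ne.symm y2.2.1)] at this
    exact x2.2 (hT.two _ _ _ this hb)

/-- TrB -/
theorem TrB (hT : TT fib S.P) {a a' b b' : Ω} (ha : Blk S.P a a') (hb : Blk S.P b b') :
    ∃ h ∈ S.H, h a = b ∨ h a = b' := by
  have hP : S.P ≠ ⊥ := fun e => by
    obtain ⟨h1, g, hg, h2⟩ := ha
    rw [e, Subgroup.mem_bot] at hg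
    exact h1 (by rw [← h2, hg]; rfl)
  have fb := hT.fib_eq hb
  obtain ⟨h, hh, e⟩ : ∃ h ∈ S.H, fib (h a) = fib b := by
    by_contra hc
    obtain ⟨x, x', k1, k2, k3, k4, k5⟩ : ∃ x x', fib x = fib b ∧ fib x' = fib b ∧ x ≠ x' ∧
        (x ∉ [b, b'] ∧ x' ∉ [b, b']) ∧
        (Blk S.P x x' ∨ ((∀ z, ¬ Blk S.P x z) ∧ ∀ z, ¬ Blk S.P x' z)) := by
      rcases hT.ty with t | t
      · obtain ⟨x, x1, x2⟩ := S.big.avoid b [b, b'] (by simp)
        obtain ⟨x', t'⟩ := t x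
        refine ⟨x, x', x1, (hT.fib_eq t').trans x1, t'.1, ⟨x2, ?_⟩, Or.inl t'⟩
        simp only [List.mem_cons, List.not_mem_nil, or_false, not_or] at x2 ⊢
        exact ⟨fun e => x2.2 (hT.two _ _ _ (e ▸ t'.symm) hb),
          fun e => x2.1 (hT.two _ _ _ (e ▸ t'.symm) hb.symm)⟩
      · obtain ⟨c, c', -, -, t'⟩ := t b
        obtain ⟨x, x1, x2⟩ := S.big.avoid b [b, b', c, c'] (by simp)
        obtain ⟨y, y1, y2⟩ := S.big.avoid b [b, b', c, c', x] (by simp)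
        simp only [List.mem_cons, List.not_mem_nil, or_false, not_or] at x2 y2 ⊢
        exact ⟨x, y, x1, y1, Ne.symm y2.2.2.2.2, ⟨⟨x2.1, x2.2.1⟩, y2.1, y2.2.1⟩, Or.inr
          ⟨fun z k => (t' x z x1 k).elim x2.2.2.1 x2.2.2.2,
            fun z k => (t' y z y1 k).elim y2.2.2.1 y2.2.2.2.1⟩⟩
    have hA := dt_mem_AF (F := fbr fib b) hb.1 k3 (mem_fbr.2 rfl) (mem_fbr.2 fb) (mem_fbr.2 k1)
      (mem_fbr.2 k2)
    have := S.C5 (fun x => ∃ h ∈ S.H, fib (h a) = fib x)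
      (fun _ _ e ⟨h, hh, k⟩ => ⟨h, hh, k.trans e⟩)
      (fun g hg x ⟨h, hh, k⟩ => ⟨g * h, S.H.mul_mem hg hh, S.fibp g (S.HL hg) _ _ k⟩)
      (a := a) ⟨1, S.H.one_mem, rfl⟩
      (S.B2 hP hT (S.AF_le_L b hA) fun _ _ k => hT.swap_blk (Or.inl hb) (hT.swap_blk k5 k))
      fun z ⟨h, hh, k⟩ => hA.1 z fun hz => hc ⟨h, hh, k.trans (mem_fbr.1 hz)⟩
    simp only [List.mem_cons, List.not_mem_nil, or_false, not_or] at k4
    have e := congrArg (fun σ : Perm Ω => σ b) this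
    simp only [Perm.mul_apply, swap_apply_of_ne_of_ne (Ne.symm k4.1.1) (Ne.symm k4.2.1),
      swap_apply_left, Perm.one_apply] at e
    exact hb.1 e.symm
  by_cases c1 : h a = b
  · exact ⟨h, hh, Or.inl c1⟩
  by_cases c2 : h a = b'
  · exact ⟨h, hh, Or.inr c2⟩
  have hb' := S.LC_blk hh ha
  have n4 : h a' ≠ b' := fun e => c1 (hT.two _ _ _ (e ▸ hb'.symm) hb.symm)
  have hA := dt_mem_AF (F := fbr fib b) c1 n4 (mem_fbr.2 e) (mem_fbr.2 rfl)
    (mem_fbr.2 ((hT.fib_eq hb').trans e)) (mem_fbr.2 fb)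
  refine ⟨_, S.H.mul_mem (S.B2 hP hT (S.AF_le_L b hA) fun _ _ k => hT.swap_two hb' hb c1 c2 k) hh,
    Or.inl ?_⟩
  rw [Perm.mul_apply, Perm.mul_apply, swap_apply_of_ne_of_ne hb'.1 c2, swap_apply_left]

theorem trFib (hT : TT fib S.P) (a b : Ω) : ∃ g ∈ S.L, fib (g a) = fib b := by
  have ex : ∀ a, ∃ x x', fib x = fib a ∧ Blk S.P x x' := fun a => by
    rcases hT.ty with t | t
    · exact ⟨a, _, rfl, (t a).choose_spec⟩
    · obtain ⟨x, x', h1, h2, -⟩ := t a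
      exact ⟨x, x', h1, h2⟩
  obtain ⟨x, x', h1, h2⟩ := ex a
  obtain ⟨y, y', h3, h4⟩ := ex b
  obtain ⟨h, hh, e⟩ := S.TrB hT h2 h4
  refine ⟨h, S.HL hh, (S.fibp h (S.HL hh) _ _ h1).symm.trans ?_⟩
  rcases e with e | e <;> rw [e]
  · exact h3
  · exact (hT.fib_eq h4).trans h3

end PSet

theorem TT.O4 {fib : Ω → I} {P : Subgroup (Perm Ω)} (h : TT fib P) : O4 (fun g => g ∈ P) := by
  intro a
  by_cases h1 : ∃ a', Blk P a a'
  · obtain ⟨a', h1⟩ := h1
    refine ⟨[a, a'], by simp, fun g hg => ?_⟩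
    by_cases h2 : g a = a
    · simp [h2]
    · simp [h.two a (g a) a' ⟨fun e => h2 e.symm, g, hg, rfl⟩ h1]
  · refine ⟨[a], by simp, fun g hg => ?_⟩
    by_contra h2
    exact h1 ⟨g a, fun e => h2 (by simp [← e]), g, hg, rfl⟩

end Pool.Agent.MP_1d62fe_al.W

end

-- part LC2
section

set_option autoImplicit false
set_option linter.unusedSectionVars false

namespace Pool.Agent.MP_1d62fe_al.W

open Equiv

variable {Ω I : Type} [Fintype Ω] [DecidableEq Ω] [DecidableEq I]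

theorem lc2_fix {g : Perm Ω} {d n : ℕ} (hn : g ^ n = 1) (hc : Nat.Coprime d n) {x : Ω}
    (h : (g ^ d) x = x) : g x = x := by
  obtain ⟨m, hm⟩ := exists_pow_eq_self_of_coprime
    (hc.coprime_dvd_right (orderOf_dvd_of_pow_eq_one hn))
  rw [← hm]
  exact Perm.pow_apply_eq_self_of_apply_eq_self h m

theorem lc2_ia (g : Perm Ω) (x : Ω) : g⁻¹ (g x) = x := by simp

theorem lc2_ai (g : Perm Ω) (x : Ω) : g (g⁻¹ x) = x := by simp

theorem lc2_FP_mul {fib : Ω → I} {g h : Perm Ω} (hg : FP fib g) (hh : FP fib h) :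
    FP fib (g * h) := fun a => by rw [Perm.mul_apply, hg, hh]

theorem lc2_FP_inv {fib : Ω → I} {g : Perm Ω} (hg : FP fib g) : FP fib g⁻¹ := fun a => by
  rw [← hg (g⁻¹ a)]; simp

namespace PSet

variable {fib : Ω → I} {p : ℕ} (S : PSet fib p)

theorem lc2_FP_conj {h g : Perm Ω} (hh : h ∈ S.L) (hg : FP fib g) : FP fib (h * g * h⁻¹) :=
  fun a => by
    have := S.fibp h hh _ _ (hg (h⁻¹ a))
    simpa only [Perm.coe_mul, Perm.coe_inv, Function.comp_apply, apply_symm_apply] using this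

/-- `R` as a subgroup -/
def lc2R : Subgroup (Perm Ω) where
  carrier := {g | S.R g}
  one_mem' := ⟨S.P.one_mem, fun _ => rfl⟩
  mul_mem' := fun ha hb => ⟨S.P.mul_mem ha.1 hb.1, lc2_FP_mul ha.2 hb.2⟩
  inv_mem' := fun ha => ⟨S.P.inv_mem ha.1, lc2_FP_inv ha.2⟩

/-- the centre of `R` -/
def lc2Z : Subgroup (Perm Ω) where
  carrier := {z | S.R z ∧ ∀ g, S.R g → g * z = z * g}
  one_mem' := ⟨S.lc2R.one_mem, fun g _ => by simp⟩
  mul_mem' := fun {a b} ha hb => ⟨S.lc2R.mul_mem ha.1 hb.1, fun g hg => by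
    rw [← mul_assoc, ha.2 g hg, mul_assoc, hb.2 g hg, mul_assoc]⟩
  inv_mem' := fun {a} ha => ⟨S.lc2R.inv_mem ha.1, fun g hg => by
    rw [mul_inv_eq_iff_eq_mul, mul_assoc, ha.2 g hg, inv_mul_cancel_left]⟩

theorem lc2_R_conj {h g : Perm Ω} (hh : h ∈ S.H) (hg : S.R g) : S.R (h * g * h⁻¹) :=
  ⟨S.nP h hh g hg.1, S.lc2_FP_conj (S.HL hh) hg.2⟩

theorem lc2_Z_conj (h : Perm Ω) (hh : h ∈ S.H) (z : Perm Ω) (hz : z ∈ S.lc2Z) :
    h * z * h⁻¹ ∈ S.lc2Z := ⟨S.lc2_R_conj hh hz.1, fun g hg => by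
  have := hz.2 _ (S.lc2_R_conj (S.H.inv_mem hh) hg)
  calc g * (h * z * h⁻¹) = h * (h⁻¹ * g * h⁻¹⁻¹ * z) * h⁻¹ := by group
    _ = h * z * h⁻¹ * g := by rw [this]; group⟩

theorem lc2_ZP : S.lc2Z ≤ S.P := fun _ hz => hz.1.1

theorem lc2_Z_ne (hp : p.Prime) (hR : ∃ g, S.R g ∧ g ≠ 1) : S.lc2Z ≠ ⊥ := by
  obtain ⟨g, hg, h1⟩ := hR
  have := Fact.mk hp
  have : Nontrivial S.lc2R := ⟨⟨g, hg⟩, 1, fun e => h1 (congrArg Subtype.val e)⟩
  have hG : IsPGroup p S.lc2R := fun x => by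
    obtain ⟨k, hk⟩ := S.pP x x.2.1
    exact ⟨k, Subtype.ext hk⟩
  have := hG.center_nontrivial
  obtain ⟨z, hz⟩ := exists_ne (1 : Subgroup.center S.lc2R)
  intro e
  have : (z : Perm Ω) ∈ S.lc2Z := ⟨z.1.2, fun g hg =>
    congrArg Subtype.val (Subgroup.mem_center_iff.1 z.2 ⟨g, hg⟩)⟩
  rw [e, Subgroup.mem_bot] at this
  exact hz (Subtype.ext (Subtype.ext this))

/-- orbits of the centre -/
def lc2r (a b : Ω) : Prop := ∃ z ∈ S.lc2Z, z a = b

variable {S}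

theorem lc2r_refl (a : Ω) : S.lc2r a a := ⟨1, S.lc2Z.one_mem, rfl⟩

theorem lc2r.symm {a b : Ω} (h : S.lc2r a b) : S.lc2r b a := by
  obtain ⟨z, hz, rfl⟩ := h
  exact ⟨z⁻¹, S.lc2Z.inv_mem hz, by simp⟩

theorem lc2r.trans {a b c : Ω} (h : S.lc2r a b) (h' : S.lc2r b c) : S.lc2r a c := by
  obtain ⟨z, hz, rfl⟩ := h
  obtain ⟨w, hw, rfl⟩ := h'
  exact ⟨w * z, S.lc2Z.mul_mem hw hz, rfl⟩

theorem lc2r.fb {a b : Ω} (h : S.lc2r a b) : fib b = fib a := by
  obtain ⟨z, hz, rfl⟩ := h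
  exact hz.1.2 a

theorem lc2r.map {g : Perm Ω} (hg : g ∈ S.H) {a b : Ω} (h : S.lc2r a b) :
    S.lc2r (g a) (g b) := by
  obtain ⟨z, hz, rfl⟩ := h
  exact ⟨_, S.lc2_Z_conj g hg z hz, by simp only [Perm.coe_mul, Perm.coe_inv, Function.comp_apply, symm_apply_apply]⟩

theorem lc2r.fix {a b : Ω} (h : S.lc2r a b) {g : Perm Ω} (hg : S.R g) (ha : g a = a) :
    g b = b := by
  obtain ⟨z, hz, rfl⟩ := h
  rw [← Perm.mul_apply, hz.2 g hg, Perm.mul_apply, ha]

theorem lc2_three (h3 : Nat.Coprime 3 p) {w : Perm Ω} (hw : w ∈ S.P) {a b c : Ω} (h1 : w a = b)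
    (h2 : w b = c) (h4 : w c = a) : b = a := by
  obtain ⟨k, hk⟩ := S.pP w hw
  rw [← h1]
  refine lc2_fix hk (h3.pow_right k) ?_
  rw [pow_succ, pow_two, Perm.mul_apply, Perm.mul_apply, h1, h2, h4]

open Classical in
/-- normal-closure lemma for an invariant part of a fibre -/
theorem lc2_nc (h3 : Nat.Coprime 3 p) {F : Finset Ω} (hF : 5 ≤ F.card)
    (hH : ∀ a ∈ F, ∀ b ∈ F, ∀ c ∈ F, a ≠ b → a ≠ c → b ≠ c → c3 a b c ∈ S.H)
    {D : Subgroup (Perm Ω)} (hD : D ≤ S.P) (hn : ∀ h ∈ S.H, ∀ d ∈ D, h * d * h⁻¹ ∈ D)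
    {g : Perm Ω} (hg : g ∈ D) (hi : (∀ x ∈ F, g x ∈ F) ∨ (∀ x ∈ F, g x ∉ F)) {α : Ω}
    (hα : α ∈ F) : g α = α := by
  by_contra hm
  have h := NC hF (fun a ha b hb c hc h1 h2 h4 => hn _ (hH a ha b hb c hc h1 h2 h4)) hg hα hm hi
  obtain ⟨b, hb, h1⟩ := exists_notMem (F := F) [α] (by simp; omega)
  obtain ⟨c, hc, h2⟩ := exists_notMem (F := F) [α, b] (by simp; omega)
  simp only [List.mem_cons, List.not_mem_nil, not_or, or_false] at h1 h2
  exact h1 (lc2_three h3 (hD (h (c3_mem_AF (Ne.symm h1) (Ne.symm h2.2) hα hb hc)))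
    (c3_a (Ne.symm h1) (Ne.symm h2.1)) (c3_b (Ne.symm h2.1) (Ne.symm h2.2)) c3_c)

theorem lc2_ncU (h3 : Nat.Coprime 3 p) (U : Ω → Prop) [DecidablePred U]
    (hU : ∀ g ∈ S.H, ∀ a, U a → U (g a))
    (hH : ∀ a b c, D3 fib a b c → U a → U b → U c → c3 a b c ∈ S.H)
    {D : Subgroup (Perm Ω)} (hD : D ≤ S.P) (hn : ∀ h ∈ S.H, ∀ d ∈ D, h * d * h⁻¹ ∈ D)
    {α : Ω} (hF : 5 ≤ ((fbr fib α).filter U).card) (hα : U α) {g : Perm Ω} (hg : g ∈ D) :
    g α = α := by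
  have hm : ∀ {x}, x ∈ (fbr fib α).filter U ↔ fib x = fib α ∧ U x := by
    simp [Finset.mem_filter, mem_fbr]
  refine lc2_nc h3 hF (fun a ha b hb c hc h1 h2 h4 => hH a b c ⟨h1, h2, h4,
    (hm.1 hb).1.trans (hm.1 ha).1.symm, (hm.1 hc).1.trans (hm.1 ha).1.symm⟩ (hm.1 ha).2
    (hm.1 hb).2 (hm.1 hc).2) hD hn hg ?_ (hm.2 ⟨rfl, hα⟩)
  have hgH := S.PH (hD hg)
  by_cases e : fib (g α) = fib α
  · exact Or.inl fun x hx => hm.2 ⟨(S.fibp g (S.HL hgH) _ _ (hm.1 hx).1).trans e,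
      hU g hgH x (hm.1 hx).2⟩
  · exact Or.inr fun x hx h => e ((S.fibp g (S.HL hgH) _ _ (hm.1 hx).1).symm.trans (hm.1 h).1)

/-- dichotomy for an invariant set of points -/
theorem lc2_dich (U : Ω → Prop) (hU : ∀ g ∈ S.H, ∀ a, U a → U (g a)) :
    (∀ a b c, D3 fib a b c → (U a ↔ U b) → (U a ↔ U c) → c3 a b c ∈ S.H) ∨
      ∀ a b, fib a = fib b → U a → U b := by
  rcases S.dich (fun a _ => U a) (fun g hg a _ => hU g hg a) with h | h
  · refine Or.inl fun a b c h3 e1 e2 => h _ (S.three a b c h3) fun x _ hx => ?_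
    by_cases ea : x = a
    · rw [ea, c3_a h3.ab h3.ac]; exact e1.1 (ea ▸ hx)
    by_cases eb : x = b
    · rw [eb, c3_b h3.ac h3.bc]; exact e2.1 (e1.2 (eb ▸ hx))
    by_cases ec : x = c
    · rw [ec, c3_c]; exact e2.2 (ec ▸ hx)
    · rwa [c3_ne ea eb ec]
  · refine Or.inr fun a b e ha => ?_
    by_cases eb : a = b
    · exact eb ▸ ha
    obtain ⟨c, h1, h2⟩ := S.big.avoid a [a, b] (by simp)
    simp only [List.mem_cons, List.not_mem_nil, not_or, or_false] at h2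
    have := h _ (S.three a b c ⟨eb, Ne.symm h2.1, Ne.symm h2.2, e.symm, h1⟩) a a ha
    rwa [c3_a eb (Ne.symm h2.1)] at this

theorem lc2_touch (h0 : S.lc2Z ≠ ⊥) (a : Ω) : ∃ x x', fib x = fib a ∧ S.lc2r x x' ∧ x' ≠ x := by
  obtain ⟨z, hz, x, h1, h2⟩ := S.touch (S.lc2_ZP.trans S.PH) S.lc2_Z_conj h0 a
  exact ⟨x, z x, h1, ⟨z, hz, rfl⟩, h2⟩

/-- case (a) -/
theorem lc2_SR (h0 : S.lc2Z ≠ ⊥) (h : ∀ g ∈ S.L, ∀ a b, S.lc2r a b → S.lc2r (g a) (g b)) :
    SR fib S.R := by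
  intro g hg a b e ha
  obtain ⟨x, x', h1, h2, h3⟩ := lc2_touch h0 a
  have key : ∀ y, fib y = fib a → S.lc2r x y := fun y hy => by
    by_cases e1 : y = x
    · exact e1 ▸ lc2r_refl _
    by_cases e2 : x' = y
    · exact e2 ▸ h2
    obtain ⟨c, h4, h5⟩ := S.big.avoid a [x, x', y] (by simp)
    simp only [List.mem_cons, List.not_mem_nil, not_or, or_false] at h5
    have := h _ (S.three x' y c ⟨e2, Ne.symm h5.2.1, Ne.symm h5.2.2,
      by rw [hy, h2.fb, h1], by rw [h4, h2.fb, h1]⟩) _ _ h2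
    rwa [c3_a e2 (Ne.symm h5.2.1), c3_ne h3.symm (Ne.symm e1) (Ne.symm h5.1)] at this
  exact ((key a rfl).symm.trans (key b e.symm)).fix hg ha

/-- the hypothesis of case (b) -/
def lc2B (S : PSet fib p) : Prop :=
  ∀ g ∈ S.L, (∀ a b, S.lc2r a b → S.lc2r (g a) (g b)) → g ∈ S.H

theorem lc2B.c3 (hB : S.lc2B) {a b c : Ω} (h1 : a ≠ b) (h2 : a ≠ c) (h3 : b ≠ c)
    (hb : S.lc2r a b) (hc : S.lc2r a c) : c3 a b c ∈ S.H := by
  have key : ∀ x, S.lc2r x (W.c3 a b c x) := fun x => by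
    by_cases ea : x = a
    · rw [ea, c3_a h1 h2]; exact hb
    by_cases eb : x = b
    · rw [eb, c3_b h2 h3]; exact hb.symm.trans hc
    by_cases ec : x = c
    · rw [ec, c3_c]; exact hc.symm
    · rw [c3_ne ea eb ec]; exact lc2r_refl _
  exact hB _ (S.three a b c ⟨h1, h2, h3, hb.fb, hc.fb⟩) fun x y h =>
    ((key x).symm.trans h).trans (key y)

open Classical in
/-- the orbit as a finite set -/
noncomputable def lc2O (S : PSet fib p) (a : Ω) : Finset Ω := Finset.univ.filter (S.lc2r a)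

theorem lc2_memO {a x : Ω} : x ∈ S.lc2O a ↔ S.lc2r a x := by simp only [lc2O, Finset.mem_filter, Finset.mem_univ, true_and]

theorem lc2B.card (hB : S.lc2B) (h3 : Nat.Coprime 3 p) (a : Ω) : (S.lc2O a).card ≤ 4 := by
  by_contra hc
  obtain ⟨b, hb, h1⟩ := exists_notMem (F := S.lc2O a) [a] (by simp; omega)
  obtain ⟨z, hz, rfl⟩ := lc2_memO.1 hb
  refine h1 (List.mem_singleton.2 (lc2_nc h3 (F := S.lc2O a) (by omega)
    (fun x hx y hy w hw e1 e2 e3 => hB.c3 e1 e2 e3 ((lc2_memO.1 hx).symm.trans (lc2_memO.1 hy))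
      ((lc2_memO.1 hx).symm.trans (lc2_memO.1 hw))) S.lc2_ZP S.lc2_Z_conj hz
    (Or.inl fun x hx => lc2_memO.2 ((lc2_memO.1 hx).trans ⟨z, hz, rfl⟩))
    (lc2_memO.2 (lc2r_refl a))))

variable (S)

/-- Lemma C for `p ≥ 5` -/
theorem lemmaC_odd (hp : p.Prime) (h5 : 5 ≤ p) (hR : ∃ g, S.R g ∧ g ≠ 1) : SR fib S.R := by
  have h0 := S.lc2_Z_ne hp hR
  rcases S.dich S.lc2r (fun g hg a b h => h.map hg) with h | h
  · exfalso
    obtain ⟨g, _, h1⟩ := hR
    obtain ⟨a, -⟩ : ∃ a, g a ≠ a := by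
      by_contra hc
      push Not at hc
      exact h1 (Equiv.ext hc)
    obtain ⟨x, _, -, ⟨z, hz, rfl⟩, h2⟩ := lc2_touch h0 a
    have h4 := lc2B.card h ((Nat.coprime_primes Nat.prime_three hp).2 (by omega)) x
    obtain ⟨k, hk⟩ := S.pP z (S.lc2_ZP hz)
    have key : ∀ i j, i < j → j < 5 → (z ^ i) x ≠ (z ^ j) x := fun i j hij hj e => by
      obtain ⟨d, rfl⟩ := Nat.exists_eq_add_of_lt hij
      rw [add_assoc, pow_add, Perm.mul_apply] at e
      exact h2 (lc2_fix hk (Nat.Coprime.pow_right k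
        ((Nat.coprime_of_lt_prime (by omega) (by omega) hp).symm)) ((z ^ i).injective e).symm)
    have : (Finset.range 5).card ≤ (S.lc2O x).card :=
      Finset.card_le_card_of_injOn (fun i => (z ^ i) x)
        (fun i _ => lc2_memO.2 ⟨_, S.lc2Z.pow_mem hz i, rfl⟩) fun i hi j hj e => by
          rcases lt_trichotomy i j with h | h | h
          · exact absurd e (key i j h (by simpa using hj))
          · exact h
          · exact absurd e.symm (key j i h (by simpa using hi))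
    simp at this
    omega
  · exact lc2_SR h0 h

variable {S}

/-- points in orbits of size two -/
def lc2S (S : PSet fib p) (a : Ω) : Prop :=
  ∃ a', a' ≠ a ∧ S.lc2r a a' ∧ ∀ b, S.lc2r a b → b = a ∨ b = a'

theorem lc2S.map {g : Perm Ω} (hg : g ∈ S.H) {a : Ω} (h : S.lc2S a) : S.lc2S (g a) := by
  obtain ⟨a', h1, h2, h3⟩ := h
  refine ⟨g a', g.injective.ne h1, h2.map hg, fun b hb => ?_⟩
  have := hb.map (S.H.inv_mem hg)
  rw [lc2_ia] at this
  rcases h3 _ this with e | e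
  · left; rw [← e]; simp
  · right; rw [← e]; simp

theorem lc2_not {U : Ω → Prop} (hU : ∀ g ∈ S.H, ∀ a, U a → U (g a)) :
    ∀ g ∈ S.H, ∀ a, ¬ U a → ¬ U (g a) := fun g hg a h h' => h (by
  simpa using hU _ (S.H.inv_mem hg) _ h')

theorem lc2S.of_r {a b : Ω} (h : S.lc2S a) (hb : S.lc2r a b) : S.lc2S b := by
  obtain ⟨a', h1, h2, h3⟩ := h
  rcases h3 b hb with rfl | rfl
  · exact ⟨a', h1, h2, h3⟩
  · exact ⟨a, h1.symm, h2.symm, fun c hc => (h3 c (h2.trans hc)).symm⟩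

theorem lc2_third {x x' : Ω} (h : ¬ S.lc2S x) (h1 : S.lc2r x x') (h2 : x' ≠ x) :
    ∃ y, S.lc2r x y ∧ y ≠ x ∧ y ≠ x' := by
  by_contra hc
  exact h ⟨x', h2, h1, fun b hb => by
    by_contra e
    exact hc ⟨b, hb, fun e' => e (Or.inl e'), fun e' => e (Or.inr e')⟩⟩

open Classical in
/-- case (D) -/
theorem lc2_D (h3 : Nat.Coprime 3 p) (h0 : S.lc2Z ≠ ⊥)
    (hD : ∀ a b c, D3 fib a b c → (S.lc2S a ↔ S.lc2S b) → (S.lc2S a ↔ S.lc2S c) →
      c3 a b c ∈ S.H) : TT fib S.P := by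
  have two : ∀ x x' y, S.lc2S x → S.lc2r x x' → x' ≠ x → S.lc2S y → fib y = fib x →
      y = x ∨ y = x' := fun x x' y hx h1 h2 hy e => by
    by_contra hc
    rw [not_or] at hc
    have := h1.map (hD x x' y ⟨h2.symm, Ne.symm hc.1, Ne.symm hc.2, h1.fb, e⟩
      (iff_of_true hx (hx.of_r h1)) (iff_of_true hx hy))
    rw [c3_a h2.symm (Ne.symm hc.1), c3_b (Ne.symm hc.1) (Ne.symm hc.2)] at this
    obtain ⟨a', -, -, h5⟩ := hx
    have e1 := h5 _ h1
    have e2 := h5 _ (h1.trans this)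
    grind
  have card : ∀ α, 5 ≤ ((fbr fib α).filter fun y => ¬ S.lc2S y).card := fun α => by
    obtain ⟨l, hl, h⟩ : ∃ l : List Ω, l.length ≤ 2 ∧ ∀ y, fib y = fib α → S.lc2S y → y ∈ l := by
      by_cases h : ∃ x, fib x = fib α ∧ S.lc2S x
      · obtain ⟨x, e, hx⟩ := h
        obtain ⟨x', h1, h2, -⟩ := id hx
        exact ⟨[x, x'], by simp, fun y e' hy => by
          simpa using two x x' y hx h2 h1 hy (e'.trans e.symm)⟩
      · exact ⟨[], by simp, fun y e hy => absurd ⟨y, e, hy⟩ h⟩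
    have h1 := card_filter_notMem (fbr fib α) l
    have h2 := S.big α
    have h4 : ((fbr fib α).filter fun x => x ∉ l) ⊆ (fbr fib α).filter fun y => ¬ S.lc2S y :=
      fun y hy => by
        rw [Finset.mem_filter] at hy ⊢
        exact ⟨hy.1, fun hs => hy.2 (h y (mem_fbr.1 hy.1) hs)⟩
    have := Finset.card_le_card h4
    omega
  have fix : ∀ g ∈ S.P, ∀ α, g α ≠ α → S.lc2S α := fun g hg α hm => by
    by_contra hα
    exact hm (lc2_ncU h3 (fun y => ¬ S.lc2S y) (lc2_not fun g hg a h => h.map hg)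
      (fun a b c h ha hb hc => hD a b c h (iff_of_false ha hb) (iff_of_false ha hc)) le_rfl S.nP
      (card α) hα hg)
  have fp : ∀ g ∈ S.P, FP fib g := fun g hg a => by
    obtain ⟨y, hy⟩ := Finset.card_pos.1 (lt_of_lt_of_le (by norm_num) (card a))
    rw [Finset.mem_filter, mem_fbr] at hy
    have e : g y = y := by
      by_contra e
      exact hy.2 (fix g hg y e)
    rw [← S.fibp g (S.HL (S.PH hg)) _ _ hy.1, e, hy.1]
  have blk : ∀ a a', Blk S.P a a' → S.lc2S a ∧ S.lc2S a' ∧ fib a' = fib a := by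
    rintro a _ ⟨h1, g, hg, rfl⟩
    exact ⟨fix g hg a h1.symm, (fix g hg a h1.symm).map (S.PH hg), fp g hg a⟩
  refine ⟨fp, fun a a' a'' h1 h2 => ?_, Or.inr fun a₀ => ?_⟩
  · obtain ⟨e1, e2, e3⟩ := blk _ _ h1
    obtain ⟨-, e4, e5⟩ := blk _ _ h2
    obtain ⟨x', k1, k2, -⟩ := id e1
    have f1 := two a x' a' e1 k2 k1 e2 e3
    have f2 := two a x' a'' e1 k2 k1 e4 e5
    have := h1.1
    have := h2.1
    grind
  · obtain ⟨x, _, e, ⟨z, hz, rfl⟩, h2⟩ := lc2_touch h0 a₀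
    have hb : Blk S.P x (z x) := ⟨h2.symm, z, S.lc2_ZP hz, rfl⟩
    exact ⟨x, z x, e, hb, fun y y' e' hy => two x _ y (blk _ _ hb).1 ⟨z, hz, rfl⟩ h2
      (blk _ _ hy).1 (e'.trans e.symm)⟩

theorem lc2_E (hB : S.lc2B) {τ : Perm Ω} (t2 : ∀ a, τ (τ a) = a) (t1 : ∀ a, τ a ≠ a)
    (t3 : ∀ a, S.lc2r a (τ a)) (t4 : ∀ a b, S.lc2r a b → b = a ∨ b = τ a) {a b c : Ω}
    (h : D3 fib a b c) (h1 : b ≠ τ a) (h2 : c ≠ τ a) (h3 : c ≠ τ b) :
    ∃ E ∈ S.H, E a = b ∧ E c = a ∧ ∀ z, z ∉ [a, b, c, τ a, τ b, τ c] → E z = z := by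
  have h' : D3 fib (τ a) (τ b) (τ c) := ⟨τ.injective.ne h.ab, τ.injective.ne h.ac,
    τ.injective.ne h.bc, by rw [(t3 b).fb, (t3 a).fb, h.fb], by rw [(t3 c).fb, (t3 a).fb, h.fc]⟩
  have sw : ∀ {x y}, x ≠ τ y → y ≠ τ x := fun {x y} e e' => e (by rw [e', t2])
  have fa : c3 (τ a) (τ b) (τ c) a = a := c3_ne (t1 a).symm (sw h1) (sw h2)
  have fb : c3 (τ a) (τ b) (τ c) b = b := c3_ne h1 (t1 b).symm (sw h3)
  have fc : c3 (τ a) (τ b) (τ c) c = c := c3_ne h2 h3 (t1 c).symm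
  have e : τ * (c3 a b c * c3 (τ a) (τ b) (τ c)) = c3 a b c * c3 (τ a) (τ b) (τ c) * τ := by
    have e1 := c3_conj τ a b c
    have e2 := c3_conj τ (τ a) (τ b) (τ c)
    have e3 := c3_comm_of_fix fa fb fc
    rw [t2, t2, t2] at e2
    rw [mul_inv_eq_iff_eq_mul] at e1 e2 e3
    rw [← mul_assoc, e1, mul_assoc, e2, ← mul_assoc, e3]
  refine ⟨c3 a b c * c3 (τ a) (τ b) (τ c), hB _ (S.L.mul_mem (S.three _ _ _ h) (S.three _ _ _ h'))
    fun x y hxy => ?_, by rw [Perm.mul_apply, fa, c3_a h.ab h.ac],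
    by rw [Perm.mul_apply, fc, c3_c], fun z hz => ?_⟩
  · rcases t4 x y hxy with rfl | rfl
    · exact lc2r_refl _
    · rw [← Perm.mul_apply _ τ, ← e]; exact t3 _
  · simp only [List.mem_cons, List.not_mem_nil, not_or, or_false] at hz
    rw [Perm.mul_apply, c3_ne hz.2.2.2.1 hz.2.2.2.2.1 hz.2.2.2.2.2, c3_ne hz.1 hz.2.1 hz.2.2.1]

/-- case (M) -/
theorem lc2_M (h3 : Nat.Coprime 3 p) (hB : S.lc2B) (hM : ∀ a, S.lc2S a) : TT fib S.P := by
  choose t t1 t3 t4 using hM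
  have t2 : ∀ a, t (t a) = a := fun a => ((t4 _ _ (t3 a).symm).resolve_left (t1 a).symm).symm
  obtain ⟨τ, rfl⟩ : ∃ τ : Perm Ω, ⇑τ = t := ⟨Function.Involutive.toPerm t t2, rfl⟩
  have cm : ∀ g ∈ S.H, ∀ a, g (τ a) = τ (g a) := fun g hg a =>
    (t4 _ _ ((t3 a).map hg)).resolve_left (g.injective.ne (t1 a))
  have sw : ∀ {x y}, x ≠ τ y → y ≠ τ x := fun {x y} e e' => e (by rw [e', t2])
  have key : ∀ g ∈ S.P, ∀ α, g α = α ∨ g α = τ α := fun g hg α => by
    by_contra hc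
    rw [not_or] at hc
    have hgH := S.PH hg
    obtain ⟨β, rfl⟩ : ∃ β, g β = α := g.surjective α
    have b1 : β ≠ g β := fun e => hc.1 (by rw [← e, ← e])
    have b2 : β ≠ τ (g β) := fun e => hc.2 (by
      have := cm g hgH (g β)
      rw [← e] at this
      rw [this, t2, ← this])
    obtain ⟨γ, g1, g2⟩ := S.big.avoid (g β) [g β, τ (g β), β, τ β] (by simp)
    obtain ⟨ε, e1, e2⟩ := S.big.avoid (g β) [g β, τ (g β), β, τ β, γ, τ γ] (by simp)
    simp only [List.mem_cons, List.not_mem_nil, not_or, or_false] at g2 e2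
    obtain ⟨e, he, -, ec, ez⟩ := lc2_E hB t2 t1 t3 t4 (a := g β) (b := γ) (c := ε)
      ⟨Ne.symm g2.1, Ne.symm e2.1, Ne.symm e2.2.2.2.2.1, g1, e1⟩ g2.2.1 e2.2.1 e2.2.2.2.2.2
    have eβ : e β = β := ez β (by
      simp only [List.mem_cons, List.not_mem_nil, not_or, or_false]
      exact ⟨b1, Ne.symm g2.2.2.1, Ne.symm e2.2.2.1, b2, sw g2.2.2.2, sw e2.2.2.2.1⟩)
    have hu : g * (e * g⁻¹ * e⁻¹) ∈ S.P := S.P.mul_mem hg (S.nP e he _ (S.P.inv_mem hg))
    have ua : ∀ z, (g * (e * g⁻¹ * e⁻¹)) (e z) = g (e (g⁻¹ z)) := fun z => by simp only [Perm.coe_mul, Perm.coe_inv, Function.comp_apply, symm_apply_apply]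
    generalize g * (e * g⁻¹ * e⁻¹) = u at hu ua
    have u1 : u (g β) ≠ g β := fun h => by
      rw [← ec, ua, ec] at h
      have := e.injective ((g.injective h).trans eβ.symm)
      exact e2.1 (by rw [← this]; simp)
    have u2 : u (g β) ≠ τ (g β) := fun h => by
      rw [← ec, ua, ec, ← cm g hgH] at h
      have := e.injective ((g.injective h).trans (by rw [cm e he, eβ] : e (τ β) = τ β).symm)
      exact e2.2.1 (by rw [← cm g hgH, ← this]; simp)
    generalize g β = α at *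
    have uz : ∀ z, z ∉ [α, γ, ε, τ α, τ γ, τ ε] ++ [α, γ, ε, τ α, τ γ, τ ε].map g → u z = z :=
      fun z hz => by
        rw [List.mem_append, not_or] at hz
        have := ua z
        rw [ez z hz.1, ez (g⁻¹ z) fun h => hz.2 (List.mem_map.2 ⟨_, h, by simp⟩)] at this
        simpa using this
    obtain ⟨x, x1, x2⟩ := S.big.avoid α ([α, γ, ε, τ α, τ γ, τ ε] ++ [α, γ, ε, τ α, τ γ, τ ε].map g)
      (by simp)
    obtain ⟨y, y1, y2⟩ := S.big.avoid α
      (x :: τ x :: ([α, γ, ε, τ α, τ γ, τ ε] ++ [α, γ, ε, τ α, τ γ, τ ε].map g)) (by simp)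
    rw [List.mem_cons, List.mem_cons, not_or, not_or] at y2
    have ux := uz x x2
    have uy := uz y y2.2.2
    have xa : x ≠ α := fun h => x2 (by simp [h])
    have xt : x ≠ τ α := fun h => x2 (by simp [h])
    have ya : y ≠ α := fun h => y2.2.2 (by simp [h])
    have yt : y ≠ τ α := fun h => y2.2.2 (by simp [h])
    obtain ⟨E, hE, Ea, Ec, Ez⟩ := lc2_E hB t2 t1 t3 t4 (a := α) (b := x) (c := y)
      ⟨xa.symm, ya.symm, Ne.symm y2.1, x1, y1⟩ xt yt y2.2.1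
    have utx : u (τ x) = τ x := by rw [cm u (S.PH hu), ux]
    have uty : u (τ y) = τ y := by rw [cm u (S.PH hu), uy]
    have E1 : E (u α) = u α := Ez _ (by
      simp only [List.mem_cons, List.not_mem_nil, not_or, or_false]
      exact ⟨u1, fun h => xa (u.injective (ux.trans h.symm)),
        fun h => ya (u.injective (uy.trans h.symm)), u2,
        fun h => sw xt (u.injective (h.trans utx.symm)),
        fun h => sw yt (u.injective (h.trans uty.symm))⟩)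
    have E2 : E (u⁻¹ α) = u⁻¹ α := Ez _ (by
      simp only [List.mem_cons, List.not_mem_nil, not_or, or_false, Perm.inv_eq_iff_eq, ux, uy,
        utx, uty, cm u (S.PH hu)]
      exact ⟨u1.symm, xa.symm, ya.symm, sw u2, sw xt, sw yt⟩)
    have wa : ∀ z, (u * (E * u⁻¹ * E⁻¹)) (E z) = u (E (u⁻¹ z)) := fun z => by simp only [Perm.coe_mul, Perm.coe_inv, Function.comp_apply, symm_apply_apply]
    refine u1 (lc2_three h3 (S.P.mul_mem hu (S.nP E hE _ (S.P.inv_mem hu))) (c := x) ?_ ?_ ?_)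
    · conv_lhs => rw [← Ec, wa, Perm.inv_eq_iff_eq.2 uy.symm]
      rw [Ec]
    · rw [← E1, wa, lc2_ia, Ea, ux]
    · rw [← Ea, wa, E2, lc2_ai]
  refine ⟨fun g hg a => ?_, ?_, Or.inl fun a => ?_⟩
  · rcases key g hg a with e | e <;> rw [e]
    exact (t3 a).fb
  · rintro a _ _ ⟨h1, g, hg, rfl⟩ ⟨h2, g', hg', rfl⟩
    rw [(key g hg a).resolve_left h1.symm, (key g' hg' a).resolve_left h2.symm]
  · obtain ⟨z, hz, e⟩ := t3 a
    exact ⟨τ a, (t1 a).symm, z, S.lc2_ZP hz, e⟩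

open Classical in
/-- case (V) -/
theorem lc2_V (h3 : Nat.Coprime 3 p) (h0 : S.lc2Z ≠ ⊥) (hB : S.lc2B) (hV : ∀ a, ¬ S.lc2S a) :
    NoT fib S.R ∧ O4 S.R := by
  have four : ∀ x x', S.lc2r x x' → x' ≠ x → 4 ≤ (S.lc2O x).card := fun x x' h1 h2 => by
    obtain ⟨y, k1, k2, k3⟩ := lc2_third (hV x) h1 h2
    obtain ⟨w, w1, w2⟩ : ∃ w, S.lc2r x w ∧ w ∉ [x, x', y] := by
      by_contra hc
      push Not at hc
      obtain ⟨z, hz, rfl⟩ := h1
      have e1 := hc _ (k1.trans ⟨z, hz, rfl⟩)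
      have e2 := hc (z (z x)) ⟨z * z, S.lc2Z.mul_mem hz hz, rfl⟩
      have e3 : z y ≠ y := fun e => h2 (k1.symm.fix hz.1 e)
      have e4 : z y ≠ z x := z.injective.ne k2
      have e5 : z (z x) ≠ z x := z.injective.ne h2
      have e6 : z (z x) ≠ z y := z.injective.ne k3.symm
      simp only [List.mem_cons, List.not_mem_nil, or_false] at e1 e2
      exact h2 (lc2_three h3 (S.lc2_ZP hz) (c := y) rfl (by grind) (by grind))
    have hn : [w, x, x', y].Nodup := by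
      simp only [List.mem_cons, List.not_mem_nil, or_false, not_or] at w2
      simp [w2.1, w2.2.1, w2.2.2, h2.symm, k2.symm, k3.symm]
    have := Finset.card_le_card (show [w, x, x', y].toFinset ⊆ S.lc2O x from fun a ha => by
      simp only [List.mem_toFinset, List.mem_cons, List.not_mem_nil, or_false] at ha
      rcases ha with rfl | rfl | rfl | rfl <;> rw [lc2_memO]
      exacts [w1, lc2r_refl _, h1, k1])
    rwa [List.toFinset_card_of_nodup hn] at this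
  have V1 : ∀ g ∈ S.P, ∀ x x', S.lc2r x x' → x' ≠ x → S.lc2r x (g x) := fun g hg x x' h1 h2 => by
    by_contra hc
    obtain ⟨y, k1, k2, k3⟩ := lc2_third (hV x) h1 h2
    have he := hB.c3 h2.symm k2.symm k3.symm h1 k1
    have wa : ∀ z, S.lc2r x z → (g * (c3 x x' y * g⁻¹ * (c3 x x' y)⁻¹)) (c3 x x' y z) = z :=
      fun z hz => by
        have f : ∀ s, S.lc2r x s → g⁻¹ z ≠ s := fun s hs e => hc (hz.trans (by
          have := (hs.map (S.PH hg)).symm
          rwa [← e, lc2_ai] at this))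
        rw [Perm.mul_apply, Perm.mul_apply, Perm.mul_apply, lc2_ia,
          c3_ne (f x (lc2r_refl _)) (f x' h1) (f y k1), lc2_ai]
    have w1 := wa x (lc2r_refl _)
    have w2 := wa x' h1
    have w3 := wa y k1
    rw [c3_a h2.symm k2.symm] at w1
    rw [c3_b k2.symm k3.symm] at w2
    rw [c3_c] at w3
    exact k2 (lc2_three h3 (S.P.mul_mem hg (S.nP _ he _ (S.P.inv_mem hg))) w3 w2 w1)
  have hU : ∀ g ∈ S.H, ∀ a, (∀ b, S.lc2r a b → b = a) → ∀ b, S.lc2r (g a) b → b = g a :=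
    fun g hg a h b hb => by
      have := hb.map (S.H.inv_mem hg)
      rw [lc2_ia] at this
      rw [← h _ this]; simp
  have fix : ∀ g ∈ S.P, ∀ a, (∀ b, S.lc2r a b → b = a) → g a = a := fun g hg a ha => by
    obtain ⟨x, _, e, ⟨z, hz, rfl⟩, h2⟩ := lc2_touch h0 a
    have hx : ¬ ∀ b, S.lc2r x b → b = x := fun h => h2 (h _ ⟨z, hz, rfl⟩)
    rcases lc2_dich (fun a => ∀ b, S.lc2r a b → b = a) hU with h | h
    · refine lc2_ncU h3 (fun a => ∀ b, S.lc2r a b → b = a) hU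
        (fun a b c k ha hb hc => h a b c k (iff_of_true ha hb) (iff_of_true ha hc)) le_rfl S.nP
        ?_ ha hg
      by_contra hc
      have e1 := Finset.card_filter_add_card_filter_not (s := fbr fib a)
        (fun a => ∀ b, S.lc2r a b → b = a)
      have e2 := S.big a
      have e3 : fbr fib x = fbr fib a := by simp only [fbr, e]
      exact h2 (lc2_ncU h3 (fun a => ¬ ∀ b, S.lc2r a b → b = a) (lc2_not hU)
        (fun a b c k ha hb hc => h a b c k (iff_of_false ha hb) (iff_of_false ha hc)) S.lc2_ZP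
        S.lc2_Z_conj (by rw [e3]; omega) hx hz)
    · exact absurd (h a x e.symm ha) hx
  refine ⟨fun g hg a hm => ?_, fun a => ?_⟩
  · have ha : ¬ ∀ b, S.lc2r a b → b = a := fun h => hm (fix g hg.1 a h)
    push Not at ha
    obtain ⟨b, h1, h2⟩ := ha
    exact ⟨S.lc2O a, lc2_memO.2 (lc2r_refl a), four a b h1 h2,
      fun x hx => mem_fbr.2 (lc2_memO.1 hx).fb, fun h hh x hx y hy e =>
        ((lc2_memO.1 hx).symm.trans (lc2_memO.1 hy)).fix hh e⟩
  · by_cases ha : ∀ b, S.lc2r a b → b = a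
    · exact ⟨[a], by simp, fun g hg => by simp [fix g hg.1 a ha]⟩
    · push Not at ha
      obtain ⟨b, h1, h2⟩ := ha
      exact ⟨(S.lc2O a).toList, by rw [Finset.length_toList]; exact hB.card h3 a,
        fun g hg => Finset.mem_toList.2 (lc2_memO.2 (V1 g hg.1 a b h1 h2))⟩

/-- Lemma C for `p = 2` -/
theorem lemmaC_two (S : PSet fib 2) (hR : ∃ g, S.R g ∧ g ≠ 1) :
    (NoT fib S.R ∧ (SR fib S.R ∨ O4 S.R)) ∨ TT fib S.P := by
  have h0 := S.lc2_Z_ne Nat.prime_two hR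
  have h3 : Nat.Coprime 3 2 := by norm_num
  rcases S.dich S.lc2r (fun g hg a b h => h.map hg) with hB | h
  · rcases lc2_dich S.lc2S (fun g hg a h => h.map hg) with h | h
    · exact Or.inr (lc2_D h3 h0 h)
    by_cases hb : ∃ b, S.lc2S b
    · obtain ⟨b, hb⟩ := hb
      refine Or.inr (lc2_M h3 hB fun a => ?_)
      by_contra ha
      obtain ⟨x, x', e, h1, h2⟩ := lc2_touch h0 a
      have hx : ¬ S.lc2S x := fun k => ha (h x a e k)
      obtain ⟨y, k1, k2, k3⟩ := lc2_third hx h1 h2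
      refine c3_ne_one h2.symm k2.symm (S.C5 S.lc2S h (fun g hg a h => h.map hg) hb
        (lc2B.c3 hB h2.symm k2.symm k3.symm h1 k1) fun z hz => c3_ne ?_ ?_ ?_)
      · rintro rfl; exact hx hz
      · rintro rfl; exact hx (hz.of_r h1.symm)
      · rintro rfl; exact hx (hz.of_r k1.symm)
    · have := lc2_V h3 h0 hB fun a ha => hb ⟨a, ha⟩
      exact Or.inl ⟨this.1, Or.inr this.2⟩
  · have hS := lc2_SR h0 h
    exact Or.inl ⟨fun g _ a _ => ⟨fbr fib a, mem_fbr.2 rfl, le_trans (by norm_num) (S.big a),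
      subset_rfl, fun k hk x hx y hy => hS k hk x y ((mem_fbr.1 hx).trans (mem_fbr.1 hy).symm)⟩,
      Or.inl hS⟩

end PSet

end Pool.Agent.MP_1d62fe_al.W

end
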