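import Pool.Agent.MP_1d62fe_al.Alt.A

attribute [-instance] MonTypeEquivalenceMon.monMonoid NonUnitalRingHomClass.toMulHomClass
  DivisionSemiring.toSemiring CommSemiring.toSemiring DivisionCommMonoid.toDivisionMonoid
  NonUnitalAlgSemiHomClass.toMulHomClass NormedRing.toRing DivisionRing.toRing CommRing.toRing
  IdemSemiring.toSemiring MonoidWithZero.toMonoid MulZeroClass.toMul
  NonUnitalCommSemiring.toNonUnitalSemiring IsMulCommutative.is_comm
  NonUnitalRing.toNonUnitalNonAssocRing Nontrivial.to_nonempty RKHS.instFunLike SeminormedRing.toRing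
  AddCommMonoidWithOne.toAddMonoidWithOne littleWedderburn AddCommGroupWithOne.toAddGroupWithOne
  NonUnitalNonAssocSemiring.toAddCommMonoid Algebra.toSMul SemilatticeInf.toPartialOrder
  MonoidWithZero.toMulZeroOneClass NormedAddTorsor.toAddTorsor BooleanRing.toRing
  CompletePartialOrder.toPartialOrder NonAssocSemiring.toNonUnitalNonAssocSemiring
  UniformSpace.toTopologicalSpace CommRing.toGrindCommRing
  NonUnitalNormedCommRing.toNonUnitalCommRing NonAssocSemiring.toMulZeroOneClass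
  FiniteField.instGrindPowIdentity NonUnitalRing.toNonUnitalSemiring DivisionRing.toDivInvMonoid
  DivisionSemiring.toGroupWithZero AddCommGroup.toGrindIntModule
  LieAdmissibleRing.toNonUnitalNonAssocRing MonoidWithZero.toSemigroupWithZero
  NonUnitalNonAssocCommSemiring.toNonUnitalNonAssocSemiring
  Group.IsPerfect.subsingleton_of_isMulCommutative NonUnitalSeminormedCommRing.toNonUnitalCommRing
  GroupWithZero.toDivInvMonoid TestFunctionClass.toDFunLike instTransOfIsTrans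
  instIsLinearOrder_mathlib instSMulZeroClass BooleanRing.instIdempotentOpHMul
  ContDiffMapSupportedInClass.toDFunLike NonAssocCommRing.toNonUnitalNonAssocCommRing

-- part Loc
section

set_option autoImplicit false
set_option linter.unusedSectionVars false

namespace Pool.Agent.MP_1d62fe_al.W

open Equiv

variable {Ω I : Type} [Fintype Ω] [DecidableEq Ω] [DecidableEq I]

/-- local data: `E` is a central `p'`-extension of a subgroup containing all `A(fibre)` -/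
structure Loc (X : Type) [Group X] (fib : Ω → I) (p : ℕ) where
  π : X →* Perm Ω
  E : Subgroup X
  nE : E.Normal
  cen : ∀ z ∈ E, π z = 1 → ∀ e ∈ E, z * e = e * z
  cop : ∀ z ∈ E, π z = 1 → ∃ k : ℕ, Nat.Coprime k p ∧ z ^ k = 1
  fibp : ∀ (g : X) a b, fib a = fib b → fib (π g a) = fib (π g b)
  three : ∀ a b c, D3 fib a b c → ∃ g ∈ E, π g = c3 a b c
  big : Big fib

section Mod
variable {X : Type} [Group X] (M : Type) [AddCommGroup M] [DistribMulAction X M]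

/-- fixed points of `g` -/
def Fix (g : X) : AddSubgroup M where
  carrier := {m | g • m = m}
  zero_mem' := smul_zero g
  add_mem' := fun {a b} ha hb => by
    change g • (a + b) = a + b
    rw [smul_add, show g • a = a from ha, show g • b = b from hb]
  neg_mem' := fun {a} ha => by
    change g • (-a) = -a
    rw [smul_neg, show g • a = a from ha]

/-- fixed points of a subgroup -/
def FixS (B : Subgroup X) : AddSubgroup M where
  carrier := {m | ∀ b ∈ B, b • m = m}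
  zero_mem' := fun b _ => smul_zero b
  add_mem' := fun {x y} hx hy b hb => by rw [smul_add, hx b hb, hy b hb]
  neg_mem' := fun {x} hx b hb => by rw [smul_neg, hx b hb]

/-- the commutator subgroup `[M, g]` -/
def cm (g : X) : AddSubgroup M where
  carrier := {w | ∃ m : M, w = g • m - m}
  zero_mem' := ⟨0, by simp⟩
  add_mem' := by
    rintro _ _ ⟨m, rfl⟩ ⟨m', rfl⟩
    exact ⟨m + m', by rw [smul_add]; abel⟩
  neg_mem' := by
    rintro _ ⟨m, rfl⟩
    exact ⟨-m, by rw [smul_neg]; abel⟩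

variable {M}

theorem mem_Fix {g : X} {m : M} : m ∈ Fix M g ↔ g • m = m := Iff.rfl
theorem mem_FixS {B : Subgroup X} {m : M} : m ∈ FixS M B ↔ ∀ b ∈ B, b • m = m := Iff.rfl
theorem mem_cm {g : X} {w : M} : w ∈ cm M g ↔ ∃ m : M, w = g • m - m := Iff.rfl

/-- elements centralising `S` -/
def Cen (X : Type) [Group X] [DistribMulAction X M] (S : AddSubgroup M) : Subgroup X where
  carrier := {g | ∀ m ∈ S, g • m = m}
  one_mem' := fun m _ => one_smul _ m
  mul_mem' := fun {a b} ha hb m hm => by rw [mul_smul, hb m hm, ha m hm]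
  inv_mem' := fun {a} ha m hm => by rw [inv_smul_eq_iff, ha m hm]

/-- elements centralising `M / S` -/
def DS (X : Type) [Group X] [DistribMulAction X M] (S : AddSubgroup M) : Subgroup X where
  carrier := {g | ∀ m : M, g • m - m ∈ S}
  one_mem' := fun m => by simp
  mul_mem' := fun {a b} ha hb m => by
    have := S.add_mem (ha (b • m)) (hb m)
    rwa [sub_add_sub_cancel, ← mul_smul] at this
  inv_mem' := fun {a} ha m => by
    have := S.neg_mem (ha (a⁻¹ • m))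
    rwa [smul_inv_smul, neg_sub] at this

theorem mem_Cen {S : AddSubgroup M} {g : X} : g ∈ Cen X S ↔ ∀ m ∈ S, g • m = m := Iff.rfl
theorem mem_DS {S : AddSubgroup M} {g : X} : g ∈ DS X S ↔ ∀ m : M, g • m - m ∈ S := Iff.rfl

/-- `k` maps `S` into itself -/
def Inv (k : X) (S : AddSubgroup M) : Prop := ∀ m ∈ S, k • m ∈ S

theorem Cen_conj {S : AddSubgroup M} {k g : X} (hk : Inv k⁻¹ S) (hg : g ∈ Cen X S) :
    k * g * k⁻¹ ∈ Cen X S := fun m hm => by
  rw [mul_smul, mul_smul, hg _ (hk m hm), smul_inv_smul]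

theorem DS_conj {S : AddSubgroup M} {k g : X} (hk : Inv k S) (hg : g ∈ DS X S) :
    k * g * k⁻¹ ∈ DS X S := fun m => by
  have := hk _ (hg (k⁻¹ • m))
  rwa [smul_sub, smul_inv_smul, ← mul_smul, ← mul_smul] at this

theorem inv_cm {k g : X} (h : k * g = g * k) : Inv k (cm M g) := by
  rintro _ ⟨m, rfl⟩
  exact ⟨k • m, by rw [smul_sub, ← mul_smul, h, mul_smul]⟩

theorem inv_Fix {k g : X} (h : k * g = g * k) : Inv k (Fix M g) := fun m hm => by
  rw [mem_Fix, ← mul_smul, ← h, mul_smul, show g • m = m from hm]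

theorem inv_FixS {k : X} {B : Subgroup X} (h : ∀ b ∈ B, k * b = b * k) : Inv k (FixS M B) :=
  fun m hm b hb => by rw [← mul_smul, ← h b hb, mul_smul, hm b hb]

/-- the index `|S : C_S(g)|` -/
noncomputable def rk (S : AddSubgroup M) (g : X) : ℕ := (Fix M g).relIndex S

variable [Finite M]

theorem loc_ne (C S : AddSubgroup M) : C.relIndex S ≠ 0 := AddSubgroup.index_ne_zero_of_finite

theorem loc_card_le {N : Type} [AddCommGroup N] (f : N →+ M) {S C : AddSubgroup M}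
    (h1 : ∀ n, f n ∈ S) (h2 : ∀ n, f n ∈ C → n = 0) : Nat.card N ≤ C.relIndex S := by
  refine Nat.card_le_card_of_injective
    ((QuotientAddGroup.mk' (C.addSubgroupOf S)).comp (f.codRestrict S h1)) ?_
  rw [injective_iff_map_eq_zero]
  intro n hn
  exact h2 n ((QuotientAddGroup.eq_zero_iff (N := C.addSubgroupOf S) (f.codRestrict S h1 n)).1 hn)

theorem loc_card {p : ℕ} (hpp : p.Prime) (hp : ∀ m : M, p • m = 0) :
    ∃ n : ℕ, Nat.card M = p ^ n := by
  refine ⟨_, Nat.eq_prime_pow_of_unique_prime_dvd Nat.card_pos.ne' fun {q} hq hd => ?_⟩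
  have : Fact q.Prime := ⟨hq⟩
  obtain ⟨x, hx⟩ := exists_prime_addOrderOf_dvd_card' q hd
  exact (Nat.prime_dvd_prime_iff_eq hq hpp).1 (hx ▸ addOrderOf_dvd_of_nsmul_eq_zero (hp x))

theorem rk_mul (S : AddSubgroup M) (g h : X) : rk S (g * h) ≤ rk S g * rk S h := by
  have h1 : Fix M g ⊓ Fix M h ≤ Fix M (g * h) := fun m hm => by
    rw [mem_Fix, mul_smul, show h • m = m from hm.2, show g • m = m from hm.1]
  exact (AddSubgroup.relIndex_le_of_le_left h1 (loc_ne _ _)).trans AddSubgroup.relIndex_inf_le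

theorem rk_inv (S : AddSubgroup M) (g : X) : rk S g⁻¹ = rk S g := by
  have : Fix M g⁻¹ = Fix M g := by
    ext m; rw [mem_Fix, mem_Fix, inv_smul_eq_iff, eq_comm]
  rw [rk, rk, this]

theorem rk_conj {S : AddSubgroup M} {k : X} (hk : Inv k S) (g : X) :
    rk S (k * g * k⁻¹) = rk S g := by
  have hi : Function.Injective (DistribSMul.toAddMonoidHom M k) := MulAction.injective k
  have h1 : (Fix M (k * g * k⁻¹)).comap (DistribSMul.toAddMonoidHom M k) = Fix M g := by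
    ext m
    change (k * g * k⁻¹) • k • m = k • m ↔ g • m = m
    rw [mul_smul, inv_smul_smul, mul_smul, smul_left_cancel_iff]
  have h2 : S.map (DistribSMul.toAddMonoidHom M k) = S := by
    refine AddSubgroup.eq_of_le_of_card_ge ?_ ?_
    · rintro _ ⟨m, hm, rfl⟩
      exact hk m hm
    · exact (Nat.card_congr (S.equivMapOfInjective _ hi).toEquiv).le
  rw [rk, rk, ← h1, AddSubgroup.relIndex_comap, h2]

theorem rk_le_card (S : AddSubgroup M) (g : X) : rk S g ≤ Nat.card S := by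
  exact Nat.le_of_dvd Nat.card_pos (AddSubgroup.relIndex_dvd_card _ _)

/-- Cop -/
theorem cop_zero {p k : ℕ} (hp : ∀ m : M, p • m = 0) (hk : Nat.Coprime k p) {g : X}
    (hg : ∀ m : M, g ^ k • m = m) {w : M} (hw : w ∈ cm M g) (h : g • w = w) : w = 0 := by
  obtain ⟨m, hm⟩ := hw
  have h1 : ∀ n : ℕ, g ^ n • m = m + n • w := by
    intro n
    induction n with
    | zero => simp
    | succ n ih =>
      rw [pow_succ', mul_smul, ih, smul_add, smul_comm, h, succ_nsmul, hm]; abel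
  have h2 : k • w = 0 := by
    have := h1 k
    rw [hg m] at this
    exact (left_eq_add.1 this)
  have h3 := Nat.dvd_gcd (addOrderOf_dvd_of_nsmul_eq_zero h2)
    (addOrderOf_dvd_of_nsmul_eq_zero (hp w))
  rw [hk, Nat.dvd_one] at h3
  exact AddMonoid.addOrderOf_eq_one_iff.1 h3

theorem card_cm_le {p k : ℕ} (hp : ∀ m : M, p • m = 0) (hk : Nat.Coprime k p) {g : X}
    (hg : ∀ m : M, g ^ k • m = m) {S : AddSubgroup M} (h : g ∈ DS X S) :
    Nat.card (cm M g) ≤ rk S g := by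
  refine loc_card_le (cm M g).subtype ?_ ?_
  · rintro ⟨_, m, rfl⟩
    exact h m
  · intro n hn
    exact Subtype.ext (cop_zero hp hk hg n.2 hn)

/-- R(r) -/
theorem R_fix {p r e j : ℕ} (hpp : p.Prime) (hr : r.Prime) (hp : ∀ m : M, p • m = 0)
    (he : ∀ i < e, 0 < i → p ^ i % r ≠ 1) (hpr : p ≠ r) {g : X} (hg : g ^ r ^ j = 1)
    {S : AddSubgroup M} (hS : Inv g S) (h : rk S g < p ^ e) : g ∈ Cen X S := by
  classical
  have : Fact r.Prime := ⟨hr⟩
  have : Fintype S := Fintype.ofFinite S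
  let f : Function.End S := fun m => ⟨g • (m : M), hS m m.2⟩
  have hf : ∀ (n : ℕ) (m : S), (((f ^ n) m : S) : M) = g ^ n • (m : M) := by
    intro n
    induction n with
    | zero => intro m; rw [pow_zero, pow_zero, one_smul]; rfl
    | succ n ih => intro m; rw [pow_succ, pow_succ, mul_smul]; exact ih (f m)
  have hf1 : f ^ r ^ j = 1 := funext fun m => Subtype.ext (by rw [hf, hg, one_smul]; rfl)
  have h1 := Equiv.Perm.card_fixedPoints_modEq hf1
  have h2 : Fintype.card (Function.fixedPoints f) = Nat.card ((Fix M g).addSubgroupOf S) := by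
    rw [← Nat.card_eq_fintype_card]
    exact Nat.card_congr (Equiv.subtypeEquivRight fun m => Subtype.ext_iff)
  have h3 := ((Fix M g).addSubgroupOf S).card_mul_index
  rw [h2, ← Nat.card_eq_fintype_card, ← h3] at h1
  have hc : Nat.card S ∣ Nat.card M := S.card_addSubgroup_dvd_card
  obtain ⟨n, hn⟩ := loc_card hpp hp
  rw [hn, ← h3] at hc
  obtain ⟨a, -, ha⟩ := (Nat.dvd_prime_pow hpp).1 ((Dvd.intro _ rfl).trans hc)
  obtain ⟨i, -, hi⟩ := (Nat.dvd_prime_pow hpp).1 ((Dvd.intro_left _ rfl).trans hc)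
  change rk S g = _ at hi
  change _ * rk S g ≡ _ [MOD r] at h1
  rw [ha, hi] at h1
  rw [hi] at h
  have hie : i < e := (Nat.pow_lt_pow_iff_right hpp.one_lt).1 h
  have hco : Nat.gcd r (p ^ a) = 1 :=
    Nat.Coprime.pow_right a ((Nat.coprime_primes hr hpp).2 hpr.symm)
  have h4 : p ^ i ≡ 1 [MOD r] := Nat.ModEq.cancel_left_of_coprime hco (by rwa [mul_one])
  have hi0 : i = 0 := by
    by_contra h0
    exact he i hie (Nat.pos_of_ne_zero h0) (Eq.trans h4 (Nat.mod_eq_of_lt hr.one_lt))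
  rw [hi0, pow_zero] at hi
  exact fun m hm => AddSubgroup.relIndex_eq_one.1 hi hm

/-- counting lemma -/
theorem card_le_relIndex {N : Type} [AddCommGroup N] (f : N →+ M) {S C : AddSubgroup M}
    (h1 : ∀ n, f n ∈ S) (h2 : ∀ n, f n ∈ C → n = 0) : Nat.card N ≤ C.relIndex S := by
  exact loc_card_le f h1 h2

end Mod

namespace Loc

variable {X : Type} [Group X] [Finite X] {fib : Ω → I} {p : ℕ} (L : Loc X fib p)

/-- the preimage of `A(F)` in `E` -/
def NH (F : Finset Ω) : Subgroup X := L.E ⊓ (AF F).comap L.π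

theorem mem_NH {F : Finset Ω} {g : X} : g ∈ L.NH F ↔ g ∈ L.E ∧ L.π g ∈ AF F := Iff.rfl

theorem lift {a : Ω} {F : Finset Ω} (hF : F ⊆ fbr fib a) {σ : Perm Ω} (h : σ ∈ AF F) :
    ∃ g ∈ L.NH F, L.π g = σ := by
  have : AF F ≤ (L.NH F).map L.π := AF_le fun x hx y hy z hz h1 h2 h3 => by
    obtain ⟨g, hg, e⟩ := L.three x y z ⟨h1, h2, h3,
      (mem_fbr.1 (hF hy)).trans (mem_fbr.1 (hF hx)).symm,
      (mem_fbr.1 (hF hz)).trans (mem_fbr.1 (hF hx)).symm⟩
    exact ⟨g, ⟨hg, show L.π g ∈ AF F from e ▸ c3_mem_AF h1 h3 hx hy hz⟩, e⟩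
  exact this h

/-- NC in `X` -/
theorem NC' {a : Ω} {F : Finset Ω} (hF : F ⊆ fbr fib a) (h5 : 5 ≤ F.card) {D : Subgroup X}
    (hn : ∀ k ∈ L.NH F, ∀ g ∈ D, k * g * k⁻¹ ∈ D) {g : X} (hg : g ∈ D) {α : Ω} (hα : α ∈ F)
    (hm : L.π g α ≠ α) (hi : (∀ x ∈ F, L.π g x ∈ F) ∨ (∀ x ∈ F, L.π g x ∉ F))
    {σ : Perm Ω} (hσ : σ ∈ AF F) : ∃ d ∈ D, d ∈ L.E ∧ L.π d = σ := by
  obtain ⟨β, hβ, h1⟩ := exists_notMem (F := F) [α, (L.π g)⁻¹ α] (by simp; omega)
  obtain ⟨γ, hγ, h2⟩ := exists_notMem (F := F) [α, (L.π g)⁻¹ α, β] (by simp; omega)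
  simp only [List.mem_cons, List.not_mem_nil, not_or, or_false] at h1 h2
  have he : c3 α β γ ∈ AF F := c3_mem_AF (Ne.symm h1.1) (Ne.symm h2.2.2) hα hβ hγ
  obtain ⟨k, hk, ek⟩ := L.lift hF he
  have hu : g * k * g⁻¹ * k⁻¹ ∈ D ⊓ L.E := Subgroup.mem_inf.2 ⟨by
    have := D.mul_mem hg (hn k hk _ (D.inv_mem hg))
    simpa only [mul_assoc] using this, L.E.mul_mem (L.nE.conj_mem k hk.1 g) (L.E.inv_mem hk.1)⟩
  have eu : L.π (g * k * g⁻¹ * k⁻¹) =
      c3 (L.π g α) (L.π g β) (L.π g γ) * (c3 α β γ)⁻¹ := by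
    rw [map_mul, map_mul, map_mul, map_inv, map_inv, ek, c3_conj]
  have n1 : L.π g β ≠ α := fun e => h1.2 (by rw [← e]; simp)
  have n2 : L.π g γ ≠ α := fun e => h2.2.1 (by rw [← e]; simp)
  have key : AF F ≤ (D ⊓ L.E).map L.π := by
    refine NC h5 ?_ ⟨_, hu, rfl⟩ hα ?_ (Or.inl ?_)
    · rintro x hx y hy z hz e1 e2 e3 _ ⟨d, hd, rfl⟩
      obtain ⟨k', hk', ek'⟩ := L.lift hF (c3_mem_AF e1 e3 hx hy hz)
      exact ⟨k' * d * k'⁻¹, ⟨hn k' hk' d hd.1, L.nE.conj_mem d hd.2 k'⟩, by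
        rw [map_mul, map_mul, map_inv, ek']⟩
    · rw [eu, Perm.mul_apply]
      intro e
      have e1 : (c3 α β γ)⁻¹ α = γ := by rw [Perm.inv_eq_iff_eq, c3_c]
      rw [e1] at e
      exact h2.1 ((c3 _ _ _).injective (e.trans (c3_ne hm.symm n1.symm n2.symm).symm))
    · intro x hx
      rw [eu, Perm.mul_apply]
      have hx' := AF_maps ((AF F).inv_mem he) hx
      rcases hi with hi | hi
      · exact AF_maps (c3_mem_AF ((L.π g).injective.ne (Ne.symm h1.1))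
          ((L.π g).injective.ne (Ne.symm h2.2.2)) (hi _ hα) (hi _ hβ) (hi _ hγ)) hx'
      · have := fun y hy => ne_of_mem_of_not_mem hx' (hi y hy)
        rwa [c3_ne (this _ hα) (this _ hβ) (this _ hγ)]
  obtain ⟨d, hd, e⟩ := key hσ
  exact ⟨d, hd.1, hd.2, e⟩

/-- Comm -/
theorem comm {a : Ω} {F : Finset Ω} (hF : F ⊆ fbr fib a) (h5 : 5 ≤ F.card) {c g : X}
    (hc : c ∈ L.E) (hfix : ∀ x ∈ F, L.π c x = x) (hg : g ∈ L.NH F) : c * g = g * c := by
  have hz : ∀ k ∈ L.NH F, ∃ z, (∀ e ∈ L.E, z * e = e * z) ∧ k * c = z * (c * k) := fun k hk =>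
    ⟨k * c * (c * k)⁻¹, L.cen _ (L.E.mul_mem (L.E.mul_mem hk.1 hc)
      (L.E.inv_mem (L.E.mul_mem hc hk.1))) (by
        rw [map_mul, map_inv, map_mul, map_mul, comm_of_fix hk.2 hfix, mul_inv_cancel]), by group⟩
  obtain ⟨α, hα, -⟩ := exists_notMem (F := F) [] (by rw [List.length_nil]; omega)
  obtain ⟨β, hβ, h1⟩ := exists_notMem (F := F) [α] (by simp; omega)
  obtain ⟨γ, hγ, h2⟩ := exists_notMem (F := F) [α, β] (by simp; omega)
  obtain ⟨δ, hδ, h3⟩ := exists_notMem (F := F) [α, β, γ] (by simp; omega)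
  obtain ⟨ε, hε, h4⟩ := exists_notMem (F := F) [α, β, γ, δ] (by simp; omega)
  simp only [List.mem_cons, List.not_mem_nil, not_or, or_false] at h1 h2 h3 h4
  obtain ⟨k1, hk1, e1⟩ := L.lift hF (c3_mem_AF (Ne.symm h1) (Ne.symm h2.2) hα hβ hγ)
  obtain ⟨k2, hk2, e2⟩ := L.lift hF (c3_mem_AF (Ne.symm h3.1) (Ne.symm h4.2.2.2) hα hδ hε)
  have hu : (k2 * k1)⁻¹ * (k1 * k2) ∈ L.NH F := (L.NH F).mul_mem
    ((L.NH F).inv_mem ((L.NH F).mul_mem hk2 hk1)) ((L.NH F).mul_mem hk1 hk2)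
  obtain ⟨d, hd, -, ed⟩ := L.NC' hF h5 (D := L.E ⊓ Subgroup.centralizer {c})
    (g := (k2 * k1)⁻¹ * (k1 * k2)) (α := α) (σ := L.π g) (fun k hk d hd => ⟨L.nE.conj_mem d hd.1 k, by
      obtain ⟨z, z1, z2⟩ := hz k hk
      have e : d * c = c * d := Subgroup.mem_centralizer_singleton_iff.1 hd.2
      refine Subgroup.mem_centralizer_singleton_iff.2 ?_
      have z3 := z1 _ (L.nE.conj_mem d hd.1 k)
      have z4 : c = z⁻¹ * (k * c * k⁻¹) := by rw [z2]; group
      have z5 : k * d * k⁻¹ * z⁻¹ = z⁻¹ * (k * d * k⁻¹) := by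
        rw [mul_inv_eq_iff_eq_mul, mul_assoc z⁻¹, ← z3]; group
      calc k * d * k⁻¹ * c = k * d * k⁻¹ * (z⁻¹ * (k * c * k⁻¹)) := by rw [← z4]
        _ = z⁻¹ * (k * (d * c) * k⁻¹) := by rw [← mul_assoc, z5]; group
        _ = z⁻¹ * (k * c * k⁻¹) * (k * d * k⁻¹) := by rw [e]; group
        _ = c * (k * d * k⁻¹) := by rw [← z4]⟩)
    ⟨hu.1, by
      obtain ⟨z, z1, z2⟩ := hz k1 hk1
      obtain ⟨w, w1, w2⟩ := hz k2 hk2
      refine Subgroup.mem_centralizer_singleton_iff.2 ?_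
      have a1 : k1 * k2 * c = w * (k1 * c) * k2 := by
        rw [mul_assoc, w2, ← mul_assoc, ← w1 k1 hk1.1]; group
      have a2 : k2 * k1 * c = z * (k2 * c) * k1 := by
        rw [mul_assoc, z2, ← mul_assoc, ← z1 k2 hk2.1]; group
      have a3 : z * w = w * z := by
        have : w = k2 * c * (c * k2)⁻¹ := by rw [w2]; group
        exact z1 w (this ▸ L.E.mul_mem (L.E.mul_mem hk2.1 hc) (L.E.inv_mem (L.E.mul_mem hc hk2.1)))
      rw [z2] at a1
      rw [w2] at a2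
      have a4 : (k2 * k1)⁻¹ * (z * w) * c = c * (k2 * k1)⁻¹ := by
        rw [eq_mul_inv_iff_mul_eq, mul_assoc, mul_assoc, inv_mul_eq_iff_eq_mul, a2]; group
      calc (k2 * k1)⁻¹ * (k1 * k2) * c = (k2 * k1)⁻¹ * (w * z) * c * (k1 * k2) := by
            rw [mul_assoc, a1]; group
        _ = c * ((k2 * k1)⁻¹ * (k1 * k2)) := by rw [← a3, a4]; group⟩ hα (by
      rw [map_mul, map_inv, Perm.mul_apply, Ne, Perm.inv_eq_iff_eq, map_mul, map_mul, e1, e2,
        Perm.mul_apply, Perm.mul_apply, c3_a (Ne.symm h1) (Ne.symm h2.1),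
        c3_a (Ne.symm h3.1) (Ne.symm h4.1), c3_ne h3.1 h3.2.1 h3.2.2,
        c3_ne h1 (Ne.symm h3.2.1) (Ne.symm h4.2.1)]
      exact h3.2.1) (Or.inl fun x hx => AF_maps hu.2 hx) hg.2
  have e : d * c = c * d := Subgroup.mem_centralizer_singleton_iff.1 hd.2
  have y := L.cen (d⁻¹ * g) (L.E.mul_mem (L.E.inv_mem hd.1) hg.1)
    (by rw [map_mul, map_inv, ed, inv_mul_cancel]) c hc
  calc c * g = c * d * (d⁻¹ * g) := by group
    _ = d * (d⁻¹ * g * c) := by rw [← e, y]; group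
    _ = g * c := by group

theorem exists_rpow {a : Ω} {F : Finset Ω} (hF : F ⊆ fbr fib a) {r : ℕ} (hr : r.Prime)
    (h2 : r ≠ 2) (hc : r ≤ F.card) :
    ∃ g ∈ L.NH F, L.π g ≠ 1 ∧ ∃ j : ℕ, g ^ r ^ j = 1 := by
  obtain ⟨σ, hσ, h1, hr1⟩ := exists_order hr h2 hc
  obtain ⟨g, hg, e⟩ := L.lift hF hσ
  obtain ⟨j, m, hm, ho⟩ := Nat.exists_eq_pow_mul_and_not_dvd (orderOf_pos g).ne' r hr.ne_one
  refine ⟨g ^ m, (L.NH F).pow_mem hg m, fun h => h1 ?_, j, ?_⟩
  · rw [map_pow, e] at h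
    have := pow_gcd_eq_one.2 ⟨hr1, h⟩
    rwa [(Nat.Prime.coprime_iff_not_dvd hr).2 hm, pow_one] at this
  · rw [← pow_mul, mul_comm, ← ho, pow_orderOf_eq_one]

/-- a best quadratic offender -/
structure Off (M : Type) [AddCommGroup M] [DistribMulAction X M] (B : Subgroup X) : Prop where
  chr : ∀ m : M, p • m = 0
  faith : ∀ g : X, (∀ m : M, g • m = m) → L.π g = 1
  le : B ≤ L.E
  exp : ∀ b ∈ B, b ^ p = 1
  com : ∀ a ∈ B, ∀ b ∈ B, a * b = b * a
  quad : ∀ a ∈ B, ∀ b ∈ B, ∀ m : M, a • (b • m - m) = b • m - m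
  ne : B ≠ ⊥
  min : ∀ B0 ≤ B, (FixS M B).relIndex (FixS M B0) ≤ B0.relIndex B

variable {L} {M : Type} [AddCommGroup M] [DistribMulAction X M] [Finite M] {B : Subgroup X}

theorem exists_off {A : Subgroup X} (chr : ∀ m : M, p • m = 0)
    (faith : ∀ g : X, (∀ m : M, g • m = m) → L.π g = 1) (le : A ≤ L.E)
    (exp : ∀ b ∈ A, b ^ p = 1) (com : ∀ a ∈ A, ∀ b ∈ A, a * b = b * a)
    (quad : ∀ a ∈ A, ∀ b ∈ A, ∀ m : M, a • (b • m - m) = b • m - m) (ne : A ≠ ⊥)
    (h : Nat.card M ≤ Nat.card (FixS M A) * Nat.card A) : ∃ B ≤ A, L.Off M B := by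
  obtain ⟨B, ⟨hB, hne⟩, hmax⟩ := Set.exists_max_image {B : Subgroup X | B ≤ A ∧ B ≠ ⊥}
    (fun B => Nat.card (FixS M B) * Nat.card B) (Set.toFinite _) ⟨A, le_rfl, ne⟩
  refine ⟨B, hB, chr, faith, hB.trans le, fun b hb => exp b (hB hb),
    fun a ha b hb => com a (hB ha) b (hB hb), fun a ha b hb => quad a (hB ha) b (hB hb), hne,
    fun B0 h0 => ?_⟩
  have h1 : Nat.card (FixS M B0) * Nat.card B0 ≤ Nat.card (FixS M B) * Nat.card B := by
    by_cases hb : B0 = ⊥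
    · rw [hb, Subgroup.card_bot, mul_one]
      exact (AddSubgroup.card_le_card_addGroup _).trans (h.trans (hmax A ⟨le_rfl, ne⟩))
    · exact hmax B0 ⟨h0.trans hB, hb⟩
  have h2 : FixS M B ≤ FixS M B0 := fun m hm b hb => hm b (h0 hb)
  have h3 := ((FixS M B).addSubgroupOf (FixS M B0)).card_mul_index
  have h4 := (B0.subgroupOf B).card_mul_index
  rw [Nat.card_congr (AddSubgroup.addSubgroupOfEquivOfLe h2).toEquiv] at h3
  rw [Nat.card_congr (Subgroup.subgroupOfEquivOfLe h0).toEquiv] at h4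
  rw [← h3, ← h4, mul_right_comm, ← mul_assoc] at h1
  exact Nat.le_of_mul_le_mul_left h1 (Nat.mul_pos Nat.card_pos Nat.card_pos)

theorem Off.inj (h : L.Off M B) {b : X} (hb : b ∈ B) (h1 : L.π b = 1) : b = 1 := by
  obtain ⟨k, hk, e⟩ := L.cop b (h.le hb) h1
  have := pow_gcd_eq_one.2 ⟨e, h.exp b hb⟩
  rwa [hk, pow_one] at this

theorem Off.exists_moved (h : L.Off M B) : ∃ b ∈ B, ∃ α, L.π b α ≠ α := by
  by_contra hc
  push Not at hc
  exact h.ne (eq_bot_iff.2 fun b hb => h.inj hb (Equiv.ext (hc b hb)))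

theorem Off.le_DS (h : L.Off M B) {B0 : Subgroup X} (h0 : B0 ≤ B) : B ≤ DS X (FixS M B0) :=
  fun b hb m a ha => h.quad a (h0 ha) b hb m

theorem Off.rk_le (h : L.Off M B) {B0 : Subgroup X} (h0 : B0 ≤ B) {b : X} (hb : b ∈ B) :
    rk (FixS M B0) b ≤ B0.relIndex B := by
  exact (AddSubgroup.relIndex_le_of_le_left (show FixS M B ≤ Fix M b from fun m hm => hm b hb)
    (loc_ne _ _)).trans (h.min B0 h0)

/-- Loc: the fixed space of a subgroup fixing `F` pointwise is invariant under `N^(F)` -/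
theorem Off.inv (h : L.Off M B) {a : Ω} {F : Finset Ω} (hF : F ⊆ fbr fib a) (h5 : 5 ≤ F.card)
    {B0 : Subgroup X} (h0 : B0 ≤ B) (hf : B0 ≤ fixer L.π F) {k : X} (hk : k ∈ L.NH F) :
    Inv k (FixS M B0) :=
  inv_FixS fun _ hb => (L.comm hF h5 (h.le (h0 hb)) (hf hb) hk).symm

end Loc

end Pool.Agent.MP_1d62fe_al.W

end

-- part Odd
section

set_option autoImplicit false
set_option linter.unusedSectionVars false

namespace Pool.Agent.MP_1d62fe_al.W

open Equiv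

theorem Odd_conj_pow {R : Type} [Ring R] {u v d : R} (h1 : u * v = 1) (h2 : v * u = 1) (k : ℕ) :
    (u * d * v) ^ k = u * d ^ k * v := by
  induction k with
  | zero => simp [h1]
  | succ k ih =>
    rw [pow_succ, ih, pow_succ]
    calc u * d ^ k * v * (u * d * v) = u * d ^ k * (v * u) * d * v := by noncomm_ring
      _ = _ := by rw [h2]; noncomm_ring

theorem Odd_ring {R : Type} [Ring R] {p k : ℕ} (hpp : p.Prime) (h2 : p ≠ 2) (hp : (p : R) = 0)
    (hk : Nat.Coprime k p) {n d : R} (hn : n * n = 0) (hd : d ^ k = 1)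
    (c01 : Commute d ((1 + n) * d * (1 - n)))
    (c02 : Commute d ((1 + n) * ((1 + n) * d * (1 - n)) * (1 - n))) : n * d = d * n := by
  have hodd : Odd p := hpp.odd_of_ne_two h2
  have hk0 : 0 < k := Nat.pos_of_ne_zero fun e => by
    rw [e, Nat.coprime_zero_left] at hk
    exact hpp.one_lt.ne' hk
  have hj : 0 < k.totient := Nat.totient_pos.2 hk0
  have hq : p ^ k.totient % k = 1 % k := Nat.ModEq.pow_totient hk.symm
  generalize k.totient = j at hj hq
  have P1 : ∀ s : R, s ^ k = 1 → s ^ p ^ j = s := fun s hs => by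
    rw [pow_eq_pow_mod _ hs, hq, ← pow_eq_pow_mod _ hs, pow_one]
  have Padd : ∀ x y : R, Commute x y → x ^ p ^ j = x → y ^ p ^ j = y →
      (x + y) ^ p ^ j = x + y := fun x y h hx hy => by
    obtain ⟨r, hr⟩ := h.exists_add_pow_prime_pow_eq hpp j
    rw [hr, hx, hy, hp]; simp
  have Pneg : ∀ x : R, x ^ p ^ j = x → (-x) ^ p ^ j = -x := fun x hx => by
    rw [Odd.neg_pow hodd.pow, hx]
  have Pnil : ∀ x : R, x * x = 0 → x ^ p ^ j = x → x = 0 := fun x h hx => by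
    have : 2 ≤ p ^ j := hpp.two_le.trans (Nat.le_self_pow hj.ne' p)
    obtain ⟨c, hc⟩ := Nat.exists_eq_add_of_le this
    rw [← hx, hc, pow_add, pow_two, h, zero_mul]
  have uv : (1 + n) * (1 - n) = 1 := by
    have : (1 + n) * (1 - n) = 1 - n * n := by noncomm_ring
    rw [this, hn, sub_zero]
  have vu : (1 - n) * (1 + n) = 1 := by
    have : (1 - n) * (1 + n) = 1 - n * n := by noncomm_ring
    rw [this, hn, sub_zero]
  have hn' : ∀ x : R, n * (n * x) = 0 := fun x => by rw [← mul_assoc, hn, zero_mul]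
  have cj : ∀ x y : R, (1 + n) * (x * y) * (1 - n) =
      ((1 + n) * x * (1 - n)) * ((1 + n) * y * (1 - n)) := fun x y => by
    calc (1 + n) * (x * y) * (1 - n) = (1 + n) * x * 1 * y * (1 - n) := by noncomm_ring
      _ = (1 + n) * x * ((1 - n) * (1 + n)) * y * (1 - n) := by rw [vu]
      _ = _ := by simp only [mul_assoc]
  have H : ∀ d : R, d ^ k = 1 → Commute d ((1 + n) * d * (1 - n)) →
      Commute d ((1 + n) * ((1 + n) * d * (1 - n)) * (1 - n)) → n * d * n = 0 := by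
    intro d hd c01 c02
    have c12 : Commute ((1 + n) * d * (1 - n)) ((1 + n) * ((1 + n) * d * (1 - n)) * (1 - n)) := by
      unfold Commute SemiconjBy
      rw [← cj, ← cj, c01.eq]
    have e1 : ((1 + n) * d * (1 - n)) ^ k = 1 := by rw [Odd_conj_pow uv vu, hd, mul_one, uv]
    have e2 : ((1 + n) * ((1 + n) * d * (1 - n)) * (1 - n)) ^ k = 1 := by
      rw [Odd_conj_pow uv vu, e1, mul_one, uv]
    have et : (1 + n) * d * (1 - n) + (1 + n) * d * (1 - n) +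
        -((1 + n) * ((1 + n) * d * (1 - n)) * (1 - n)) + -d = n * d * n + n * d * n := by
      simp only [mul_add, add_mul, mul_sub, sub_mul, mul_one, one_mul, mul_assoc, hn, hn',
        mul_zero]
      abel
    generalize (1 + n) * ((1 + n) * d * (1 - n)) * (1 - n) = d2 at *
    generalize (1 + n) * d * (1 - n) = d1 at *
    have := Padd _ _ (((c01.symm.add_left c01.symm).add_left c02.symm.neg_left).neg_right)
      (Padd _ _ ((c12.add_left c12).neg_right) (Padd _ _ (Commute.refl d1) (P1 _ e1) (P1 _ e1))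
        (Pneg _ (P1 _ e2))) (Pneg _ (P1 _ hd))
    rw [et] at this
    have h0 := Pnil _ (by
      simp only [mul_add, add_mul, mul_assoc, hn', mul_zero, add_zero]) this
    obtain ⟨m, hm⟩ := hodd
    have h3 : (p : R) * (n * d * n) = 0 := by rw [hp, zero_mul]
    have h4 : (p : R) * (n * d * n) = (m : R) * (n * d * n + n * d * n) + n * d * n := by
      rw [hm]; push_cast; noncomm_ring
    rwa [h4, h0, mul_zero, zero_add] at h3
  have Y1 := H d hd c01 c02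
  have Y2 : n * (d * d) * n = 0 := by
    refine H (d * d) (by rw [← pow_two, ← pow_mul, mul_comm, pow_mul, hd, one_pow]) ?_ ?_
    · rw [cj]; exact (c01.mul_left c01).mul_right (c01.mul_left c01)
    · rw [cj d d, cj]; exact (c02.mul_left c02).mul_right (c02.mul_left c02)
  have e1 : ((1 + n) * d * (1 - n)) ^ k = 1 := by rw [Odd_conj_pow uv vu, hd, mul_one, uv]
  have et : (1 + n) * d * (1 - n) + -d = n * d - d * n - n * d * n := by noncomm_ring
  have := Padd _ _ c01.symm.neg_right (P1 _ e1) (Pneg _ (P1 _ hd))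
  rw [et, Y1, sub_zero] at this
  refine sub_eq_zero.1 (Pnil _ ?_ this)
  have : (n * d - d * n) * (n * d - d * n) =
      n * d * n * d - n * (d * d) * n - d * (n * n) * d + d * (n * d * n) := by noncomm_ring
  rw [this, Y1, Y2, hn]; simp

/-- Lemma Q -/
theorem lemmaQ {X M : Type} [Group X] [AddCommGroup M] [DistribMulAction X M] {p k : ℕ}
    (hpp : p.Prime) (h2 : p ≠ 2) (hp : ∀ m : M, p • m = 0) (hk : Nat.Coprime k p) {a δ : X}
    (ha : ∀ m : M, a • (a • m - m) = a • m - m) (hδ : ∀ m : M, δ ^ k • m = m)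
    (c01 : ∀ m : M, (δ * (a * δ * a⁻¹)) • m = ((a * δ * a⁻¹) * δ) • m)
    (c02 : ∀ m : M, (δ * (a ^ 2 * δ * (a ^ 2)⁻¹)) • m = ((a ^ 2 * δ * (a ^ 2)⁻¹) * δ) • m) :
    ∀ m : M, (a * δ) • m = (δ * a) • m := by
  let f : X →* AddMonoid.End M := DistribMulAction.toAddMonoidEnd X M
  have hf : ∀ (g : X) (m : M), f g m = g • m := fun _ _ => rfl
  have hp' : (p : AddMonoid.End M) = 0 := AddMonoidHom.ext fun m =>
    (AddMonoid.End.natCast_apply p m).trans (hp m)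
  obtain ⟨n, hn⟩ : ∃ n : AddMonoid.End M, f a = 1 + n := ⟨f a - 1, by abel⟩
  have hnn : n * n = 0 := by
    have e : n = f a - 1 := by rw [hn]; abel
    have e2 : f a * (f a - 1) = f a - 1 := AddMonoidHom.ext fun m => ha m
    rw [e, sub_mul, e2, one_mul, sub_self]
  have hi : f a⁻¹ = 1 - n := by
    have uv : (1 + n) * (1 - n) = 1 := by
      have : (1 + n) * (1 - n) = 1 - n * n := by noncomm_ring
      rw [this, hnn, sub_zero]
    calc f a⁻¹ = f a⁻¹ * ((1 + n) * (1 - n)) := by rw [uv, mul_one]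
      _ = 1 - n := by rw [← hn, ← mul_assoc, ← map_mul, inv_mul_cancel, map_one, one_mul]
  have e1 : f (a * δ * a⁻¹) = (1 + n) * f δ * (1 - n) := by rw [map_mul, map_mul, hn, hi]
  have e2 : f (a ^ 2 * δ * (a ^ 2)⁻¹) = (1 + n) * ((1 + n) * f δ * (1 - n)) * (1 - n) := by
    rw [show a ^ 2 * δ * (a ^ 2)⁻¹ = a * (a * δ * a⁻¹) * a⁻¹ by rw [pow_two]; group, map_mul, map_mul, e1, hn, hi]
  have key := Odd_ring hpp h2 hp' hk hnn (d := f δ)
    (by rw [← map_pow]; exact AddMonoidHom.ext fun m => hδ m)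
    (by
      rw [← e1]; unfold Commute SemiconjBy
      rw [← map_mul, ← map_mul]; exact AddMonoidHom.ext fun m => c01 m)
    (by
      rw [← e2]; unfold Commute SemiconjBy
      rw [← map_mul, ← map_mul]; exact AddMonoidHom.ext fun m => c02 m)
  intro m
  rw [← hf, ← hf, map_mul, map_mul, hn, add_mul, mul_add, key, one_mul, mul_one]

variable {Ω I : Type} [Fintype Ω] [DecidableEq Ω] [DecidableEq I]

theorem Odd_ai (σ : Perm Ω) (x : Ω) : σ (σ⁻¹ x) = x := by simp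

theorem Odd_dt (σ : Perm Ω) (a b c d : Ω) :
    σ * (swap a b * swap c d) * σ⁻¹ = swap (σ a) (σ b) * swap (σ c) (σ d) := by
  rw [swap_apply_apply, swap_apply_apply]; group

theorem Odd_ia (σ : Perm Ω) (x : Ω) : σ⁻¹ (σ x) = x := by simp

namespace Loc

variable {X : Type} [Group X] [Finite X] {fib : Ω → I} {p : ℕ} {L : Loc X fib p}
  {M : Type} [AddCommGroup M] [DistribMulAction X M] [Finite M] {B : Subgroup X}

theorem Odd_commQ (h : L.Off M B) (hpp : p.Prime) (h2 : p ≠ 2) {a δ : X} (ha : a ∈ B)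
    (hδ : δ ∈ L.E) (hsq : L.π δ * L.π δ = 1)
    (c01 : ∀ m : M, (δ * (a * δ * a⁻¹)) • m = ((a * δ * a⁻¹) * δ) • m)
    (c02 : ∀ m : M, (δ * (a ^ 2 * δ * (a ^ 2)⁻¹)) • m = ((a ^ 2 * δ * (a ^ 2)⁻¹) * δ) • m) :
    L.π a * L.π δ = L.π δ * L.π a := by
  obtain ⟨k, hk, e⟩ := L.cop (δ * δ) (L.E.mul_mem hδ hδ) (by rw [map_mul, hsq])
  have hk2 : Nat.Coprime (2 * k) p :=
    Nat.Coprime.mul_left ((Nat.coprime_primes Nat.prime_two hpp).2 h2.symm) hk
  have := lemmaQ hpp h2 h.chr hk2 (fun m => h.quad a ha a ha m)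
    (fun m => by rw [pow_mul, pow_two, e, one_smul]) c01 c02
  have h1 := h.faith ((δ * a)⁻¹ * (a * δ)) fun m => by rw [mul_smul, this, inv_smul_smul]
  rw [map_mul, map_inv, inv_mul_eq_one, map_mul, map_mul] at h1
  exact h1.symm

/-- an element of odd prime order is a power of its square -/
theorem Odd_pow_sq (hpp : p.Prime) (h2 : p ≠ 2) {a : X} (ha : a ^ p = 1) :
    ∃ n : ℕ, (a * a) ^ n = a := by
  obtain ⟨m, hm⟩ := hpp.odd_of_ne_two h2
  exact ⟨m + 1, by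
    rw [← pow_two, ← pow_mul, show 2 * (m + 1) = p + 1 by omega, pow_succ, ha, one_mul]⟩

/-- Q4 -/
theorem Off.Q4 (h : L.Off M B) (hpp : p.Prime) (h2 : p ≠ 2) {a : X} (ha : a ∈ B)
    (l : List Ω) (hl : l.length = 4) (hn : l.Nodup) {o : Ω} (hf : ∀ x ∈ l, fib x = fib o)
    (h1 : ∀ x ∈ l, L.π a x ∉ l) (h2' : ∀ x ∈ l, L.π a (L.π a x) ∉ l) : False := by
  obtain ⟨y, hy, hyl⟩ := L.big.avoid o
    (l ++ l.map (L.π a) ++ l.map fun x => L.π a (L.π a x)) (by simp [hl])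
  simp only [List.mem_append, List.mem_map, not_or, not_exists, not_and] at hyl
  obtain ⟨⟨y0, y1⟩, y2⟩ := hyl
  have hF : insert y l.toFinset ⊆ fbr fib o := fun x hx => by
    rcases Finset.mem_insert.1 hx with rfl | hx
    · exact mem_fbr.2 hy
    · exact mem_fbr.2 (hf x (List.mem_toFinset.1 hx))
  have h5 : 5 ≤ (insert y l.toFinset).card := by
    rw [Finset.card_insert_of_notMem (by simpa using y0), List.toFinset_card_of_nodup hn, hl]
  obtain ⟨x1, x2, x3, x4, rfl⟩ : ∃ x1 x2 x3 x4, l = [x1, x2, x3, x4] := by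
    match l, hl with
    | [x1, x2, x3, x4], _ => exact ⟨x1, x2, x3, x4, rfl⟩
  have hn' := hn
  simp only [List.nodup_cons, List.mem_cons, List.not_mem_nil, not_or] at hn'
  have hσ : swap x1 x2 * swap x3 x4 ∈ AF [x1, x2, x3, x4].toFinset :=
    dt_mem_AF hn'.1.1 hn'.2.2.1.1 (by simp) (by simp) (by simp) (by simp)
  obtain ⟨δ, hδ, e⟩ := L.lift hF (AF_mono (Finset.subset_insert _ _) hσ)
  have fixδ : ∀ x, x ∉ [x1, x2, x3, x4] → L.π δ x = x := fun x hx => by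
    rw [e]; exact hσ.1 x (by simpa using hx)
  have cc : ∀ g : X, (∀ x ∈ [x1, x2, x3, x4], L.π g x ∉ [x1, x2, x3, x4]) →
      (∀ x ∈ [x1, x2, x3, x4], L.π g x ≠ y) → δ * (g * δ * g⁻¹) = (g * δ * g⁻¹) * δ := by
    intro g g1 g2
    refine (L.comm hF h5 (L.nE.conj_mem δ hδ.1 g) (fun x hx => ?_) hδ).symm
    rw [map_mul, map_mul, map_inv, Perm.mul_apply, Perm.mul_apply, fixδ, Odd_ai]
    intro hc
    rcases Finset.mem_insert.1 hx with rfl | hx
    · exact g2 _ hc (Odd_ai _ _)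
    · have := g1 _ hc
      rw [Odd_ai] at this
      exact this (List.mem_toFinset.1 hx)
  have sq : ∀ x, L.π (a ^ 2) x = L.π a (L.π a x) := fun x => by rw [pow_two, map_mul]; rfl
  have key := Odd_commQ h hpp h2 ha hδ.1
    (by rw [e]; ext z; simp only [Perm.mul_apply, swap_apply_def, Perm.one_apply]; grind)
    (fun m => by rw [cc a h1 y1])
    (fun m => by rw [cc (a ^ 2) (fun x hx => sq x ▸ h2' x hx) (fun x hx => sq x ▸ y2 x hx)])
  have k1 := congrArg (fun σ : Perm Ω => σ x1) key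
  simp only [Perm.mul_apply] at k1
  rw [fixδ _ (h1 x1 (by simp)), e] at k1
  have k2 := (L.π a).injective k1
  rw [Perm.mul_apply, swap_apply_of_ne_of_ne hn'.1.2.1 hn'.1.2.2.1, swap_apply_left] at k2
  exact hn'.1.1 k2.symm

theorem Off.FP_odd (h : L.Off M B) (hpp : p.Prime) (h2 : p ≠ 2) {a : X} (ha : a ∈ B) :
    FP fib (L.π a) := by
  intro o
  by_contra hc
  have hc2 : fib (L.π a (L.π a o)) ≠ fib o := fun e => by
    obtain ⟨n, hn⟩ := Odd_pow_sq hpp h2 (h.exp a ha)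
    have : ∀ n : ℕ, fib (L.π ((a * a) ^ n) o) = fib o := fun n => by
      induction n with
      | zero => simp
      | succ n ih =>
        rw [pow_succ', map_mul, Perm.mul_apply, L.fibp _ _ _ ih, map_mul, Perm.mul_apply, e]
    exact hc (hn ▸ this n)
  obtain ⟨x2, f2, n2⟩ := L.big.avoid o [o] (by simp)
  obtain ⟨x3, f3, n3⟩ := L.big.avoid o [o, x2] (by simp)
  obtain ⟨x4, f4, n4⟩ := L.big.avoid o [o, x2, x3] (by simp)
  have hf : ∀ x ∈ [o, x2, x3, x4], fib x = fib o := by simp [f2, f3, f4]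
  refine h.Q4 hpp h2 ha [o, x2, x3, x4] rfl ?_ hf (fun x hx hm => ?_) (fun x hx hm => ?_)
  · simp only [List.nodup_cons, List.mem_cons, List.not_mem_nil, not_or, List.nodup_nil] at *
    grind
  · exact hc ((L.fibp a _ _ (hf x hx)).symm.trans (hf _ hm))
  · exact hc2 ((L.fibp a _ _ (L.fibp a _ _ (hf x hx))).symm.trans (hf _ hm))

theorem Off.five (h : L.Off M B) (hpp : p.Prime) (h5 : 5 ≤ p)
    (hS : SR fib fun σ => ∃ b ∈ B, L.π b = σ) : False := by
  have h2 : p ≠ 2 := by omega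
  obtain ⟨a, ha, o, ho⟩ := h.exists_moved
  have m1 : ∀ x, fib x = fib o → L.π a x ≠ x := fun x hx e =>
    ho (hS _ ⟨a, ha, rfl⟩ x o hx e)
  have m2 : ∀ x, fib x = fib o → L.π a (L.π a x) ≠ x := fun x hx e => by
    obtain ⟨n, hn⟩ := Odd_pow_sq hpp h2 (h.exp a ha)
    have : ∀ n : ℕ, L.π ((a * a) ^ n) x = x := fun n => by
      induction n with
      | zero => simp
      | succ n ih => rw [pow_succ', map_mul, Perm.mul_apply, ih, map_mul, Perm.mul_apply, e]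
    exact m1 x hx (hn ▸ this n)
  have hQ := h.Q4 hpp h2 ha (o := o)
  generalize L.π a = σ at *
  let fb : Ω → List Ω := fun x => [x, σ x, σ (σ x), σ⁻¹ x, σ⁻¹ (σ⁻¹ x)]
  have hb : ∀ x y, y ∉ fb x → y ≠ x ∧ y ≠ σ x ∧ y ≠ σ (σ x) ∧ σ y ≠ x ∧ σ (σ y) ≠ x := by
    intro x y hy
    simp only [fb, List.mem_cons, List.not_mem_nil, not_or] at hy
    refine ⟨hy.1, hy.2.1, hy.2.2.1, fun e => hy.2.2.2.1 ?_, fun e => hy.2.2.2.2.1 ?_⟩
    · rw [← e, Odd_ia]
    · rw [← e, Odd_ia, Odd_ia]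
  obtain ⟨x2, f2, n2⟩ := L.big.avoid o (fb o) (by simp [fb])
  obtain ⟨x3, f3, n3⟩ := L.big.avoid o (fb o ++ fb x2) (by simp [fb])
  obtain ⟨x4, f4, n4⟩ := L.big.avoid o (fb o ++ fb x2 ++ fb x3) (by simp [fb])
  simp only [List.mem_append, not_or] at n3 n4
  have a1 := hb _ _ n2
  have a2 := hb _ _ n3.1
  have a3 := hb _ _ n3.2
  have a4 := hb _ _ n4.1.1
  have a5 := hb _ _ n4.1.2
  have a6 := hb _ _ n4.2
  have b1 := m1 _ f2
  have b2 := m1 _ f3
  have b3 := m1 _ f4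
  have c0 := m2 _ rfl
  have c1 := m2 _ f2
  have c2 := m2 _ f3
  have c3 := m2 _ f4
  refine hQ [o, x2, x3, x4] rfl ?_ (by simp [f2, f3, f4]) ?_ ?_
  · simp only [List.nodup_cons, List.mem_cons, List.not_mem_nil, not_or, List.nodup_nil]
    grind
  · simp only [List.mem_cons, List.not_mem_nil, not_or]
    grind
  · simp only [List.mem_cons, List.not_mem_nil, not_or]
    grind

/-- for `p = 3` an element of `B` moves at most nine points of a fibre -/
theorem Odd_nine {L : Loc X fib 3} (h : L.Off M B) {a : X} (ha : a ∈ B) (o : Ω) :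
    ((fbr fib o).filter fun x => L.π a x ≠ x).card ≤ 9 := by
  by_contra hc
  have hQ := h.Q4 Nat.prime_three (by decide) ha (o := o)
  have h3 : ∀ x, L.π a (L.π a (L.π a x)) = x := fun x => by
    have : L.π (a * (a * a)) = 1 := by rw [← pow_three, h.exp a ha, map_one]
    rw [map_mul, map_mul] at this
    exact congrArg (fun σ : Perm Ω => σ x) this
  generalize L.π a = σ at *
  generalize hF : (fbr fib o).filter (fun x => σ x ≠ x) = F at hc
  have hm : ∀ x ∈ F, fib x = fib o ∧ σ x ≠ x := fun x hx => by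
    rw [← hF, Finset.mem_filter, mem_fbr] at hx; exact hx
  obtain ⟨x1, f1, -⟩ := exists_notMem (F := F) [] (by rw [List.length_nil]; omega)
  obtain ⟨x2, f2, n2⟩ := exists_notMem (F := F) [x1, σ x1, σ (σ x1)] (by simp; omega)
  obtain ⟨x3, f3, n3⟩ := exists_notMem (F := F) [x1, σ x1, σ (σ x1), x2, σ x2, σ (σ x2)]
    (by simp; omega)
  obtain ⟨x4, f4, n4⟩ := exists_notMem (F := F)
    [x1, σ x1, σ (σ x1), x2, σ x2, σ (σ x2), x3, σ x3, σ (σ x3)] (by simp; omega)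
  simp only [List.mem_cons, List.not_mem_nil, not_or] at n2 n3 n4
  have a1 := hm _ f1
  have a2 := hm _ f2
  have a3 := hm _ f3
  have a4 := hm _ f4
  have key : ∀ x y, y ≠ x → y ≠ σ x → y ≠ σ (σ x) → σ y ≠ x ∧ σ (σ y) ≠ x := fun x y _ e2 e3 =>
    ⟨fun e => e3 (by rw [← e, h3]), fun e => e2 (by rw [← e, h3])⟩
  have key2 : ∀ x, σ x ≠ x → σ (σ x) ≠ x := fun x e1 e2 => e1 (by
    have := h3 x
    rwa [e2] at this)
  have b21 := key x1 x2 n2.1 n2.2.1 n2.2.2.1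
  have b31 := key x1 x3 n3.1 n3.2.1 n3.2.2.1
  have b32 := key x2 x3 n3.2.2.2.1 n3.2.2.2.2.1 n3.2.2.2.2.2.1
  have b41 := key x1 x4 n4.1 n4.2.1 n4.2.2.1
  have b42 := key x2 x4 n4.2.2.2.1 n4.2.2.2.2.1 n4.2.2.2.2.2.1
  have b43 := key x3 x4 n4.2.2.2.2.2.2.1 n4.2.2.2.2.2.2.2.1 n4.2.2.2.2.2.2.2.2.1
  have c1 := key2 _ a1.2
  have c2 := key2 _ a2.2
  have c3 := key2 _ a3.2
  have c4 := key2 _ a4.2
  refine hQ [x1, x2, x3, x4] rfl ?_ (by simp [a1.1, a2.1, a3.1, a4.1]) ?_ ?_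
  · simp only [List.nodup_cons, List.mem_cons, List.not_mem_nil, not_or, List.nodup_nil]
    grind
  · simp only [List.mem_cons, List.not_mem_nil, not_or]
    grind
  · simp only [List.mem_cons, List.not_mem_nil, not_or]
    grind

/-- the subgroup of index at most 27 fixing a fibre pointwise -/
theorem Odd_B1 {L : Loc X fib 3} (h : L.Off M B) : ∃ a ∈ B, ∃ o, L.π a o ≠ o ∧
    ∃ B1 ≤ B, B1 ≤ fixer L.π (fbr fib o) ∧ B1.relIndex B ≤ 27 := by
  obtain ⟨a0, ha0, o0, ho0⟩ := h.exists_moved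
  have hFP : ∀ b ∈ B, FP fib (L.π b) := fun b hb => h.FP_odd Nat.prime_three (by decide) hb
  obtain ⟨a, ha, hmax⟩ := Set.exists_max_image (B : Set X)
    (fun a => ((fbr fib o0).filter fun x => L.π a x ≠ x).card) (Set.toFinite _) ⟨a0, ha0⟩
  have h9 := Odd_nine h ha o0
  generalize hF : (fbr fib o0).filter (fun x => L.π a x ≠ x) = F at hmax h9
  have hm : ∀ x, x ∈ F ↔ fib x = fib o0 ∧ L.π a x ≠ x := fun x => by
    rw [← hF, Finset.mem_filter, mem_fbr]
  obtain ⟨o, ho⟩ : F.Nonempty := by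
    refine Finset.card_pos.1 (lt_of_lt_of_le (Finset.card_pos.2 ⟨o0, ?_⟩) (hmax a0 ha0))
    exact Finset.mem_filter.2 ⟨mem_fbr.2 rfl, ho0⟩
  have hinv : ∀ b ∈ B, ∀ x ∈ F, L.π b x ∈ F := fun b hb x hx => by
    refine (hm _).2 ⟨(hFP b hb x).trans ((hm x).1 hx).1, fun e => ((hm x).1 hx).2 ?_⟩
    rw [← Perm.mul_apply, ← map_mul, h.com a ha b hb, map_mul, Perm.mul_apply] at e
    exact (L.π b).injective e
  refine ⟨a, ha, o, ((hm o).1 ho).2, fixer L.π F ⊓ B, inf_le_right, fun b hb y hy => ?_, ?_⟩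
  · by_contra hby
    have hy' : fib y = fib o0 := (mem_fbr.1 hy).trans ((hm o).1 ho).1
    have hyF : y ∉ F := fun e => hby (hb.1 y e)
    have hbF : L.π b y ∉ F := fun e => hby ((L.π b).injective (hb.1 _ e))
    have hsub : insert y F ⊆ (fbr fib o0).filter fun x => L.π (a * b) x ≠ x := fun x hx => by
      rw [Finset.mem_filter, mem_fbr, map_mul, Perm.mul_apply]
      rcases Finset.mem_insert.1 hx with rfl | hx
      · refine ⟨hy', fun e => hby ?_⟩
        by_contra e2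
        refine hbF ((hm _).2 ⟨(hFP b hb.2 x).trans hy', fun e3 => e2 ?_⟩)
        rwa [e3] at e
      · rw [hb.1 x hx]; exact (hm x).1 hx
    have h1 := Finset.card_le_card hsub
    have h2 := hmax (a * b) (B.mul_mem ha hb.2)
    rw [Finset.card_insert_of_notMem hyF] at h1
    exact absurd (h1.trans h2) (by omega)
  · rw [Subgroup.inf_relIndex_right]
    refine (EA_bound L.π Nat.prime_three F B h.exp h.com hinv).trans ?_
    exact Nat.pow_le_pow_right (n := 3) (by decide) (show F.card / 3 ≤ 3 by omega)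

theorem Off.three {L : Loc X fib 3} (h : L.Off M B) : False := by
  obtain ⟨a, ha, o, ho, B1, h1, hfix, hidx⟩ := Odd_B1 h
  have hFP : FP fib (L.π a) := h.FP_odd Nat.prime_three (by decide) ha
  have a3 : a * (a * a) = 1 := by rw [← pow_three, h.exp a ha]
  have h3 : ∀ x, L.π a (L.π a (L.π a x)) = x := fun x => by
    have : L.π (a * (a * a)) = 1 := by rw [a3, map_one]
    rw [map_mul, map_mul] at this
    exact congrArg (fun σ : Perm Ω => σ x) this
  have hbig := L.big o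
  obtain ⟨z, hz, az⟩ : ∃ z, fib z = fib o ∧ L.π a z = z := by
    by_contra hc
    push Not at hc
    have := Odd_nine h ha o
    rw [Finset.filter_true_of_mem fun x hx => hc x (mem_fbr.1 hx)] at this
    omega
  obtain ⟨x1, e1⟩ : ∃ x1, L.π a o = x1 := ⟨_, rfl⟩
  obtain ⟨x2, e2⟩ : ∃ x2, L.π a x1 = x2 := ⟨_, rfl⟩
  have e3 : L.π a x2 = o := by rw [← e2, ← e1, h3]
  have f1 : fib x1 = fib o := e1 ▸ hFP o
  have f2 : fib x2 = fib o := (e2 ▸ hFP x1 :).trans f1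
  have d01 : o ≠ x1 := fun e => ho (e1.trans e.symm)
  have d12 : x1 ≠ x2 := fun e => d01 ((L.π a).injective (by rw [e1, e2, e]))
  have d02 : o ≠ x2 := fun e => d01 (by rw [← e] at e3; exact e3.symm.trans e1)
  have d0z : o ≠ z := fun e => ho (e ▸ az)
  have d1z : x1 ≠ z := fun e => d12 (by rw [← e2, e, az])
  have d2z : x2 ≠ z := fun e => d02 (by rw [← e3, e, az])
  have m0 : o ∈ fbr fib o := mem_fbr.2 rfl
  have m1 : x1 ∈ fbr fib o := mem_fbr.2 f1
  have m2 : x2 ∈ fbr fib o := mem_fbr.2 f2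
  have mz : z ∈ fbr fib o := mem_fbr.2 hz
  have hF : fbr fib o ⊆ fbr fib o := subset_rfl
  have h5 : 5 ≤ (fbr fib o).card := by omega
  obtain ⟨k, hk, ek⟩ := L.lift hF (dt_mem_AF d01 d2z m0 m1 m2 mz)
  have hS : ∀ k ∈ L.NH (fbr fib o), Inv k (FixS M B1) := fun k hk => h.inv hF h5 h1 hfix hk
  have aD : a ∈ DS X (FixS M B1) := h.le_DS h1 ha
  have ark : rk (FixS M B1) a ≤ 27 := (h.rk_le h1 ha).trans hidx
  generalize FixS M B1 = S at hS aD ark
  obtain ⟨g, hg⟩ : ∃ g, g = a⁻¹ * (k * a * k⁻¹) := ⟨_, rfl⟩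
  have gE : g ∈ L.E := hg ▸ L.E.mul_mem (L.E.inv_mem (h.le ha)) (L.nE.conj_mem a (h.le ha) k)
  have gD : g ∈ DS X S := hg ▸ (DS X S).mul_mem ((DS X S).inv_mem aD) (DS_conj (hS k hk) aD)
  have grk : rk S g ≤ 27 * 27 := by
    rw [hg]
    refine (rk_mul S _ _).trans ?_
    rw [rk_inv, rk_conj (hS k hk)]
    exact Nat.mul_le_mul ark ark
  have πg : L.π g = swap o z * swap x1 x2 := by
    have i0 : (L.π a)⁻¹ o = x2 := by rw [← e3, Odd_ia]
    have i1 : (L.π a)⁻¹ x1 = o := by rw [← e1, Odd_ia]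
    have i2 : (L.π a)⁻¹ x2 = x1 := by rw [← e2, Odd_ia]
    have iz : (L.π a)⁻¹ z = z := by rw [Perm.inv_eq_iff_eq, az]
    have : (L.π a)⁻¹ * (swap o x1 * swap x2 z) * L.π a = swap x2 o * swap x1 z := by
      have := Odd_dt (L.π a)⁻¹ o x1 x2 z
      rwa [i0, i1, i2, iz, inv_inv] at this
    rw [hg, show a⁻¹ * (k * a * k⁻¹) = a⁻¹ * k * a * k⁻¹ by group, map_mul, map_mul, map_mul,
      map_inv, map_inv, ek, this, mul_inv_eq_iff_eq_mul]
    ext w; simp only [Perm.mul_apply, swap_apply_def]; grind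
  obtain ⟨g1, hg1⟩ : ∃ g1, g1 = a * g * a⁻¹ := ⟨_, rfl⟩
  have g1E : g1 ∈ L.E := hg1 ▸ L.nE.conj_mem g gE a
  have g1D : g1 ∈ DS X S := hg1 ▸ (DS X S).mul_mem ((DS X S).mul_mem aD gD) ((DS X S).inv_mem aD)
  have πg1 : L.π g1 = swap x1 z * swap x2 o := by
    rw [hg1, map_mul, map_mul, map_inv, πg, Odd_dt, e1, e2, e3, az]
  have g1N : g1 ∈ L.NH (fbr fib o) := ⟨g1E, by
    change L.π g1 ∈ AF _
    rw [πg1]; exact dt_mem_AF d1z d02.symm m1 mz m2 m0⟩
  obtain ⟨ζ, hζ⟩ : ∃ ζ, ζ = g * (g1 * g⁻¹ * g1⁻¹) := ⟨_, rfl⟩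
  have ζE : ζ ∈ L.E := hζ ▸ L.E.mul_mem gE (L.nE.conj_mem _ (L.E.inv_mem gE) g1)
  have ζD : ζ ∈ DS X S :=
    hζ ▸ (DS X S).mul_mem gD (DS_conj (hS g1 g1N) ((DS X S).inv_mem gD))
  have ζrk : rk S ζ ≤ 27 * 27 * (27 * 27) := by
    rw [hζ]
    refine (rk_mul S _ _).trans ?_
    rw [rk_conj (hS g1 g1N), rk_inv]
    exact Nat.mul_le_mul grk grk
  have πζ : L.π ζ = 1 := by
    have : L.π g * L.π g1 = L.π g1 * L.π g := by
      rw [πg, πg1]; ext w; simp only [Perm.mul_apply, swap_apply_def]; grind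
    rw [hζ, map_mul, map_mul, map_mul, map_inv, map_inv, ← mul_assoc, ← mul_assoc, this]
    group
  obtain ⟨c, hc, ec⟩ := L.cop ζ ζE πζ
  have ec' : ∀ m : M, ζ ^ c • m = m := fun m => by rw [ec, one_smul]
  have hU : Nat.card (cm M ζ) ≤ 27 * 27 * (27 * 27) := (card_cm_le h.chr hc ec' ζD).trans ζrk
  have UE : ∀ e ∈ L.E, Inv e (cm M ζ) := fun e he => inv_cm (L.cen ζ ζE πζ e he).symm
  obtain ⟨r, hr, r1, j, rj⟩ := L.exists_rpow hF (r := 17) (by norm_num) (by decide) hbig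
  have rC : r ∈ Cen X (cm M ζ) :=
    R_fix (e := 16) Nat.prime_three (by norm_num) h.chr (by decide) (by decide) rj (UE r hr.1)
      (((rk_le_card _ _).trans hU).trans_lt (by norm_num))
  obtain ⟨α, hα⟩ : ∃ α, L.π r α ≠ α := by
    by_contra hc
    push Not at hc
    exact r1 (Equiv.ext hc)
  have hαF : α ∈ fbr fib o := by
    by_contra hc
    exact hα (hr.2.1 α hc)
  obtain ⟨d, dC, dE, πd⟩ := L.NC' hF h5 (D := Cen X (cm M ζ))
    (fun k hk g hg => Cen_conj (UE _ (L.E.inv_mem hk.1)) hg) rC hαF hα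
    (Or.inl fun x hx => AF_maps hr.2 hx) (dt_mem_AF d0z d12 m0 mz m1 m2)
  have ζC : ζ ∈ Cen X (cm M ζ) := by
    have hz := L.cen (d⁻¹ * g) (L.E.mul_mem (L.E.inv_mem dE) gE)
      (by rw [map_mul, map_inv, πd, πg, inv_mul_cancel]) g1 g1E
    have : ζ = d * (g1 * d⁻¹ * g1⁻¹) := by
      calc ζ = d * (d⁻¹ * g * g1) * g⁻¹ * g1⁻¹ := by rw [hζ]; group
        _ = _ := by rw [hz]; group
    have e := (Cen X (cm M ζ)).mul_mem dC
      (Cen_conj (UE _ (L.E.inv_mem g1E)) ((Cen X (cm M ζ)).inv_mem dC))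
    rwa [← this] at e
  have ζ1 : ∀ m : M, ζ • m = m := fun m =>
    sub_eq_zero.1 (cop_zero h.chr hc ec' ⟨m, rfl⟩ (ζC _ ⟨m, rfl⟩))
  have c01 : ∀ m : M, (g * g1) • m = (g1 * g) • m := fun m => by
    rw [show g * g1 = ζ * (g1 * g) by rw [hζ]; group, mul_smul, ζ1]
  have key := Odd_commQ h Nat.prime_three (by decide) ha gE
    (by rw [πg]; ext w; simp only [Perm.mul_apply, swap_apply_def, Perm.one_apply]; grind)
    (fun m => hg1 ▸ c01 m) (fun m => by
      have ai : a ^ 2 = a⁻¹ := by rw [eq_inv_iff_mul_eq_one, ← pow_succ, h.exp a ha]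
      have := congrArg (fun w => a⁻¹ • w) (c01 (a • m))
      simp only [← mul_smul] at this
      rw [ai, show g * (a⁻¹ * g * a⁻¹⁻¹) = a⁻¹ * (g1 * g * a) by rw [hg1]; group,
        show a⁻¹ * g * a⁻¹⁻¹ * g = a⁻¹ * (g * g1 * a) by rw [hg1]; group, this])
  have k1 := congrArg (fun σ : Perm Ω => σ o) key
  simp only [πg, Perm.mul_apply, e1] at k1
  rw [swap_apply_of_ne_of_ne d01 d02, swap_apply_left, az, swap_apply_left,
    swap_apply_of_ne_of_ne d02.symm d2z] at k1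
  exact d2z k1.symm

end Loc

end Pool.Agent.MP_1d62fe_al.W

end

-- part Two1
section

set_option autoImplicit false
set_option linter.unusedSectionVars false

namespace Pool.Agent.MP_1d62fe_al.W

open Equiv

variable {Ω I : Type} [Fintype Ω] [DecidableEq Ω] [DecidableEq I]

namespace Loc

variable {X : Type} [Group X] [Finite X] {fib : Ω → I} (L : Loc X fib 2)

/-- canonical lifts of 3-cycles -/
def IsLift (g : X) (σ : Perm Ω) : Prop := g ∈ L.E ∧ L.π g = σ ∧ ∃ h ∈ L.E, h * g * h⁻¹ = g⁻¹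

theorem Two1_sq {z : X} (hz : z ∈ L.E) (h1 : L.π z = 1) (h : z * z = 1) : z = 1 := by
  obtain ⟨k, hk, e⟩ := L.cop z hz h1
  have := pow_gcd_eq_one.2 ⟨e, (pow_two z).trans h⟩
  rwa [hk, pow_one] at this

theorem Two1_sqrt {z : X} (hz : z ∈ L.E) (h1 : L.π z = 1) :
    ∃ w ∈ L.E, L.π w = 1 ∧ w * w = z := by
  obtain ⟨k, hk, e⟩ := L.cop z hz h1
  obtain ⟨m, rfl⟩ := Nat.coprime_two_right.1 hk
  refine ⟨z ^ (m + 1), L.E.pow_mem hz _, by rw [map_pow, h1, one_pow], ?_⟩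
  rw [← pow_add, show m + 1 + (m + 1) = 2 * m + 1 + 1 by ring, pow_succ, e, one_mul]

/-- an element of `E` over a double transposition avoiding the points of `l` in its second factor -/
theorem Two1_dt {a b : Ω} (hab : a ≠ b) (hf : fib b = fib a) (l : List Ω) (hl : l.length ≤ 13) :
    ∃ h ∈ L.E, L.π h a = b ∧ L.π h b = a ∧ ∀ x ∈ l, x ≠ a → x ≠ b → L.π h x = x := by
  obtain ⟨u, hu, hu'⟩ := L.big.avoid a (a :: b :: l) (by simp; omega)
  obtain ⟨v, hv, hv'⟩ := L.big.avoid a (u :: a :: b :: l) (by simp; omega)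
  simp only [List.mem_cons, not_or] at hu' hv'
  obtain ⟨h, hh, e⟩ := L.lift (a := a) (Finset.Subset.refl _)
    (dt_mem_AF hab (Ne.symm hv'.1) (mem_fbr.2 rfl) (mem_fbr.2 hf) (mem_fbr.2 hu) (mem_fbr.2 hv))
  refine ⟨h, hh.1, ?_, ?_, fun x hx h1 h2 => ?_⟩
  · rw [e, Perm.mul_apply, swap_apply_of_ne_of_ne (Ne.symm hu'.1) (Ne.symm hv'.2.1),
      swap_apply_left]
  · rw [e, Perm.mul_apply, swap_apply_of_ne_of_ne (Ne.symm hu'.2.1) (Ne.symm hv'.2.2.1),
      swap_apply_right]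
  · have e1 : x ≠ u := fun h => hu'.2.2 (h ▸ hx)
    have e2 : x ≠ v := fun h => hv'.2.2.2 (h ▸ hx)
    rw [e, Perm.mul_apply, swap_apply_of_ne_of_ne e1 e2, swap_apply_of_ne_of_ne h1 h2]

theorem Two1_fix {a b c : Ω} (h : D3 fib a b c) {g d y : X} (hg : g ∈ L.E)
    (eg : L.π g = c3 a b c) (hd : d ∈ L.E) (hy : y ∈ L.E) (ey : L.π y = 1)
    (e : d * g * d⁻¹ = g * y) (ha : L.π d a = a) : y = 1 := by
  have cm : ∀ x, L.π d (c3 a b c x) = c3 a b c (L.π d x) := fun x => by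
    have h1 := congrArg L.π (mul_inv_eq_iff_eq_mul.1 e)
    simp only [map_mul, eg, ey, mul_one] at h1
    exact congrArg (fun σ : Perm Ω => σ x) h1
  have hb : L.π d b = b := by
    have := cm a
    rwa [ha, c3_a h.ab h.ac] at this
  have hc : L.π d c = c := by
    have := cm b
    rwa [hb, c3_b h.ac h.bc] at this
  have hinv : ∀ x, L.π d x ∈ fbr fib a ↔ x ∈ fbr fib a := fun x => by
    rw [mem_fbr, mem_fbr]
    refine ⟨fun h1 => ?_, fun h1 => by rw [L.fibp d _ _ h1, ha]⟩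
    have h2 := L.fibp d⁻¹ _ _ (h1.trans (congrArg fib ha.symm))
    simpa using h2
  set τ : Perm Ω := Perm.ofSubtype ((L.π d).subtypePerm hinv) with hτ
  have t1 : ∀ x ∈ fbr fib a, τ x = L.π d x := fun x hx => by
    rw [hτ, Perm.ofSubtype_subtypePerm_of_mem hinv hx]
  have t2 : ∀ x, x ∉ fbr fib a → τ x = x := fun x hx => Perm.ofSubtype_apply_of_not_mem _ hx
  set F := (fbr fib a).filter fun x => x ∉ [a, b, c] with hF
  have hFs : F ⊆ fbr fib a := Finset.filter_subset _ _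
  have h5 : 5 ≤ F.card := by
    have h1 := card_filter_notMem (fbr fib a) [a, b, c]
    have h2 := L.big a
    rw [← hF] at h1
    simp only [List.length_cons, List.length_nil] at h1
    omega
  have hA : τ * τ ∈ AF F := by
    refine ⟨fun x hx => ?_, by rw [map_mul, Int.units_mul_self]⟩
    have : τ x = x := by
      by_cases h1 : x ∈ fbr fib a
      · have h2 : x ∈ [a, b, c] := by
          by_contra h2
          exact hx (Finset.mem_filter.2 ⟨h1, h2⟩)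
        rw [t1 x h1]
        simp only [List.mem_cons, List.not_mem_nil, or_false] at h2
        rcases h2 with rfl | rfl | rfl <;> assumption
      · exact t2 x h1
    rw [Perm.mul_apply, this, this]
  obtain ⟨k, hk, ek⟩ := L.lift hFs hA
  have c1 : g * k = k * g := L.comm hFs h5 hg (fun x hx => by
    have h2 := (Finset.mem_filter.1 hx).2
    simp only [List.mem_cons, List.not_mem_nil, not_or] at h2
    rw [eg, c3_ne h2.1 h2.2.1 h2.2.2.1]) hk
  have c2 : k⁻¹ * (d * d) * g = g * (k⁻¹ * (d * d)) := by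
    refine L.comm (a := a) (Finset.Subset.refl _) (by have := L.big a; omega)
      (L.E.mul_mem (L.E.inv_mem hk.1) (L.E.mul_mem hd hd)) (fun x hx => ?_) ⟨hg, ?_⟩
    · rw [map_mul, map_inv, Perm.mul_apply, Perm.inv_eq_iff_eq, ek, map_mul, Perm.mul_apply,
        Perm.mul_apply, t1 x hx, t1 _ ((hinv x).2 hx)]
    · change L.π g ∈ AF _
      rw [eg]
      exact c3_mem_AF h.ab h.bc (mem_fbr.2 rfl) (mem_fbr.2 h.fb) (mem_fbr.2 h.fc)
  have c3' : d * d * g = g * (d * d) := by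
    calc d * d * g = k * (k⁻¹ * (d * d) * g) := by group
      _ = k * g * k⁻¹ * (d * d) := by rw [c2]; group
      _ = g * (d * d) := by rw [← c1]; group
  have yd := L.cen y hy ey d hd
  refine L.Two1_sq hy ey ?_
  have e1 : d * g = g * y * d := mul_inv_eq_iff_eq_mul.1 e
  have e2 : d * d * g = g * (y * y) * (d * d) := by
    calc d * d * g = d * (g * y * d) := by rw [mul_assoc, e1]
      _ = (d * g) * (y * d) := by group
      _ = g * y * (d * y) * d := by rw [e1]; group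
      _ = g * (y * y) * (d * d) := by rw [← yd]; group
  rw [c3'] at e2
  have e3 := mul_right_cancel e2
  exact (mul_eq_left.1 e3.symm)

theorem Two1_key {a b c : Ω} (h : D3 fib a b c) {g d y : X} (hg : g ∈ L.E)
    (eg : L.π g = c3 a b c) (hd : d ∈ L.E) (hy : y ∈ L.E) (ey : L.π y = 1)
    (e : d * g * d⁻¹ = g * y) : y = 1 := by
  have yg := L.cen y hy ey g hg
  have st : ∀ d : X, d * g * d⁻¹ = g * y → g * d * g * (g * d)⁻¹ = g * y := fun d e => by
    calc g * d * g * (g * d)⁻¹ = g * (d * g * d⁻¹) * g⁻¹ := by group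
      _ = g * (y * g) * g⁻¹ := by rw [e, yg]
      _ = g * y := by group
  have hm : L.π d a = a ∨ L.π d a = b ∨ L.π d a = c := by
    by_contra hc
    push Not at hc
    have h1 := congrArg L.π (mul_inv_eq_iff_eq_mul.1 e)
    simp only [map_mul, eg, ey, mul_one] at h1
    have h2 := congrArg (fun σ : Perm Ω => σ a) h1
    simp only [Perm.mul_apply] at h2
    rw [c3_a h.ab h.ac, c3_ne hc.1 hc.2.1 hc.2.2] at h2
    exact h.ab ((L.π d).injective h2).symm
  rcases hm with hm | hm | hm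
  · exact L.Two1_fix h hg eg hd hy ey e hm
  · refine L.Two1_fix h hg eg (L.E.mul_mem hg (L.E.mul_mem hg hd)) hy ey (st _ (st _ e)) ?_
    rw [map_mul, map_mul, Perm.mul_apply, Perm.mul_apply, hm, eg, c3_b h.ac h.bc, c3_c]
  · refine L.Two1_fix h hg eg (L.E.mul_mem hg hd) hy ey (st _ e) ?_
    rw [map_mul, Perm.mul_apply, hm, eg, c3_c]

theorem invE {g : X} (hg : g ∈ L.E) (h : L.π g * L.π g = 1) :
    ∃ k : ℕ, L.π (g ^ k) = L.π g ∧ g ^ k * g ^ k = 1 := by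
  obtain ⟨k, hk, e⟩ := L.cop (g * g) (L.E.mul_mem hg hg) (by rw [map_mul, h])
  obtain ⟨m, rfl⟩ := Nat.coprime_two_right.1 hk
  refine ⟨2 * m + 1, ?_, by rw [← (Commute.refl g).mul_pow, e]⟩
  rw [map_pow, pow_succ, pow_mul, pow_two, h, one_pow, one_mul]

theorem invU {t t' : X} (ht : t ∈ L.E) (ht' : t' ∈ L.E) (h1 : t * t = 1) (h2 : t' * t' = 1)
    (h : L.π t = L.π t') : t = t' := by
  have hz : t⁻¹ * t' ∈ L.E := L.E.mul_mem (L.E.inv_mem ht) ht'
  have ez : L.π (t⁻¹ * t') = 1 := by rw [map_mul, map_inv, h, inv_mul_cancel]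
  have c := L.cen _ hz ez t ht
  have : t⁻¹ * t' = 1 := by
    refine L.Two1_sq hz ez ?_
    have i1 : t⁻¹ = t := inv_eq_of_mul_eq_one_right h1
    calc t⁻¹ * t' * (t⁻¹ * t') = (t⁻¹ * t' * t) * t' := by rw [i1]; group
      _ = t' * t' := by rw [c]; group
      _ = 1 := h2
  exact inv_mul_eq_one.1 this

theorem exists_lift {a b c : Ω} (h : D3 fib a b c) : ∃ g, L.IsLift g (c3 a b c) := by
  obtain ⟨g, hg, eg⟩ := L.three a b c h
  obtain ⟨k, hk, e1, e2, e3⟩ := L.Two1_dt h.bc (h.fc.trans h.fb.symm) [a] (by simp)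
  have e4 := e3 a (by simp) h.ab h.ac
  have hz : (k * g * k⁻¹ * g)⁻¹ ∈ L.E :=
    L.E.inv_mem (L.E.mul_mem (L.nE.conj_mem g hg k) hg)
  have ez : L.π (k * g * k⁻¹ * g)⁻¹ = 1 := by
    rw [map_inv, inv_eq_one, map_mul, map_mul, map_mul, map_inv, eg, c3_conj, e1, e2, e4,
      ← c3_inv h.ab h.ac h.bc, inv_mul_cancel]
  obtain ⟨w, hw, ew, ww⟩ := L.Two1_sqrt hz ez
  refine ⟨g * w, L.E.mul_mem hg hw, by rw [map_mul, eg, ew, mul_one], k, hk, ?_⟩
  have c1 := L.cen w hw ew k⁻¹ (L.E.inv_mem hk)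
  have c2 := L.cen w hw ew g hg
  rw [eq_inv_iff_mul_eq_one]
  calc k * (g * w) * k⁻¹ * (g * w) = k * g * (w * k⁻¹) * g * w := by group
    _ = k * g * k⁻¹ * (w * g) * w := by rw [c1]; group
    _ = (k * g * k⁻¹ * g) * (w * w) := by rw [c2]; group
    _ = 1 := by rw [ww, mul_inv_cancel]

theorem lift_unique {a b c : Ω} (h : D3 fib a b c) {g g' : X} (h1 : L.IsLift g (c3 a b c))
    (h2 : L.IsLift g' (c3 a b c)) : g = g' := by
  obtain ⟨hg, eg, k, hk, ek⟩ := h1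
  obtain ⟨hg', eg', k', hk', ek'⟩ := h2
  obtain ⟨z, rfl⟩ : ∃ z, g' = g * z := ⟨g⁻¹ * g', by group⟩
  have hz : z ∈ L.E := (L.E.mul_mem_cancel_left hg).1 hg'
  have ez : L.π z = 1 := by
    rw [map_mul, eg] at eg'
    exact mul_eq_left.1 eg'
  have c1 := L.cen z hz ez k'⁻¹ (L.E.inv_mem hk')
  have hy : (z * z)⁻¹ ∈ L.E := L.E.inv_mem (L.E.mul_mem hz hz)
  have ey : L.π (z * z)⁻¹ = 1 := by rw [map_inv, map_mul, ez, mul_one, inv_one]
  have c2 := L.cen z⁻¹ (L.E.inv_mem hz) (by rw [map_inv, ez, inv_one]) g⁻¹ (L.E.inv_mem hg)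
  have c3' := L.cen _ hy ey k hk
  have e1 : k' * g * k'⁻¹ = g⁻¹ * (z * z)⁻¹ := by
    calc k' * g * k'⁻¹ = k' * g * (k'⁻¹ * z) * z⁻¹ := by group
      _ = (k' * (g * z) * k'⁻¹) * z⁻¹ := by rw [← c1]; group
      _ = (z⁻¹ * g⁻¹) * z⁻¹ := by rw [ek', mul_inv_rev]
      _ = g⁻¹ * (z * z)⁻¹ := by rw [c2]; group
  have e2 : k⁻¹ * k' * g * (k⁻¹ * k')⁻¹ = g * (z * z)⁻¹ := by
    calc k⁻¹ * k' * g * (k⁻¹ * k')⁻¹ = k⁻¹ * (k' * g * k'⁻¹) * k := by group
      _ = k⁻¹ * (k * g * k⁻¹) * ((z * z)⁻¹ * k) := by rw [e1, ek]; group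
      _ = g * (z * z)⁻¹ := by rw [c3']; group
  have e3 := L.Two1_key h hg eg (L.E.mul_mem (L.E.inv_mem hk) hk') hy ey e2
  rw [L.Two1_sq hz ez (inv_eq_one.1 e3), mul_one]

open Classical in
/-- the canonical lift of the 3-cycle `(a b c)` -/
noncomputable def T (a b c : Ω) : X :=
  if h : ∃ g, L.IsLift g (c3 a b c) then h.choose else 1

variable {L}

theorem T_lift {a b c : Ω} (h : D3 fib a b c) : L.IsLift (L.T a b c) (c3 a b c) := by
  rw [T, dif_pos (L.exists_lift h)]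
  exact (L.exists_lift h).choose_spec

theorem T_mem {a b c : Ω} (h : D3 fib a b c) : L.T a b c ∈ L.E := (T_lift h).1

theorem π_T {a b c : Ω} (h : D3 fib a b c) : L.π (L.T a b c) = c3 a b c := (T_lift h).2.1

theorem T_NH {a b c : Ω} (h : D3 fib a b c) {F : Finset Ω} (ha : a ∈ F) (hb : b ∈ F)
    (hc : c ∈ F) : L.T a b c ∈ L.NH F :=
  ⟨T_mem h, by
    change L.π _ ∈ AF F
    rw [π_T h]; exact c3_mem_AF h.ab h.bc ha hb hc⟩

theorem D3_map (x : X) {a b c : Ω} (h : D3 fib a b c) :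
    D3 fib (L.π x a) (L.π x b) (L.π x c) :=
  ⟨(L.π x).injective.ne h.ab, (L.π x).injective.ne h.ac, (L.π x).injective.ne h.bc,
    L.fibp x _ _ h.fb, L.fibp x _ _ h.fc⟩

theorem T_conj (x : X) {a b c : Ω} (h : D3 fib a b c) :
    x * L.T a b c * x⁻¹ = L.T (L.π x a) (L.π x b) (L.π x c) := by
  obtain ⟨hg, eg, k, hk, ek⟩ := T_lift (L := L) h
  refine L.lift_unique (D3_map x h) ⟨L.nE.conj_mem _ hg x, ?_, x * k * x⁻¹, L.nE.conj_mem _ hk x, ?_⟩
    (T_lift (D3_map x h))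
  · rw [map_mul, map_mul, map_inv, eg, c3_conj]
  · calc x * k * x⁻¹ * (x * L.T a b c * x⁻¹) * (x * k * x⁻¹)⁻¹
        = x * (k * L.T a b c * k⁻¹) * x⁻¹ := by group
      _ = (x * L.T a b c * x⁻¹)⁻¹ := by rw [ek]; group

theorem T_comm {x : X} {a b c : Ω} (h : D3 fib a b c) (ha : L.π x a = a) (hb : L.π x b = b)
    (hc : L.π x c = c) : x * L.T a b c = L.T a b c * x := by
  rw [← mul_inv_eq_iff_eq_mul, T_conj x h, ha, hb, hc]

theorem T_rot {a b c : Ω} (h : D3 fib a b c) : L.T a b c = L.T b c a := by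
  refine L.lift_unique h (T_lift h) ?_
  rw [c3_rot h.ab h.ac h.bc]
  exact T_lift ⟨h.bc, h.ab.symm, h.ac.symm, h.fc.trans h.fb.symm, h.fb.symm⟩

theorem T_inv {a b c : Ω} (h : D3 fib a b c) : (L.T a b c)⁻¹ = L.T a c b := by
  obtain ⟨hg, eg, k, hk, ek⟩ := T_lift (L := L) h
  have h' : D3 fib a c b := ⟨h.ac, h.ab, h.bc.symm, h.fc, h.fb⟩
  refine L.lift_unique h' ⟨L.E.inv_mem hg, ?_, k, hk, ?_⟩ (T_lift h')
  · rw [map_inv, eg, c3_inv h.ab h.ac h.bc]
  · calc k * (L.T a b c)⁻¹ * k⁻¹ = (k * L.T a b c * k⁻¹)⁻¹ := by group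
      _ = _ := by rw [ek]

theorem T_cube {a b c : Ω} (h : D3 fib a b c) : L.T a b c ^ 3 = 1 := by
  obtain ⟨hg, eg, k, hk, ek⟩ := T_lift (L := L) h
  have hz := L.E.pow_mem hg 3
  have ez : L.π (L.T a b c ^ 3) = 1 := by rw [map_pow, eg, c3_cube h.ab h.ac h.bc]
  refine L.Two1_sq hz ez ?_
  have cc := L.cen _ hz ez k hk
  have e : k * L.T a b c ^ 3 * k⁻¹ = (L.T a b c ^ 3)⁻¹ := by rw [← conj_pow, ek, inv_pow]
  rw [← cc, mul_inv_cancel_right] at e
  exact mul_eq_one_iff_eq_inv.2 e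

/-- Mul -/
theorem T_mul {a a' x y : Ω} (h : D3 fib a x y) (h' : D3 fib a' x y) (hne : a ≠ a') :
    L.T a' x y * (L.T a x y)⁻¹ = L.T a a' x := by
  have hf : fib a' = fib a := h'.fb.symm.trans h.fb
  have h3 : D3 fib a a' x := ⟨hne, h.ab, h'.ab, hf, h.fb⟩
  obtain ⟨k, hk, e1, e2, e3⟩ := L.Two1_dt hne hf [x, y] (by simp)
  have e4 := e3 x (by simp) h.ab.symm h'.ab.symm
  have e5 := e3 y (by simp) h.ac.symm h'.ac.symm
  have c1 := T_conj (L := L) k h
  have c2 := T_conj (L := L) k h'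
  rw [e1, e4, e5] at c1
  rw [e2, e4, e5] at c2
  refine L.lift_unique h3 ⟨L.E.mul_mem (T_mem h') (L.E.inv_mem (T_mem h)), ?_, k, hk, ?_⟩
    (T_lift h3)
  · rw [map_mul, map_inv, π_T h, π_T h', c3_mul]
    simp [hne, h.ab, h.ac, h.bc, h'.ab, h'.ac]
  · calc k * (L.T a' x y * (L.T a x y)⁻¹) * k⁻¹
        = (k * L.T a' x y * k⁻¹) * (k * L.T a x y * k⁻¹)⁻¹ := by group
      _ = _ := by rw [c1, c2]; group

/-- TT -/
theorem T_TT {a b c : Ω} (h : D3 fib a b c) {t u : X} (ht : t ∈ L.E) (hu : u ∈ L.E)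
    (h1 : t * t = 1) (h2 : u * u = 1) (e1 : L.π t = swap a b) (e2 : L.π u = swap b c) :
    t * u = L.T a b c := by
  refine L.lift_unique h ⟨L.E.mul_mem ht hu, by rw [map_mul, e1, e2, c3], t, ht, ?_⟩ (T_lift h)
  rw [← mul_assoc, h1, one_mul, mul_inv_rev, inv_eq_of_mul_eq_one_right h2]

/-- Tri -/
theorem T_tri {D : Subgroup X} {a b c x y : Ω} (h : D3 fib a b c) (ha : D3 fib a x y)
    (hb : D3 fib b x y) (hc : D3 fib c x y) (h1 : L.T a x y ∈ D) (h2 : L.T b x y ∈ D)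
    (h3 : L.T c x y ∈ D) : L.T a b c ∈ D := by
  have h4 : L.T a b x ∈ D := by
    rw [← T_mul ha hb h.ab]
    exact D.mul_mem h2 (D.inv_mem h1)
  have h5 : D3 fib a b x := ⟨h.ab, ha.ab, hb.ab, h.fb, ha.fb⟩
  have e := T_conj (L := L) (L.T c x y)⁻¹ h5
  rw [map_inv, π_T hc, c3_inv hc.ab hc.ac hc.bc, c3_ne h.ac ha.ac ha.ab, c3_ne h.bc hb.ac hb.ab,
    c3_c] at e
  rw [← e]
  exact D.mul_mem (D.mul_mem (D.inv_mem h3) h4) (D.inv_mem (D.inv_mem h3))

theorem Two1_D3 {o : Ω} {F : Finset Ω} (hF : F ⊆ fbr fib o) {a b c : Ω} (ha : a ∈ F) (hb : b ∈ F)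
    (hc : c ∈ F) (h1 : a ≠ b) (h2 : a ≠ c) (h3 : b ≠ c) : D3 fib a b c :=
  ⟨h1, h2, h3, (mem_fbr.1 (hF hb)).trans (mem_fbr.1 (hF ha)).symm,
    (mem_fbr.1 (hF hc)).trans (mem_fbr.1 (hF ha)).symm⟩

/-- NC2 -/
theorem NC2 {o : Ω} {F : Finset Ω} (hF : F ⊆ fbr fib o) (h5 : 5 ≤ F.card) {D : Subgroup X}
    (hn : ∀ a ∈ F, ∀ b ∈ F, ∀ c ∈ F, D3 fib a b c →
      ∀ g ∈ D, L.T a b c * g * (L.T a b c)⁻¹ ∈ D)
    {g : X} (hg : g ∈ D) {α : Ω} (hα : α ∈ F) (hm : L.π g α ≠ α)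
    (hi : (∀ x ∈ F, L.π g x ∈ F) ∨ (∀ x ∈ F, L.π g x ∉ F))
    {a b c : Ω} (ha : a ∈ F) (hb : b ∈ F) (hc : c ∈ F) (h : D3 fib a b c) : L.T a b c ∈ D := by
  have hA : AF F ≤ D.map L.π := by
    refine NC h5 (fun a ha b hb c hc h1 h2 h3 => ?_) (Subgroup.mem_map_of_mem L.π hg) hα hm hi
    rintro _ ⟨d, hd, rfl⟩
    have h' := Two1_D3 hF ha hb hc h1 h2 h3
    exact ⟨_, hn a ha b hb c hc h' d hd, by rw [map_mul, map_mul, map_inv, π_T h']⟩
  obtain ⟨u, hu, hu'⟩ := exists_notMem (F := F) [a, b, c] (by simp; omega)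
  obtain ⟨v, hv, hv'⟩ := exists_notMem (F := F) [u, a, b, c] (by simp; omega)
  simp only [List.mem_cons, List.not_mem_nil, not_or] at hu' hv'
  obtain ⟨d, hd, e⟩ := hA (dt_mem_AF h.bc (Ne.symm hv'.1) hb hc hu hv)
  have e1 := T_conj (L := L) d h
  rw [e, Perm.mul_apply, Perm.mul_apply, Perm.mul_apply,
    swap_apply_of_ne_of_ne (Ne.symm hu'.1) (Ne.symm hv'.2.1),
    swap_apply_of_ne_of_ne (Ne.symm hu'.2.1) (Ne.symm hv'.2.2.1),
    swap_apply_of_ne_of_ne (Ne.symm hu'.2.2.1) (Ne.symm hv'.2.2.2.1),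
    swap_apply_of_ne_of_ne h.ab h.ac, swap_apply_left, swap_apply_right, ← T_inv h] at e1
  have m := D.mul_mem hd (hn a ha b hb c hc h _ (D.inv_mem hd))
  have e2 : d * (L.T a b c * d⁻¹ * (L.T a b c)⁻¹) = L.T a b c := by
    calc d * (L.T a b c * d⁻¹ * (L.T a b c)⁻¹) = (d * L.T a b c * d⁻¹) * (L.T a b c)⁻¹ := by group
      _ = (L.T a b c ^ 3)⁻¹ * L.T a b c := by rw [e1]; group
      _ = L.T a b c := by rw [T_cube h, inv_one, one_mul]
  rwa [e2] at m

/-- a subgroup containing all `T(e)`, `e ⊆ F`, contains the involutions of `N^(F)` -/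
theorem inv_mem {o : Ω} {F : Finset Ω} (hF : F ⊆ fbr fib o) {D : Subgroup X}
    (hD : ∀ a ∈ F, ∀ b ∈ F, ∀ c ∈ F, D3 fib a b c → L.T a b c ∈ D) {t : X} (ht : t ∈ L.NH F)
    (h1 : t * t = 1) : t ∈ D := by
  have hA : AF F ≤ (D ⊓ L.E).map L.π := AF_le fun a ha b hb c hc h1 h2 h3 =>
    have h' := Two1_D3 hF ha hb hc h1 h2 h3
    ⟨_, ⟨hD a ha b hb c hc h', T_mem h'⟩, π_T h'⟩
  obtain ⟨d, ⟨hd, hd'⟩, e⟩ := hA ht.2
  obtain ⟨k, e1, e2⟩ := L.invE hd' (by rw [e, ← map_mul, h1, map_one])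
  rw [← L.invU (L.E.pow_mem hd' k) ht.1 e2 h1 (e1.trans e)]
  exact D.pow_mem hd k

end Loc

end Pool.Agent.MP_1d62fe_al.W

end
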