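import Pool.Agent.MP_1d62fe_al.Alt.B

attribute [-instance] MonTypeEquivalenceMon.monMonoid IsMulCommutative.is_comm littleWedderburn
  AddMonoidWithOne.toAddMonoid CommSemiring.toSemiring Ring.toSemiring
  instNoNatZeroDivisorsOfIsAddTorsionFree SemilatticeInf.toPartialOrder
  NonUnitalNonAssocSemiring.toAddCommMonoid CompletePartialOrder.toPartialOrder
  FiniteField.instGrindPowIdentity DivisionSemiring.toSemiring MonoidWithZero.toMulZeroOneClass
  CommRing.toGrindCommRing SemigroupWithZero.toSemigroup AddGroupWithOne.toAddGroup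
  UniformSpace.toTopologicalSpace RKHS.instFunLike DivisionCommMonoid.toDivisionMonoid
  NonUnitalRingHomClass.toMulHomClass MulZeroClass.toZero AddMonoidWithOne.toOne
  BooleanRing.instIdempotentOpHMul IdemSemiring.toSemiring NonUnitalRing.toNonUnitalNonAssocRing
  Ring.toGrindRing MonoidWithZero.toMonoid Ring.toAddCommGroup Algebra.toSMul
  NonAssocSemiring.toMulZeroOneClass Distrib.toAdd NonUnitalNonAssocRing.toAddCommGroup MulOne.toOne
  Field.toGrindField NonUnitalAlgSemiHomClass.toMulHomClass instIsLinearOrder_mathlib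
  CommSemiring.toGrindCommSemiring instSMulZeroClass SemilatticeSup.toPartialOrder
  OmegaCompletePartialOrder.toPartialOrder Group.IsPerfect.subsingleton_of_isMulCommutative
  AddCommMonoidWithOne.toAddCommMonoid Std.LinearPreorderPackage.toIsLinearPreorder
  TestFunctionClass.toDFunLike MulZeroClass.toMul ChainCompletePartialOrder.toPartialOrder
  ContDiffMapSupportedInClass.toDFunLike DivisionRing.toDivInvMonoid LieRing.toAddCommGroup
  Semiring.toMonoid Std.PreorderPackage.toLT LinearOrderedAddCommMonoidWithTop.toAddCommMonoid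
  Std.PreorderPackage.toLE NonUnitalSemiring.toNonUnitalNonAssocSemiring GroupWithZero.toDivInvMonoid
  GroupWithZero.toDivisionMonoid instTransOfIsTrans NonAssocSemiring.toNonUnitalNonAssocSemiring
  IsAddCyclic.isAddCommutative SeminormedAddCommGroup.toAddCommGroup
  NonUnitalNormedCommRing.toNonUnitalCommRing NormedAddCommGroup.toAddCommGroup
  ConditionallyCompleteLinearOrderBot.toConditionallyCompleteLinearOrder
  LinearOrderedAddCommGroupWithTop.toSubNegMonoid CompleteSemilatticeSup.toPartialOrder One.ofOfNat1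
  ConditionallyCompletePartialOrderInf.toPartialOrder CompleteSemilatticeInf.toPartialOrder
  LieAdmissibleRing.toNonUnitalNonAssocRing NonUnitalSeminormedCommRing.toNonUnitalCommRing
  NonUnitalNonAssocCommSemiring.toNonUnitalNonAssocSemiring
  Action.FintypeCat.instMulActionObjFiniteOf ESeminormedAddCommMonoid.toAddCommMonoid
  AddCommGroupWithOne.toAddCommGroup Std.LinearOrderPackage.toIsLinearOrder
  NonAssocRing.toNonUnitalNonAssocRing Torsor.toMulAction
  LinearOrderedAddCommGroupWithTop.toAddCommMonoid instCoeOTCOfCoeTC Semiring.toAddCommMonoid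
  Action.instMulAction

-- part Four
section

set_option autoImplicit false
set_option linter.unusedSectionVars false

namespace Pool.Agent.MP_1d62fe_al.W

open Equiv

variable {Ω I : Type} [Fintype Ω] [DecidableEq Ω] [DecidableEq I]

namespace Loc

variable {X : Type} [Group X] [Finite X] {fib : Ω → I} {L : Loc X fib 2}

variable {M : Type} [AddCommGroup M] [DistribMulAction X M] [Finite M] {B : Subgroup X}

/-- disjoint canonical lifts commute -/
theorem four_TT {x y z u v w : Ω} (h : D3 fib x y z) (h' : D3 fib u v w)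
    (h1 : x ∉ [u, v, w]) (h2 : y ∉ [u, v, w]) (h3 : z ∉ [u, v, w]) :
    L.T u v w * L.T x y z = L.T x y z * L.T u v w := by
  simp only [List.mem_cons, List.not_mem_nil, not_or] at h1 h2 h3
  refine T_comm h ?_ ?_ ?_
  · rw [π_T h']; exact c3_ne h1.1 h1.2.1 h1.2.2.1
  · rw [π_T h']; exact c3_ne h2.1 h2.2.1 h2.2.2.1
  · rw [π_T h']; exact c3_ne h3.1 h3.2.1 h3.2.2.1

/-- the product of a lift and its conjugate commutes with `a` -/
theorem four_phi {a g : X} (ha : a * a = 1) (h : a * g * a⁻¹ * g = g * (a * g * a⁻¹)) :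
    g * (a * g * a⁻¹) * a = a * (g * (a * g * a⁻¹)) := by
  have hi : a⁻¹ = a := inv_eq_of_mul_eq_one_right ha
  rw [← h, hi]
  calc a * g * a * g * a = a * (g * (a * g * a)) := by group
    _ = a * (g * (a * g * a⁻¹)) := by rw [hi]
    _ = a * (a * g * a⁻¹ * g) := by rw [h]
    _ = a * (a * g * a * g) := by rw [hi]

theorem four_fix (chr : ∀ m : M, 2 • m = 0) {x y : X} (hc : x * y = y * x) (h3 : y ^ 3 = 1)
    (h : ∀ w ∈ cm M (x * y), x • w = y • w) {m : M} (hm : x • m = m) : y • m = m := by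
  have e1 : (x * y) • m = y • m := by rw [hc, mul_smul, hm]
  have e2 := h _ ⟨m, rfl⟩
  rw [e1] at e2
  have e3 : x • (y • m - m) = y • m - m := by rw [smul_sub, ← mul_smul, e1, hm]
  have := cop_zero (p := 2) (k := 3) chr (by norm_num) (g := y) (fun m => by rw [h3, one_smul])
    (w := y • m - m) ⟨m, rfl⟩ (e2.symm.trans e3)
  exact sub_eq_zero.1 this

theorem Off.four_core (h : L.Off M B) {a : X} (ha : a ∈ B) {α β x : Ω}
    (hm : ∀ z, fib z = fib α → L.π a z ≠ z) (hd : D3 fib α β x)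
    (n1 : L.π a α ≠ β) (n2 : L.π a α ≠ x) (n3 : L.π a β ≠ x)
    (hδ : L.T α β x * (a * L.T α β x * a⁻¹) ∈ Cen X (cm M a)) : False := by
  have haa : a * a = 1 := by have := h.exp a ha; rwa [pow_two] at this
  have hs : ∀ z, L.π a (L.π a z) = z := fun z => by
    rw [← Perm.mul_apply, ← map_mul, haa, map_one, Perm.one_apply]
  have m1 := hm α rfl
  have m2 := hm β hd.fb
  have m3 := hm x hd.fc
  have hd' := D3_map (L := L) a hd
  have hab := hd.ab
  have hax := hd.ac
  have hbx := hd.bc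
  have Q0 := And.intro (And.intro (And.intro m1 (And.intro m2 m3)) (And.intro n1 (And.intro n2 n3)))
    (And.intro (hs α) (And.intro (hs β) (hs x)))
  have ey : a * L.T α β x * a⁻¹ = L.T (L.π a α) (L.π a β) (L.π a x) := T_conj a hd
  have o1 : α ∉ [L.π a α, L.π a β, L.π a x] := by
    simp only [List.mem_cons, List.not_mem_nil, not_or]; clear * - Q0; grind
  have o2 : β ∉ [L.π a α, L.π a β, L.π a x] := by
    simp only [List.mem_cons, List.not_mem_nil, not_or]; clear * - Q0; grind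
  have o3 : x ∉ [L.π a α, L.π a β, L.π a x] := by
    simp only [List.mem_cons, List.not_mem_nil, not_or]; clear * - Q0; grind
  have hxy : a * L.T α β x * a⁻¹ * L.T α β x = L.T α β x * (a * L.T α β x * a⁻¹) := by
    rw [ey]; exact four_TT hd hd' o1 o2 o3
  have hδa := four_phi haa hxy
  have x3 : L.T α β x ^ 3 = 1 := T_cube hd
  have y3 : (a * L.T α β x * a⁻¹) ^ 3 = 1 := by rw [ey]; exact T_cube hd'
  generalize hx0 : L.T α β x = x0 at *
  generalize hy0 : a * x0 * a⁻¹ = y0 at *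
  -- `a` centralises `W`
  have aW : ∀ w ∈ cm M (x0 * y0), a • w = w := by
    rintro _ ⟨m, rfl⟩
    have := hδ _ ⟨m, rfl⟩
    rw [smul_sub, ← mul_smul, hδa, mul_smul] at this
    rw [smul_sub]
    have e : a • (x0 * y0) • m = a • m - m + (x0 * y0) • m := by rw [← this]; abel
    rw [e]; abel
  have gW : ∀ g : X, g * (x0 * y0) = x0 * y0 * g → ∀ w ∈ cm M (x0 * y0),
      (a * g * a⁻¹) • w = g • w := fun g hg w hw => by
    rw [mul_smul, mul_smul, inv_smul_eq_iff.2 (aW w hw).symm, aW _ (inv_cm hg w hw)]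
  have xyW : ∀ w ∈ cm M (x0 * y0), x0 • w = y0 • w := fun w hw => by
    rw [← hy0] at hw ⊢
    rw [hy0] at hw
    exact (gW x0 (by rw [mul_assoc, hxy]) w hw).symm
  have fxy : ∀ m : M, x0 • m = m → y0 • m = m := fun m hm =>
    four_fix h.chr hxy.symm y3 xyW hm
  have fyx : ∀ m : M, y0 • m = m → x0 • m = m := fun m hm =>
    four_fix h.chr hxy x3 (fun w hw => (xyW w (by rwa [hxy] at hw)).symm) hm
  -- five further points
  obtain ⟨p1, f1, q1⟩ := L.big.avoid α [α, β, x, L.π a α, L.π a β, L.π a x] (by simp)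
  obtain ⟨p2, f2, q2⟩ := L.big.avoid α [α, β, x, L.π a α, L.π a β, L.π a x, p1, L.π a p1]
    (by simp)
  obtain ⟨p3, f3, q3⟩ := L.big.avoid α [α, β, x, L.π a α, L.π a β, L.π a x, p1, L.π a p1, p2,
    L.π a p2] (by simp)
  obtain ⟨p4, f4, q4⟩ := L.big.avoid α [α, β, x, L.π a α, L.π a β, L.π a x, p1, L.π a p1, p2,
    L.π a p2, p3, L.π a p3] (by simp)
  obtain ⟨p5, f5, q5⟩ := L.big.avoid α [α, β, x, L.π a α, L.π a β, L.π a x, p1, L.π a p1, p2,
    L.π a p2, p3, L.π a p3, p4, L.π a p4] (by simp)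
  simp only [List.mem_cons, List.not_mem_nil, not_or] at q1 q2 q3 q4 q5
  have g1 := hm p1 f1
  have g2 := hm p2 f2
  have g3 := hm p3 f3
  have g4 := hm p4 f4
  have g5 := hm p5 f5
  have Q := And.intro (And.intro (And.intro q1 q2) (And.intro q3 (And.intro q4 q5)))
    (And.intro (And.intro (And.intro g1 g2) (And.intro g3 (And.intro g4 g5)))
      (And.intro (And.intro (And.intro (hs p1) (hs p2)) (And.intro (hs p3) (And.intro (hs p4) (hs p5))))
        (And.intro (And.intro f1 f2) (And.intro f3 (And.intro f4 f5)))))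
  have d123 : D3 fib p1 p2 p3 := ⟨by clear * - Q; grind, by clear * - Q; grind, by clear * - Q; grind, by clear * - Q; grind, by clear * - Q; grind⟩
  have d345 : D3 fib p3 p4 p5 := ⟨by clear * - Q; grind, by clear * - Q; grind, by clear * - Q; grind, by clear * - Q; grind, by clear * - Q; grind⟩
  have d145 : D3 fib p1 p4 p5 := ⟨by clear * - Q; grind, by clear * - Q; grind, by clear * - Q; grind, by clear * - Q; grind, by clear * - Q; grind⟩
  have d314 : D3 fib p3 p1 p4 := ⟨by clear * - Q; grind, by clear * - Q; grind, by clear * - Q; grind, by clear * - Q; grind, by clear * - Q; grind⟩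
  have cδ : ∀ u v w : Ω, D3 fib u v w → α ∉ [u, v, w] → β ∉ [u, v, w] → x ∉ [u, v, w] →
      L.π a α ∉ [u, v, w] → L.π a β ∉ [u, v, w] → L.π a x ∉ [u, v, w] →
      L.T u v w * (x0 * y0) = x0 * y0 * L.T u v w := fun u v w d a1 a2 a3 a4 a5 a6 => by
    have e1 := four_TT (L := L) hd d a1 a2 a3
    have e2 := four_TT (L := L) hd' d a4 a5 a6
    rw [hx0] at e1
    rw [← ey] at e2
    rw [← mul_assoc, e1, mul_assoc, e2, mul_assoc]
  have c1 : L.T p1 p2 p3 * (x0 * y0) = x0 * y0 * L.T p1 p2 p3 := by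
    apply cδ _ _ _ d123 <;> simp only [List.mem_cons, List.not_mem_nil, not_or] <;> clear * - Q <;> grind
  have c2 : L.T p3 p4 p5 * (x0 * y0) = x0 * y0 * L.T p3 p4 p5 := by
    apply cδ _ _ _ d345 <;> simp only [List.mem_cons, List.not_mem_nil, not_or] <;> clear * - Q <;> grind
  have c3' : (a * L.T p3 p4 p5 * a⁻¹) * L.T p1 p2 p3 = L.T p1 p2 p3 * (a * L.T p3 p4 p5 * a⁻¹) := by
    rw [T_conj a d345]
    apply four_TT d123 (D3_map a d345) <;>
      simp only [List.mem_cons, List.not_mem_nil, not_or] <;> clear * - Q <;> grind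
  have e314 : L.T p3 p1 p4 = L.T p1 p2 p3 * L.T p3 p4 p5 * (L.T p1 p2 p3)⁻¹ * (L.T p3 p4 p5)⁻¹ := by
    rw [T_conj _ d345, π_T d123, c3_c, c3_ne (by clear * - Q; grind) (by clear * - Q; grind) (by clear * - Q; grind),
      c3_ne (by clear * - Q; grind) (by clear * - Q; grind) (by clear * - Q; grind), T_mul d345 d145 (by clear * - Q; grind)]
  have tW : ∀ w ∈ cm M (x0 * y0), L.T p3 p1 p4 • w = w := fun w hw => by
    rw [e314]
    generalize L.T p1 p2 p3 = g at *
    generalize L.T p3 p4 p5 = k at *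
    have i1 : g⁻¹ * (x0 * y0) = x0 * y0 * g⁻¹ := by
      rw [inv_mul_eq_iff_eq_mul, ← mul_assoc, c1, mul_inv_cancel_right]
    have i2 : k⁻¹ * (x0 * y0) = x0 * y0 * k⁻¹ := by
      rw [inv_mul_eq_iff_eq_mul, ← mul_assoc, c2, mul_inv_cancel_right]
    have w1 := inv_cm i2 w hw
    have w2 := inv_cm i1 _ w1
    rw [mul_smul, mul_smul, mul_smul, ← gW k c2 _ w2, ← mul_smul g, ← c3', mul_smul,
      smul_inv_smul, gW k c2 _ w1, smul_inv_smul]
  -- transport
  obtain ⟨F, hF1, hF2⟩ : ∃ F : Finset Ω, (fbr fib α).card ≤ F.card + 3 ∧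
      ∀ z, z ∈ F ↔ z ∈ fbr fib α ∧ z ∉ [L.π a α, L.π a β, L.π a x] :=
    ⟨_, card_filter_notMem (fbr fib α) [L.π a α, L.π a β, L.π a x], fun z => Finset.mem_filter⟩
  have hFc : 14 ≤ F.card := by
    have := L.big α
    omega
  have mF : ∀ z, fib z = fib α → z ∉ [L.π a α, L.π a β, L.π a x] → z ∈ F := fun z h1 h2 =>
    (hF2 z).2 ⟨mem_fbr.2 h1, h2⟩
  obtain ⟨σ, hσ, eσ⟩ := trans_list (F := F) [α, β, x] [p3, p1, p4]
    (by simp only [List.nodup_cons, List.mem_cons, List.not_mem_nil, not_or, List.nodup_nil]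
        clear * - hab hax hbx; grind)
    (by simp only [List.nodup_cons, List.mem_cons, List.not_mem_nil, not_or, List.nodup_nil]
        clear * - Q; grind)
    rfl
    (by
      intro z hz
      simp only [List.mem_cons, List.not_mem_nil, or_false] at hz
      rcases hz with rfl | rfl | rfl
      · exact mF _ rfl o1
      · exact mF _ hd.fb o2
      · exact mF _ hd.fc o3)
    (by
      intro z hz
      simp only [List.mem_cons, List.not_mem_nil, or_false] at hz
      rcases hz with rfl | rfl | rfl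
      · exact mF _ f3 (by simp only [List.mem_cons, List.not_mem_nil, not_or]; clear * - Q; grind)
      · exact mF _ f1 (by simp only [List.mem_cons, List.not_mem_nil, not_or]; clear * - Q; grind)
      · exact mF _ f4 (by simp only [List.mem_cons, List.not_mem_nil, not_or]; clear * - Q; grind))
    (by simp only [List.length_cons, List.length_nil]; omega)
  simp only [List.map_cons, List.map_nil, List.cons.injEq, and_true] at eσ
  obtain ⟨k, -, hk⟩ := L.lift (a := α) (fun z hz => ((hF2 z).1 hz).1) hσ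
  have k1 : k * x0 * k⁻¹ = L.T p3 p1 p4 := by
    rw [← hx0, T_conj k hd, hk, eσ.1, eσ.2.1, eσ.2.2]
  have nF : ∀ z ∈ [L.π a α, L.π a β, L.π a x], L.π k z = z := fun z hz => by
    rw [hk]; exact hσ.1 z fun h' => ((hF2 z).1 h').2 hz
  have k2 : k * y0 = y0 * k := by
    rw [ey]; exact T_comm hd' (nF _ (by simp)) (nF _ (by simp)) (nF _ (by simp))
  have δ3 : (x0 * y0) ^ 3 = 1 := by
    rw [Commute.mul_pow (show Commute x0 y0 from hxy.symm), x3, y3, one_mul]
  have triv : ∀ m : M, (x0 * y0) • m = m := fun m => by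
    have hw : (x0 * y0) • m - m ∈ cm M (x0 * y0) := ⟨m, rfl⟩
    generalize hw' : (x0 * y0) • m - m = w at hw
    have t1 := tW w hw
    rw [← k1, mul_smul, mul_smul, smul_eq_iff_eq_inv_smul] at t1
    have t2 := fxy _ t1
    rw [← smul_eq_iff_eq_inv_smul, ← mul_smul, k2, mul_smul, smul_inv_smul] at t2
    have t3 := fyx _ t2
    have := cop_zero (p := 2) (k := 3) h.chr (by norm_num) (g := x0 * y0)
      (fun m => by rw [δ3, one_smul]) hw (by rw [mul_smul, t2, t3])
    rw [this] at hw'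
    exact sub_eq_zero.1 hw'
  have := h.faith _ triv
  rw [map_mul, ← hx0, π_T hd, ey, π_T hd'] at this
  have := congrArg (fun σ : Perm Ω => σ α) this
  simp only [List.mem_cons, List.not_mem_nil, not_or] at o1
  simp only [Perm.mul_apply, Perm.one_apply] at this
  rw [c3_ne o1.1 o1.2.1 o1.2.2.1, c3_a hab hax] at this
  exact hab this.symm

/-- Four -/
theorem Off.four (h : L.Off M B) {a b : X} (ha : a ∈ B) (hb : b ∈ B) {α : Ω}
    (hm : ∀ x, fib x = fib α → L.π a x ≠ x) (h1 : L.π b α ≠ α) (h2 : L.π b α ≠ L.π a α) :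
    False := by
  have haa : a * a = 1 := by have := h.exp a ha; rwa [pow_two] at this
  have hbb : b * b = 1 := by have := h.exp b hb; rwa [pow_two] at this
  have hab : a * b = b * a := h.com a ha b hb
  have hs : ∀ z, L.π a (L.π a z) = z := fun z => by
    rw [← Perm.mul_apply, ← map_mul, haa, map_one, Perm.one_apply]
  have ht : ∀ z, L.π b (L.π b z) = z := fun z => by
    rw [← Perm.mul_apply, ← map_mul, hbb, map_one, Perm.one_apply]
  have hst : ∀ z, L.π a (L.π b z) = L.π b (L.π a z) := fun z => by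
    rw [← Perm.mul_apply, ← map_mul, hab, map_mul, Perm.mul_apply]
  have bD : b ∈ Cen X (cm M a) := by
    rintro _ ⟨m, rfl⟩
    exact h.quad b hb a ha m
  have nD : ∀ k g : X, k * a = a * k → g ∈ Cen X (cm M a) → g * k * g⁻¹ * k⁻¹ ∈ Cen X (cm M a) :=
    fun k g hk hg => by
      have i1 : k⁻¹ * a = a * k⁻¹ := by
        rw [inv_mul_eq_iff_eq_mul, ← mul_assoc, hk, mul_inv_cancel_right]
      have := mul_mem hg (Cen_conj (inv_cm i1) (Subgroup.inv_mem _ hg))
      rwa [← mul_assoc, ← mul_assoc] at this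
  have phi : ∀ u v w : Ω, D3 fib u v w → u ∉ [L.π a u, L.π a v, L.π a w] →
      v ∉ [L.π a u, L.π a v, L.π a w] → w ∉ [L.π a u, L.π a v, L.π a w] →
      L.T u v w * (a * L.T u v w * a⁻¹) * a = a * (L.T u v w * (a * L.T u v w * a⁻¹)) :=
    fun u v w d a1 a2 a3 => four_phi haa (by
      rw [T_conj a d]; exact four_TT d (D3_map a d) a1 a2 a3)
  obtain ⟨γ, f1, q1⟩ := L.big.avoid α [α, L.π a α, L.π b α, L.π a (L.π b α)] (by simp)
  obtain ⟨ε, f2, q2⟩ := L.big.avoid α [α, L.π a α, L.π b α, L.π a (L.π b α), γ, L.π a γ] (by simp)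
  obtain ⟨x, f3, q3⟩ := L.big.avoid α [α, γ, ε, L.π a α, L.π a γ, L.π a ε, L.π b α, L.π b γ,
    L.π b ε, L.π a (L.π b α), L.π a (L.π b γ), L.π a (L.π b ε)] (by simp)
  obtain ⟨y, f4, q4⟩ := L.big.avoid α [α, γ, ε, L.π a α, L.π a γ, L.π a ε, L.π b α, L.π b γ,
    L.π b ε, L.π a (L.π b α), L.π a (L.π b γ), L.π a (L.π b ε), x, L.π a x] (by simp)
  simp only [List.mem_cons, List.not_mem_nil, not_or] at q1 q2 q3 q4
  have g0 := hm α rfl
  have g1 := hm γ f1
  have g2 := hm ε f2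
  have g3 := hm x f3
  have g4 := hm y f4
  have s0 := hs α
  have s1 := hs γ
  have s2 := hs ε
  have s3 := hs x
  have s4 := hs y
  have s5 := hs (L.π b α)
  have s6 := hs (L.π b γ)
  have s7 := hs (L.π b ε)
  have t3 := ht x
  have t4 := ht y
  have t0 := ht α
  have r0 := hst α
  have r1 := hst γ
  have r2 := hst ε
  have Q := And.intro (And.intro (And.intro h1 h2) (And.intro (And.intro q1 q2) (And.intro q3 q4)))
    (And.intro (And.intro (And.intro g0 g1) (And.intro g2 (And.intro g3 g4)))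
      (And.intro (And.intro (And.intro s0 s1) (And.intro s2 (And.intro s3 s4)))
        (And.intro (And.intro s5 (And.intro s6 s7)) (And.intro (And.intro t0 (And.intro t3 t4))
          (And.intro r0 (And.intro r1 r2))))))
  have de : D3 fib α γ ε := ⟨by clear * - Q; grind, by clear * - Q; grind, by clear * - Q; grind, f1, f2⟩
  have dx : D3 fib α x y := ⟨by clear * - Q; grind, by clear * - Q; grind, by clear * - Q; grind, f3, f4⟩
  have cE := phi α γ ε de (by simp only [List.mem_cons, List.not_mem_nil, not_or]; clear * - Q; grind)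
    (by simp only [List.mem_cons, List.not_mem_nil, not_or]; clear * - Q; grind)
    (by simp only [List.mem_cons, List.not_mem_nil, not_or]; clear * - Q; grind)
  have cE' := phi α x y dx (by simp only [List.mem_cons, List.not_mem_nil, not_or]; clear * - Q; grind)
    (by simp only [List.mem_cons, List.not_mem_nil, not_or]; clear * - Q; grind)
    (by simp only [List.mem_cons, List.not_mem_nil, not_or]; clear * - Q; grind)
  have pE : L.π (L.T α γ ε * (a * L.T α γ ε * a⁻¹)) =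
      c3 α γ ε * c3 (L.π a α) (L.π a γ) (L.π a ε) := by
    rw [T_conj a de, map_mul, π_T de, π_T (D3_map a de)]
  have fE : FP fib (L.π (L.T α γ ε * (a * L.T α γ ε * a⁻¹))) := fun z => by
    rw [pE, Perm.mul_apply, FP_c3 de, FP_c3 (D3_map a de)]
  generalize L.T α γ ε * (a * L.T α γ ε * a⁻¹) = E at cE pE fE
  have xE : ∀ z, z ∉ [α, γ, ε, L.π a α, L.π a γ, L.π a ε] → L.π E z = z := fun z hz => by
    simp only [List.mem_cons, List.not_mem_nil, not_or] at hz
    rw [pE, Perm.mul_apply, c3_ne hz.2.2.2.1 hz.2.2.2.2.1 hz.2.2.2.2.2.1,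
      c3_ne hz.1 hz.2.1 hz.2.2.1]
  have εE : L.π E ε = α := by
    rw [pE, Perm.mul_apply, c3_ne (x := ε) (by clear * - Q; grind) (by clear * - Q; grind) (by clear * - Q; grind), c3_c]
  have uD := nD E b cE bD
  have ua : b * E * b⁻¹ * E⁻¹ * a = a * (b * E * b⁻¹ * E⁻¹) := by
    have c1 : Commute a b := hab
    have c2 : Commute a E := cE.symm
    exact (((c1.mul_right c2).mul_right c1.inv_right).mul_right c2.inv_right).symm
  have hbi : b⁻¹ = b := inv_eq_of_mul_eq_one_right hbb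
  have pu : ∀ z, L.π (b * E * b⁻¹ * E⁻¹) (L.π E z) = L.π b (L.π E (L.π b z)) := fun z => by
    rw [hbi, ← Perm.mul_apply, ← map_mul, inv_mul_cancel_right, map_mul, map_mul]; rfl
  have ufix : ∀ z, z ∉ [α, γ, ε, L.π a α, L.π a γ, L.π a ε] →
      L.π b z ∉ [α, γ, ε, L.π a α, L.π a γ, L.π a ε] → L.π (b * E * b⁻¹ * E⁻¹) z = z :=
    fun z z1 z2 => by
      have := pu z
      rwa [xE z z1, xE _ z2, ht] at this
  have ux : L.π (b * E * b⁻¹ * E⁻¹) x = x :=
    ufix x (by simp only [List.mem_cons, List.not_mem_nil, not_or]; clear * - Q; grind)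
      (by simp only [List.mem_cons, List.not_mem_nil, not_or]; clear * - Q; grind)
  have uy : L.π (b * E * b⁻¹ * E⁻¹) y = y :=
    ufix y (by simp only [List.mem_cons, List.not_mem_nil, not_or]; clear * - Q; grind)
      (by simp only [List.mem_cons, List.not_mem_nil, not_or]; clear * - Q; grind)
  have uα : L.π (b * E * b⁻¹ * E⁻¹) α = L.π b (L.π E (L.π b ε)) := by rw [← pu, εE]
  have E1 : L.π E (L.π b α) = L.π b α :=
    xE _ (by simp only [List.mem_cons, List.not_mem_nil, not_or]; clear * - Q; grind)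
  have E2 : L.π E (L.π a (L.π b α)) = L.π a (L.π b α) :=
    xE _ (by simp only [List.mem_cons, List.not_mem_nil, not_or]; clear * - Q; grind)
  have b1 : L.π (b * E * b⁻¹ * E⁻¹) α ≠ α := fun e => by
    rw [uα] at e
    have e1 : L.π E (L.π b ε) = L.π E (L.π b α) := by rw [E1, ← e, ht]
    exact de.ac ((L.π b).injective ((L.π E).injective e1)).symm
  have b2 : L.π (b * E * b⁻¹ * E⁻¹) α ≠ L.π a α := fun e => by
    rw [uα] at e
    have e1 : L.π E (L.π b ε) = L.π E (L.π a (L.π b α)) := by rw [E2, r0, ← e, ht]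
    have e2 := (L.π E).injective e1
    rw [r0] at e2
    exact q2.2.1 ((L.π b).injective e2)
  have b3 : fib (L.π (b * E * b⁻¹ * E⁻¹) α) = fib α := by
    rw [uα, L.fibp b _ _ (fE _), ht, f2]
  generalize b * E * b⁻¹ * E⁻¹ = u at uD ua ux uy b1 b2 b3
  have ua' : ∀ z, L.π u (L.π a z) = L.π a (L.π u z) := fun z => by
    rw [← Perm.mul_apply, ← map_mul, ua, map_mul, Perm.mul_apply]
  have b4 : L.π u α ≠ x := fun e => dx.ab ((L.π u).injective (e.trans ux.symm))
  have b5 : L.π u α ≠ y := fun e => dx.ac ((L.π u).injective (e.trans uy.symm))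
  have b6 : L.π u α ≠ L.π a x := fun e => by
    have : L.π u α = L.π u (L.π a x) := by rw [ua', ux, e]
    have := (L.π u).injective this
    clear * - Q this
    grind
  have b7 : L.π u α ≠ L.π a y := fun e => by
    have : L.π u α = L.π u (L.π a y) := by rw [ua', uy, e]
    have := (L.π u).injective this
    clear * - Q this
    grind
  have dβ : D3 fib (L.π u α) x y := ⟨b4, b5, dx.bc, f3.trans b3.symm, f4.trans b3.symm⟩
  have dδ : D3 fib α (L.π u α) x := ⟨b1.symm, dx.ab, b4, b3, f3⟩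
  have δD := nD _ u cE' uD
  have e1 : u * L.T α x y * u⁻¹ = L.T (L.π u α) x y := by rw [T_conj u dx, ux, uy]
  have e2 : L.T (L.π u α) x y * (L.T α x y)⁻¹ = L.T α (L.π u α) x := T_mul dx dβ b1.symm
  have s8 := hs (L.π u α)
  have e3 : a * L.T α (L.π u α) x * a⁻¹ * L.T α x y = L.T α x y * (a * L.T α (L.π u α) x * a⁻¹) := by
    rw [T_conj a dδ]
    apply four_TT dx (D3_map a dδ) <;>
      simp only [List.mem_cons, List.not_mem_nil, not_or] <;> clear * - Q b1 b2 b4 b5 b6 b7 s8 <;> grind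
  refine h.four_core ha hm dδ b2.symm (by clear * - Q; grind) (by clear * - b6 s8; grind) ?_
  have cua : Commute u a := ua
  generalize L.T α x y = g at *
  generalize L.T (L.π u α) x y = g' at *
  generalize L.T α (L.π u α) x = d at *
  have e4 : u * (a * g * a⁻¹) * u⁻¹ = a * g' * a⁻¹ := by
    rw [← e1]
    calc u * (a * g * a⁻¹) * u⁻¹ = (u * a) * g * (u * a)⁻¹ := by group
      _ = (a * u) * g * (a * u)⁻¹ := by rw [cua.eq]
      _ = _ := by group
  have e5 : u * (g * (a * g * a⁻¹)) * u⁻¹ * (g * (a * g * a⁻¹))⁻¹ = d * (a * d * a⁻¹) := by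
    calc u * (g * (a * g * a⁻¹)) * u⁻¹ * (g * (a * g * a⁻¹))⁻¹
        = (u * g * u⁻¹) * (u * (a * g * a⁻¹) * u⁻¹) * (g * (a * g * a⁻¹))⁻¹ := by group
      _ = g' * (a * (g' * g⁻¹) * a⁻¹) * g⁻¹ := by rw [e1, e4]; group
      _ = g' * g⁻¹ * (g * (a * d * a⁻¹)) * g⁻¹ := by rw [e2]; rw [← e2]; group
      _ = d * (a * d * a⁻¹) := by rw [← e3, e2]; group
  rwa [e5] at δD

/-- Fibres -/
theorem Off.FP_two (h : L.Off M B) {a : X} (ha : a ∈ B) : FP fib (L.π a) := by
  intro o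
  by_contra hne
  have haa : a * a = 1 := by have := h.exp a ha; rwa [pow_two] at this
  have hi : a⁻¹ = a := inv_eq_of_mul_eq_one_right haa
  have hf : ∀ z, fib z = fib o → fib (L.π a z) ≠ fib o := fun z hz => by
    rw [L.fibp a z o hz]; exact hne
  have hm : ∀ z, fib z = fib o → L.π a z ≠ z := fun z hz e => hf z hz (by rw [e, hz])
  have h4 : ∀ b ∈ B, ∀ z, fib z = fib o → L.π b z = z ∨ L.π b z = L.π a z := fun b hb z hz => by
    by_contra hc
    push Not at hc
    exact h.four ha hb (fun w hw => hm w (hw.trans hz)) hc.1 hc.2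
  have h0 : B ⊓ fixer L.π {o} ≤ B := inf_le_left
  have hfix : B ⊓ fixer L.π {o} ≤ fixer L.π (fbr fib o) := fun b hb z hz => by
    have hz' := mem_fbr.1 hz
    rcases h4 b hb.1 z hz' with e | e
    · exact e
    · exfalso
      have e1 := L.fibp b z o hz'
      rw [hb.2 o (Finset.mem_singleton_self o), e] at e1
      exact hf z hz' e1
  have hidx : (B ⊓ fixer L.π {o}).relIndex B ≤ 2 := by
    rw [Subgroup.inf_relIndex_left]
    exact relIndex_fixer_le L.π B o [o, L.π a o] fun b hb => by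
      rcases h4 b hb o rfl with e | e <;> simp [e]
  have big := L.big o
  obtain ⟨g, hg, hg1, j, hj⟩ := L.exists_rpow (a := o) (F := fbr fib o) subset_rfl
    (r := 13) (by norm_num) (by norm_num) (by omega)
  have ig : Inv g (FixS M (B ⊓ fixer L.π {o})) := h.inv subset_rfl (by omega) h0 hfix hg
  have ig' : Inv g⁻¹ (FixS M (B ⊓ fixer L.π {o})) :=
    h.inv subset_rfl (by omega) h0 hfix (Subgroup.inv_mem _ hg)
  have ia : Inv a (FixS M (B ⊓ fixer L.π {o})) := inv_FixS fun b hb => h.com a ha b hb.1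
  have ra : rk (FixS M (B ⊓ fixer L.π {o})) a ≤ 2 := (h.rk_le h0 ha).trans hidx
  have da : a ∈ DS X (FixS M (B ⊓ fixer L.π {o})) := h.le_DS h0 ha
  generalize FixS M (B ⊓ fixer L.π {o}) = S at *
  have du : a * (g * a * g⁻¹) ∈ DS X S := mul_mem da (DS_conj ig da)
  have ru : rk S (a * (g * a * g⁻¹)) < 2 ^ 12 := by
    have := rk_mul S a (g * a * g⁻¹)
    rw [rk_conj ig] at this
    calc _ ≤ _ := this
      _ ≤ 2 * 2 := Nat.mul_le_mul ra ra
      _ < _ := by norm_num
  have iu : Inv (a * (g * a * g⁻¹)) S := fun m hm => by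
    rw [mul_smul, mul_smul, mul_smul]
    exact ia _ (ig _ (ia _ (ig' _ hm)))
  have cf : ∀ z ∈ fbr fib o, L.π (a * g * a⁻¹) z = z := fun z hz => by
    rw [hi, map_mul, map_mul, Perm.mul_apply, Perm.mul_apply,
      hg.2.1 _ fun h' => hf z (mem_fbr.1 hz) (mem_fbr.1 h'), ← Perm.mul_apply, ← map_mul, haa,
      map_one, Perm.one_apply]
  have cc : a * g * a⁻¹ * g⁻¹ = g⁻¹ * (a * g * a⁻¹) :=
    L.comm subset_rfl (by omega) (L.nE.conj_mem g hg.1 a) cf (Subgroup.inv_mem _ hg)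
  have eu : a * (g * a * g⁻¹) = a * g * a⁻¹ * g⁻¹ := by rw [hi]; group
  have pu : (a * (g * a * g⁻¹)) ^ 13 ^ j = 1 := by
    rw [eu, Commute.mul_pow (show Commute (a * g * a⁻¹) g⁻¹ from cc), conj_pow, inv_pow, hj]
    group
  have cu := R_fix (p := 2) (r := 13) (e := 12) (by norm_num) (by norm_num) h.chr (by decide)
    (by norm_num) pu iu ru
  have triv : ∀ m : M, (a * (g * a * g⁻¹)) • m = m := fun m =>
    sub_eq_zero.1 (cop_zero (p := 2) (k := 13 ^ j) h.chr
      (Nat.Coprime.pow_left j (by norm_num)) (fun m => by rw [pu, one_smul]) ⟨m, rfl⟩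
      (cu _ (du m)))
  have e := h.faith _ triv
  rw [eu, map_mul, map_inv, mul_inv_eq_one] at e
  apply hg1
  ext z
  by_cases hz : z ∈ fbr fib o
  · rw [← e, cf z hz, Perm.one_apply]
  · rw [hg.2.1 z hz, Perm.one_apply]

end Loc

end Pool.Agent.MP_1d62fe_al.W

end

-- part Two2
section

set_option autoImplicit false
set_option linter.unusedSectionVars false

namespace Pool.Agent.MP_1d62fe_al.W

open Equiv

variable {Ω I : Type} [Fintype Ω] [DecidableEq Ω] [DecidableEq I]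

namespace Loc

variable {X : Type} [Group X] [Finite X] {fib : Ω → I} (L : Loc X fib 2)
  (M : Type) [AddCommGroup M] [DistribMulAction X M] [Finite M]

/-- weight one in the fibre of `o` -/
def WO (o : Ω) : Prop := ∀ a b c d e f, D3 fib a b c → D3 fib d e f → fib a = fib o →
  fib d = fib o → d ∉ [a, b, c] → e ∉ [a, b, c] → f ∉ [a, b, c] →
  ∀ w ∈ cm M (L.T a b c), L.T d e f • w = w

variable {L M}

theorem Two2_conj (x : X) {s t : X} (h : ∀ w ∈ cm M s, t • w = w) :
    ∀ w ∈ cm M (x * s * x⁻¹), (x * t * x⁻¹) • w = w := by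
  rintro _ ⟨m, rfl⟩
  have e : (x * s * x⁻¹) • m - m = x • (s • x⁻¹ • m - x⁻¹ • m) := by
    rw [smul_sub, smul_inv_smul, mul_smul, mul_smul]
  rw [e, mul_smul, mul_smul, inv_smul_smul, h _ ⟨_, rfl⟩]

theorem Two2_D3 {o a b c : Ω} {F : Finset Ω} (hF : F ⊆ fbr fib o) (ha : a ∈ F) (hb : b ∈ F)
    (hc : c ∈ F) (h1 : a ≠ b) (h2 : a ≠ c) (h3 : b ≠ c) : D3 fib a b c :=
  ⟨h1, h2, h3, (mem_fbr.1 (hF hb)).trans (mem_fbr.1 (hF ha)).symm,
    (mem_fbr.1 (hF hc)).trans (mem_fbr.1 (hF ha)).symm⟩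

/-- an element inverting the 3-cycle gives `T = u * (T u⁻¹ T⁻¹)` -/
theorem Two2_eq {u : X} {x y z : Ω} (h : D3 fib x y z) (h1 : L.π u x = y) (h2 : L.π u y = x)
    (h3 : L.π u z = z) : L.T x y z = u * (L.T x y z * u⁻¹ * (L.T x y z)⁻¹) := by
  have e1 : u * L.T x y z * u⁻¹ = (L.T x y z)⁻¹ := by
    rw [T_conj u h, h1, h2, h3, T_inv h,
      T_rot (L := L) (⟨h.ab.symm, h.bc, h.ac, h.fb.symm, h.fc.trans h.fb.symm⟩ : D3 fib y x z)]
  have e2 := T_cube (L := L) h
  calc L.T x y z = L.T x y z ^ 3 * ((L.T x y z)⁻¹ * (L.T x y z)⁻¹) := by group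
    _ = (u * L.T x y z * u⁻¹) * (L.T x y z)⁻¹ := by rw [e2, one_mul, e1]
    _ = _ := by group

theorem Two2_three {F : Finset Ω} (l : List Ω) (h : l.length + 3 ≤ F.card) :
    ∃ d ∈ F, ∃ e ∈ F, ∃ f ∈ F, d ∉ l ∧ e ∉ l ∧ f ∉ l ∧ d ≠ e ∧ d ≠ f ∧ e ≠ f := by
  obtain ⟨d, hd, n1⟩ := exists_notMem (F := F) l (by omega)
  obtain ⟨e, he, n2⟩ := exists_notMem (F := F) (d :: l) (by simp; omega)
  obtain ⟨f, hf, n3⟩ := exists_notMem (F := F) (e :: d :: l) (by simp; omega)
  simp only [List.mem_cons, not_or] at n2 n3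
  exact ⟨d, hd, e, he, f, hf, n1, n2.2, n3.2.2, Ne.symm n2.1, Ne.symm n3.2.1, Ne.symm n3.1⟩

/-- one disjoint pair suffices -/
theorem WO_of_one {o a b c d e f : Ω} (h1 : D3 fib a b c) (h2 : D3 fib d e f)
    (ha : fib a = fib o) (hd : fib d = fib o) (n1 : d ∉ [a, b, c]) (n2 : e ∉ [a, b, c])
    (n3 : f ∉ [a, b, c]) (h : ∀ w ∈ cm M (L.T a b c), L.T d e f • w = w) : L.WO M o := by
  intro a' b' c' d' e' f' k1 k2 ha' hd' m1 m2 m3
  simp only [List.mem_cons, List.not_mem_nil, not_or] at n1 n2 n3 m1 m2 m3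
  have nd : [a, b, c, d, e, f].Nodup := by
    have := h1.ab; have := h1.ac; have := h1.bc; have := h2.ab; have := h2.ac; have := h2.bc
    simp only [List.nodup_cons, List.mem_cons, List.not_mem_nil, not_or]
    grind
  have nd' : [a', b', c', d', e', f'].Nodup := by
    have := k1.ab; have := k1.ac; have := k1.bc; have := k2.ab; have := k2.ac; have := k2.bc
    simp only [List.nodup_cons, List.mem_cons, List.not_mem_nil, not_or]
    grind
  obtain ⟨σ, hσ, e0⟩ := trans_list (F := fbr fib o) _ _ nd nd' rfl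
    (by
      have := h1.fb; have := h1.fc; have := h2.fb; have := h2.fc
      simp only [List.mem_cons, List.not_mem_nil, mem_fbr]
      grind)
    (by
      have := k1.fb; have := k1.fc; have := k2.fb; have := k2.fc
      simp only [List.mem_cons, List.not_mem_nil, mem_fbr]
      grind)
    (by have := L.big o; simp; omega)
  obtain ⟨g, -, rfl⟩ := L.lift (Finset.Subset.refl _) hσ
  simp only [List.map_cons, List.map_nil, List.cons.injEq, and_true] at e0
  obtain ⟨rfl, rfl, rfl, rfl, rfl, rfl⟩ := e0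
  rw [← T_conj g h1, ← T_conj g h2]
  exact Two2_conj g h

theorem WO.map {o : Ω} (h : L.WO M o) (x : X) {o' : Ω} (ho : fib (L.π x o) = fib o') :
    L.WO M o' := by
  intro a b c d e f k1 k2 ha hd m1 m2 m3
  have back : ∀ y, L.π x (L.π x⁻¹ y) = y := fun y => by simp
  have fb : ∀ y, fib y = fib o' → fib (L.π x⁻¹ y) = fib o := fun y hy => by
    have := L.fibp x⁻¹ y (L.π x o) (hy.trans ho.symm)
    simpa only [map_inv, Perm.coe_inv, symm_apply_apply] using this
  have nm : ∀ y, y ∉ [a, b, c] → L.π x⁻¹ y ∉ [L.π x⁻¹ a, L.π x⁻¹ b, L.π x⁻¹ c] := fun y hy => by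
    simpa only [List.mem_cons, List.not_mem_nil, EmbeddingLike.apply_eq_iff_eq] using hy
  have key := Two2_conj x (h _ _ _ _ _ _ (D3_map x⁻¹ k1) (D3_map x⁻¹ k2) (fb a ha) (fb d hd)
    (nm d m1) (nm e m2) (nm f m3))
  rw [T_conj x (D3_map x⁻¹ k1), T_conj x (D3_map x⁻¹ k2)] at key
  simpa only [back] using key

/-- Lemma W -/
theorem lemmaW {u a : X} (hc : L.π u * L.π a = L.π a * L.π u) {α α' β : Ω} (h0 : D2 fib α α')
    (h1 : L.π u α = α') (h2 : L.π u α' = α) (l : List Ω) (hl : l.length ≤ 8)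
    (hfix : ∀ x, fib x = fib α → x ∉ l → L.π u x = x) (hβ : fib β = fib α)
    (h3 : L.π u β = β) (h4 : L.π a β ≠ β) (h5 : fib (L.π a β) = fib β)
    (hq : ∀ m : M, a • (u • m - m) = u • m - m) : L.WO M α := by
  set F : Finset Ω := (fbr fib α).filter fun x => L.π u x = x with hFd
  have mF : ∀ x, x ∈ F ↔ fib x = fib α ∧ L.π u x = x := fun x => by
    rw [hFd, Finset.mem_filter, mem_fbr]
  have hF : F ⊆ fbr fib α := Finset.filter_subset _ _
  have h9 : 9 ≤ F.card := by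
    have c1 := card_filter_notMem (fbr fib α) l
    have c2 : ((fbr fib α).filter fun x => x ∉ l).card ≤ F.card :=
      Finset.card_le_card fun x hx => by
        rw [Finset.mem_filter, mem_fbr] at hx
        exact (mF x).2 ⟨hx.1, hfix x hx.1 hx.2⟩
    have := L.big α
    omega
  have all : ∀ x ∈ F, ∀ y ∈ F, ∀ z ∈ F, D3 fib x y z → L.T x y z ∈ Cen X (cm M u) := by
    intro x hx y hy z hz hd
    refine NC2 hF (by omega) (D := Cen X (cm M u)) ?_ (g := a) ?_ (α := β) ((mF β).2 ⟨hβ, h3⟩) h4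
      (Or.inl ?_) hx hy hz hd
    · intro x hx y hy z hz hd g hg
      refine Cen_conj (inv_cm ?_) hg
      have := T_comm hd ((mF x).1 hx).2 ((mF y).1 hy).2 ((mF z).1 hz).2
      rw [inv_mul_eq_iff_eq_mul, ← mul_assoc, ← this, mul_inv_cancel_right]
    · rintro _ ⟨m, rfl⟩
      exact hq m
    · intro x hx
      obtain ⟨e1, e2⟩ := (mF x).1 hx
      refine (mF _).2 ⟨((L.fibp a x β (e1.trans hβ.symm)).trans h5).trans hβ, ?_⟩
      rw [← Perm.mul_apply, hc, Perm.mul_apply, e2]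
  have nα : α ∉ F := fun hh => h0.ab (((mF α).1 hh).2.symm.trans h1)
  have nα' : α' ∉ F := fun hh => h0.ab (h2.symm.trans ((mF α').1 hh).2)
  have hβF : β ∈ F := (mF β).2 ⟨hβ, h3⟩
  have t1 : D3 fib α α' β :=
    ⟨h0.ab, fun e => nα (e ▸ hβF), fun e => nα' (e ▸ hβF), h0.fb, hβ⟩
  obtain ⟨d, hd, e, he, f, hf, n1, n2, n3, k1, k2, k3⟩ := Two2_three (F := F) [β] (by simp; omega)
  have t2 : D3 fib d e f := Two2_D3 hF hd he hf k1 k2 k3
  have nn : ∀ y ∈ F, y ∉ [β] → y ∉ [α, α', β] := fun y hy hn => by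
    simp only [List.mem_cons, List.not_mem_nil, not_or] at hn ⊢
    exact ⟨fun e => nα (e ▸ hy), fun e => nα' (e ▸ hy), hn⟩
  have fx : ∀ y, y ∉ [α, α', β] → L.π (L.T α α' β) y = y := fun y hy => by
    simp only [List.mem_cons, List.not_mem_nil, not_or] at hy
    rw [π_T t1, c3_ne hy.1 hy.2.1 hy.2.2.1]
  have hu : u ∈ DS X (Fix M (L.T d e f)) := fun m => all d hd e he f hf t2 _ ⟨m, rfl⟩
  have hT : L.T α α' β ∈ DS X (Fix M (L.T d e f)) := by
    rw [Two2_eq t1 h1 h2 h3]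
    exact Subgroup.mul_mem _ hu (DS_conj (inv_Fix (T_comm t2 (fx d (nn d hd n1))
      (fx e (nn e he n2)) (fx f (nn f hf n3)))) (Subgroup.inv_mem _ hu))
  refine WO_of_one t1 t2 rfl (mem_fbr.1 (hF hd)) (nn d hd n1) (nn e he n2) (nn f hf n3) ?_
  rintro _ ⟨m, rfl⟩
  exact hT m

/-- V4 -/
theorem V4 (chr : ∀ m : M, 2 • m = 0) {a b c d : Ω} (hW : L.WO M a) (h : D3 fib a b c)
    (hd : fib d = fib a) (hn : d ∉ [a, b, c]) {t : X} (ht : t ∈ L.E) (h1 : t * t = 1)
    (e : L.π t = swap a b * swap c d) {w : M} (h2 : t • w = w)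
    (h3 : (L.T a b c * t * (L.T a b c)⁻¹) • w = w) : L.T a b c • w = w := by
  simp only [List.mem_cons, List.not_mem_nil, not_or] at hn
  have ab := h.ab; have ac := h.ac; have bc := h.bc
  have hδ := T_mem (L := L) h
  have pδ := π_T (L := L) h
  have cδ := T_cube (L := L) h
  set δ := L.T a b c with hδd
  have m2 : δ * t * δ⁻¹ ∈ L.E := L.nE.conj_mem _ ht _
  have m3 : δ⁻¹ * t * δ⁻¹⁻¹ ∈ L.E := L.nE.conj_mem _ ht _
  have sq : ∀ x : X, (x * t * x⁻¹) * (x * t * x⁻¹) = 1 := fun x => by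
    calc _ = x * (t * t) * x⁻¹ := by group
      _ = 1 := by rw [h1]; group
  have p2 : L.π (δ * t * δ⁻¹) = swap b c * swap a d := by
    rw [map_mul, map_mul, map_inv, pδ, e, mul_inv_eq_iff_eq_mul]
    ext z; simp only [c3, Perm.mul_apply, swap_apply_def]; grind
  have p3 : L.π (δ⁻¹ * t * δ⁻¹⁻¹) = swap c a * swap b d := by
    rw [inv_inv, map_mul, map_mul, map_inv, pδ, e, mul_assoc, inv_mul_eq_iff_eq_mul]
    ext z; simp only [c3, Perm.mul_apply, swap_apply_def]; grind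
  have c12 : t * (δ * t * δ⁻¹) * t⁻¹ = δ * t * δ⁻¹ := by
    refine L.invU (L.nE.conj_mem _ m2 _) m2 ?_ (sq δ) ?_
    · have := sq (t * δ)
      rw [← this]; group
    · rw [map_mul, map_mul _ t, map_inv, p2, e, mul_inv_eq_iff_eq_mul]
      ext z; simp only [Perm.mul_apply, swap_apply_def]; grind
  have e3 : t * (δ * t * δ⁻¹) = δ⁻¹ * t * δ⁻¹⁻¹ := by
    refine L.invU (L.E.mul_mem ht m2) m3 ?_ (sq δ⁻¹) ?_
    · calc _ = (t * (δ * t * δ⁻¹) * t⁻¹) * (t * t) * (δ * t * δ⁻¹) := by group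
        _ = 1 := by rw [c12, h1, mul_one, sq]
    · rw [map_mul, p2, p3, e]
      ext z; simp only [Perm.mul_apply, swap_apply_def]; grind
  have w3 : (δ⁻¹ * t * δ⁻¹⁻¹) • w = w := by rw [← e3, mul_smul, h3, h2]
  have u1 : t ∈ MulAction.stabilizer X (δ • w - w) := by
    rw [MulAction.mem_stabilizer_iff, smul_sub, h2]
    rw [inv_inv, mul_smul, mul_smul, inv_smul_eq_iff] at w3
    rw [w3]
  have u2 : δ * t * δ⁻¹ ∈ MulAction.stabilizer X (δ • w - w) := by
    rw [MulAction.mem_stabilizer_iff, smul_sub, h3, mul_smul, inv_smul_smul, mul_smul, h2]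
  obtain ⟨x, fx, nx⟩ := L.big.avoid a [a, b, c, d] (by simp)
  obtain ⟨y, fy, ny⟩ := L.big.avoid a [x, a, b, c, d] (by simp)
  simp only [List.mem_cons, List.not_mem_nil, not_or] at nx ny
  have t4 : D3 fib d x y := ⟨Ne.symm nx.2.2.2.1, Ne.symm ny.2.2.2.2.1, Ne.symm ny.1,
    fx.trans hd.symm, fy.trans hd.symm⟩
  have u4 : L.T d x y ∈ MulAction.stabilizer X (δ • w - w) :=
    hW a b c d x y h t4 rfl hd (by simp only [List.mem_cons, List.not_mem_nil]; grind)
      (by simp only [List.mem_cons, List.not_mem_nil]; grind)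
      (by simp only [List.mem_cons, List.not_mem_nil]; grind) _ ⟨w, rfl⟩
  have cj : ∀ g ∈ MulAction.stabilizer X (δ • w - w), ∀ z, L.π g d = z → L.π g x = x →
      L.π g y = y → L.T z x y ∈ MulAction.stabilizer X (δ • w - w) := fun g hg z e1 e2 e3 => by
    have := T_conj (L := L) g t4
    rw [e1, e2, e3] at this
    rw [← this]
    exact Subgroup.mul_mem _ (Subgroup.mul_mem _ hg u4) (Subgroup.inv_mem _ hg)
  have ua := cj _ u2 a (by rw [p2]; simp only [Perm.mul_apply, swap_apply_def]; grind)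
    (by rw [p2]; simp only [Perm.mul_apply, swap_apply_def]; grind)
    (by rw [p2]; simp only [Perm.mul_apply, swap_apply_def]; grind)
  have ub := cj _ (Subgroup.mul_mem _ u1 u2) b
    (by rw [e3, p3]; simp only [Perm.mul_apply, swap_apply_def]; grind)
    (by rw [e3, p3]; simp only [Perm.mul_apply, swap_apply_def]; grind)
    (by rw [e3, p3]; simp only [Perm.mul_apply, swap_apply_def]; grind)
  have uc := cj _ u1 c (by rw [e]; simp only [Perm.mul_apply, swap_apply_def]; grind)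
    (by rw [e]; simp only [Perm.mul_apply, swap_apply_def]; grind)
    (by rw [e]; simp only [Perm.mul_apply, swap_apply_def]; grind)
  have fin := T_tri h ⟨Ne.symm nx.1, Ne.symm ny.2.1, Ne.symm ny.1, fx, fy⟩
    ⟨Ne.symm nx.2.1, Ne.symm ny.2.2.1, Ne.symm ny.1, fx.trans h.fb.symm, fy.trans h.fb.symm⟩
    ⟨Ne.symm nx.2.2.1, Ne.symm ny.2.2.2.1, Ne.symm ny.1, fx.trans h.fc.symm, fy.trans h.fc.symm⟩
    ua ub uc
  have z := cop_zero (p := 2) (k := 3) chr (by norm_num) (g := δ)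
    (fun m => by rw [cδ, one_smul]) (w := δ • w - w) ⟨w, rfl⟩ fin
  exact sub_eq_zero.1 z

/-- a small commutator space forces weight one -/
theorem Two2_fin (chr : ∀ m : M, 2 • m = 0) {o x y z : Ω} (h : D3 fib x y z) (ho : fib x = fib o)
    (hc : Nat.card (cm M (L.T x y z)) ≤ 256) : L.WO M o := by
  set F : Finset Ω := (fbr fib o).filter fun v => v ∉ [x, y, z] with hFd
  have hF : F ⊆ fbr fib o := Finset.filter_subset _ _
  have nF : ∀ v ∈ F, v ∉ [x, y, z] := fun v hv => (Finset.mem_filter.1 hv).2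
  have h14 : 14 ≤ F.card := by
    have c1 := card_filter_notMem (fbr fib o) [x, y, z]
    have := L.big o
    rw [← hFd] at c1
    simp only [List.length_cons, List.length_nil] at c1
    omega
  have inv : ∀ k ∈ L.NH F, Inv k (cm M (L.T x y z)) := fun k hk =>
    inv_cm (T_comm h (hk.2.1 x fun hh => nF x hh (by simp)) (hk.2.1 y fun hh => nF y hh (by simp))
      (hk.2.1 z fun hh => nF z hh (by simp)))
  obtain ⟨g, hg, g1, j, gj⟩ := L.exists_rpow hF (r := 13) (by norm_num) (by norm_num) (by omega)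
  have gc : g ∈ Cen X (cm M (L.T x y z)) :=
    R_fix (p := 2) (r := 13) (e := 12) Nat.prime_two (by norm_num) chr (by decide) (by norm_num) gj
      (inv g hg) (lt_of_le_of_lt ((rk_le_card _ _).trans hc) (by norm_num))
  obtain ⟨α, hα⟩ : ∃ α, L.π g α ≠ α := by
    by_contra hn
    push Not at hn
    exact g1 (Equiv.ext hn)
  have hαF : α ∈ F := by
    by_contra hn
    exact hα (hg.2.1 α hn)
  obtain ⟨d, hd, e, he, f, hf, -, -, -, k1, k2, k3⟩ := Two2_three (F := F) [] (by simp; omega)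
  have t2 : D3 fib d e f := Two2_D3 hF hd he hf k1 k2 k3
  refine WO_of_one h t2 ho (mem_fbr.1 (hF hd)) (nF d hd) (nF e he) (nF f hf) ?_
  exact NC2 hF (by omega) (D := Cen X (cm M (L.T x y z)))
    (fun a ha b hb c hc hd g hg => Cen_conj (inv _ (Subgroup.inv_mem _ (T_NH hd ha hb hc))) hg)
    gc hαF hα (Or.inl fun v hv => AF_maps hg.2 hv) hd he hf t2

theorem Two2_step {S : AddSubgroup M} {u k : X} {n : ℕ} (hk : Inv k S) (hu : u ∈ DS X S)
    (hr : rk S u ≤ n) : u * (k * u⁻¹ * k⁻¹) ∈ DS X S ∧ rk S (u * (k * u⁻¹ * k⁻¹)) ≤ n * n :=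
  ⟨Subgroup.mul_mem _ hu (DS_conj hk (Subgroup.inv_mem _ hu)),
    (rk_mul _ _ _).trans (Nat.mul_le_mul hr (by rwa [rk_conj hk, rk_inv]))⟩

variable {B : Subgroup X}

/-- Small -/
theorem Off.small (h : L.Off M B) {o : Ω} {F : Finset Ω} (hF : F ⊆ fbr fib o) (h5 : 5 ≤ F.card)
    (hi : ∀ b ∈ B, ∀ x ∈ F, L.π b x ∈ F) {B0 : Subgroup X} (h0 : B0 ≤ B)
    (hf : B0 ≤ fixer L.π F) {a : X} (ha : a ∈ B) {α : Ω} (hα : α ∈ F) (hm : L.π a α ≠ α)
    (hs : (B0.relIndex B ≤ 16 ∧ ∃ f ∈ F, L.π a f = f) ∨ B0.relIndex B ≤ 4) : L.WO M o := by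
  have inv : ∀ k ∈ L.NH F, Inv k (FixS M B0) := fun k hk => h.inv hF h5 h0 hf hk
  have main : ∀ u : X, ∀ x ∈ F, ∀ y ∈ F, ∀ z ∈ F, x ≠ y → L.π u x = y → L.π u y = x →
      L.π u z = z → u ∈ DS X (FixS M B0) → rk (FixS M B0) u ≤ 16 → L.WO M o := by
    intro u x hx y hy z hz xy e1 e2 e3 hu hr
    have t1 : D3 fib x y z := Two2_D3 hF hx hy hz xy
      (fun e => xy (by rw [← e1, e, e3])) (fun e => xy (by rw [← e2, e, e3]))
    have st := Two2_step (inv _ (T_NH t1 hx hy hz)) hu hr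
    rw [← Two2_eq t1 e1 e2 e3] at st
    exact Two2_fin h.chr t1 (mem_fbr.1 (hF hx))
      ((card_cm_le (p := 2) (k := 3) h.chr (by norm_num)
        (fun m => by rw [T_cube t1, one_smul]) st.1).trans st.2)
  have aa : ∀ x, L.π a (L.π a x) = x := fun x => by
    rw [← Perm.mul_apply, ← map_mul, ← sq, h.exp a ha, map_one, Perm.one_apply]
  have hD := h.le_DS h0 ha
  have hr := h.rk_le h0 ha
  by_cases hx : ∃ f ∈ F, L.π a f = f
  · obtain ⟨f, hfF, e⟩ := hx
    refine main a α hα _ (hi a ha α hα) f hfF hm.symm rfl (aa α) e hD (hr.trans ?_)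
    rcases hs with hs | hs
    · exact hs.1
    · omega
  · have h4 : B0.relIndex B ≤ 4 := hs.resolve_left fun hh => hx hh.2
    push Not at hx
    obtain ⟨γ, hγ, n1⟩ := exists_notMem (F := F) [α, L.π a α] (by simp; omega)
    obtain ⟨f, hfF, n2⟩ := exists_notMem (F := F) [α, L.π a α, γ, L.π a γ] (by simp; omega)
    simp only [List.mem_cons, List.not_mem_nil, not_or] at n1 n2
    have t1 : D3 fib α (L.π a α) γ :=
      Two2_D3 hF hα (hi a ha α hα) hγ hm.symm (Ne.symm n1.1) (Ne.symm n1.2.1)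
    have st := Two2_step (inv _ (T_NH t1 hα (hi a ha α hα) hγ)) hD (hr.trans h4)
    have g1 := hx γ hγ
    have g2 : L.π a γ ≠ α := fun e => n1.2.1 (by rw [← e, aa])
    have g3 : L.π a γ ≠ L.π a α := (L.π a).injective.ne n1.1
    have pu : L.π (a * (L.T α (L.π a α) γ * a⁻¹ * (L.T α (L.π a α) γ)⁻¹)) =
        swap α γ * swap (L.π a α) (L.π a γ) := by
      have : a * (L.T α (L.π a α) γ * a⁻¹ * (L.T α (L.π a α) γ)⁻¹) =
          (a * L.T α (L.π a α) γ * a⁻¹) * (L.T α (L.π a α) γ)⁻¹ := by group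
      rw [this, map_mul, map_mul, map_mul, map_inv, map_inv, π_T t1, c3_conj, aa,
        mul_inv_eq_iff_eq_mul]
      generalize L.π a α = α' at *
      generalize L.π a γ = γ' at *
      ext z; simp only [c3, Perm.mul_apply, swap_apply_def]; grind
    refine main _ α hα γ hγ f hfF (Ne.symm n1.1) ?_ ?_ ?_ st.1 st.2 <;> rw [pu] <;>
      simp only [Perm.mul_apply, swap_apply_def] <;> grind

theorem Off.WO (h : L.Off M B)
    (hs : SR fib (fun σ => ∃ b ∈ B, L.π b = σ) ∨ O4 (fun σ => ∃ b ∈ B, L.π b = σ))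
    {a : X} (ha : a ∈ B) {α : Ω} (hm : L.π a α ≠ α) : L.WO M α := by
  classical
  have fp : ∀ b ∈ B, ∀ x, fib (L.π b x) = fib x := fun b hb => h.FP_two hb
  have ri : ∀ K : Subgroup X, (K ⊓ B).relIndex B = K.relIndex B := fun K =>
    Subgroup.inf_relIndex_right K B
  rcases hs with hs | hs
  · have all : ∀ x, fib x = fib α → L.π a x ≠ x := fun x hx e => hm (hs _ ⟨a, ha, rfl⟩ x α hx e)
    refine h.small (Finset.Subset.refl _) (by have := L.big α; omega)
      (fun b hb x hx => mem_fbr.2 ((fp b hb x).trans (mem_fbr.1 hx)))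
      (B0 := fixer L.π {α} ⊓ B) inf_le_right ?_ ha (mem_fbr.2 rfl) hm (Or.inr ?_)
    · intro b hb x hx
      exact hs _ ⟨b, hb.2, rfl⟩ α x (mem_fbr.1 hx).symm (hb.1 α (Finset.mem_singleton_self α))
    · rw [ri]
      refine (relIndex_fixer_le L.π B α [α, L.π a α] fun b hb => ?_).trans (by simp)
      by_contra hn
      simp only [List.mem_cons, List.not_mem_nil, not_or] at hn
      exact h.four ha hb all hn.1 hn.2.1
  · have orb : ∀ x, ∃ O : Finset Ω, x ∈ O ∧ O.card ≤ 4 ∧ O ⊆ fbr fib x ∧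
        ∀ b ∈ B, ∀ y ∈ O, L.π b y ∈ O := fun x => by
      obtain ⟨l, hl, hl'⟩ := hs x
      refine ⟨Finset.univ.filter fun y => ∃ b ∈ B, L.π b x = y, by simpa only [Finset.mem_filter, Finset.mem_univ, true_and] using ⟨1, B.one_mem, by simp⟩,
        ?_, ?_, ?_⟩
      · refine le_trans (Finset.card_le_card (t := l.toFinset) fun y hy => ?_)
          ((List.toFinset_card_le l).trans hl)
        obtain ⟨b, hb, rfl⟩ := (Finset.mem_filter.1 hy).2
        exact List.mem_toFinset.2 (hl' _ ⟨b, hb, rfl⟩)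
      · intro y hy
        obtain ⟨b, hb, rfl⟩ := (Finset.mem_filter.1 hy).2
        exact mem_fbr.2 (fp b hb x)
      · intro b hb y hy
        obtain ⟨b', hb', rfl⟩ := (Finset.mem_filter.1 hy).2
        exact Finset.mem_filter.2 ⟨Finset.mem_univ _, b * b', B.mul_mem hb hb', by simp⟩
    have grow : ∀ n : ℕ, n ≤ 4 → ∃ F : Finset Ω, α ∈ F ∧ n + 1 ≤ F.card ∧ F.card ≤ n + 4 ∧
        F ⊆ fbr fib α ∧ ∀ b ∈ B, ∀ y ∈ F, L.π b y ∈ F := by
      intro n
      induction n with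
      | zero =>
        intro _
        obtain ⟨O, o1, o2, o3, o4⟩ := orb α
        exact ⟨O, o1, Finset.card_pos.2 ⟨α, o1⟩, by omega, o3, o4⟩
      | succ n ih =>
        intro hn
        obtain ⟨F, f1, f2, f3, f4, f5⟩ := ih (by omega)
        by_cases hc : n + 2 ≤ F.card
        · exact ⟨F, f1, hc, by omega, f4, f5⟩
        · obtain ⟨x, hx, nx⟩ := Finset.exists_mem_notMem_of_card_lt_card
            (show F.card < (fbr fib α).card by have := L.big α; omega)
          obtain ⟨O, o1, o2, o3, o4⟩ := orb x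
          refine ⟨F ∪ O, Finset.mem_union_left _ f1, ?_, ?_, ?_, ?_⟩
          · have : (insert x F).card ≤ (F ∪ O).card := Finset.card_le_card
              (Finset.insert_subset (Finset.mem_union_right _ o1) Finset.subset_union_left)
            rw [Finset.card_insert_of_notMem nx] at this
            omega
          · have := Finset.card_union_le F O
            omega
          · exact Finset.union_subset f4 fun y hy =>
              mem_fbr.2 ((mem_fbr.1 (o3 hy)).trans (mem_fbr.1 hx))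
          · intro b hb y hy
            rcases Finset.mem_union.1 hy with hy | hy
            · exact Finset.mem_union_left _ (f5 b hb y hy)
            · exact Finset.mem_union_right _ (o4 b hb y hy)
    obtain ⟨F, f1, f2, f3, f4, f5⟩ := grow 4 le_rfl
    by_cases hx : ∃ b ∈ B, ∃ β ∈ F, L.π b β ≠ β ∧ ∃ f ∈ F, L.π b f = f
    · obtain ⟨b, hb, β, hβ, hm', hf⟩ := hx
      refine h.small f4 f2 f5 (B0 := fixer L.π F ⊓ B) inf_le_right inf_le_left hb hβ hm'
        (Or.inl ⟨?_, hf⟩)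
      rw [ri]
      refine (EA_bound L.π Nat.prime_two F B h.exp h.com f5).trans ?_
      calc 2 ^ (F.card / 2) ≤ 2 ^ 4 := Nat.pow_le_pow_right (by norm_num) (by omega)
        _ = 16 := by norm_num
    · refine h.small f4 f2 f5 (B0 := fixer L.π {α} ⊓ B) inf_le_right ?_ ha f1 hm (Or.inr ?_)
      · intro b hb x hxF
        by_contra hn
        exact hx ⟨b, hb.2, x, hxF, hn, α, f1, hb.1 α (Finset.mem_singleton_self α)⟩
      · obtain ⟨l, hl, hl'⟩ := hs α
        rw [ri]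
        exact (relIndex_fixer_le L.π B α l fun b hb => hl' _ ⟨b, hb, rfl⟩).trans hl

end Loc

end Pool.Agent.MP_1d62fe_al.W

end

-- part Two3
section

set_option autoImplicit false
set_option linter.unusedSectionVars false

namespace Pool.Agent.MP_1d62fe_al.W

open Equiv

variable {Ω I : Type} [Fintype Ω] [DecidableEq Ω] [DecidableEq I]

namespace Loc

variable {X : Type} [Group X] [Finite X] {fib : Ω → I} {L : Loc X fib 2}
  {M : Type} [AddCommGroup M] [DistribMulAction X M] [Finite M] {B : Subgroup X}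

variable (L M) in
/-- the subgroup `S(a,b)` -/
def SS (a b : Ω) : AddSubgroup M where
  carrier := {u | (∀ d e f, D3 fib d e f → fib d = fib a → d ∉ [a, b] → e ∉ [a, b] →
      f ∉ [a, b] → L.T d e f • u = u) ∧
    ∀ c, D3 fib a b c → u + L.T a b c • u + L.T a b c • L.T a b c • u = 0}
  zero_mem' := ⟨fun _ _ _ _ _ _ _ _ => smul_zero _, fun _ _ => by simp⟩
  add_mem' := fun {x y} hx hy => ⟨fun d e f h1 h2 h3 h4 h5 => by
      rw [smul_add, hx.1 d e f h1 h2 h3 h4 h5, hy.1 d e f h1 h2 h3 h4 h5], fun c hc => by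
      have := congrArg₂ (· + ·) (hx.2 c hc) (hy.2 c hc)
      simp only [smul_add, add_zero] at this ⊢
      rw [← this]; abel⟩
  neg_mem' := fun {x} hx => ⟨fun d e f h1 h2 h3 h4 h5 => by
      rw [smul_neg, hx.1 d e f h1 h2 h3 h4 h5], fun c hc => by
      have := congrArg (fun z => -z) (hx.2 c hc)
      simp only [smul_neg, neg_add, neg_zero] at this ⊢
      exact this⟩

theorem Two3_push (x : X) {a b c : Ω} (h : D3 fib a b c) (u : M) :
    x • L.T a b c • u = L.T (L.π x a) (L.π x b) (L.π x c) • x • u := by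
  rw [← T_conj x h, mul_smul, mul_smul, inv_smul_smul]

theorem Two3_fib (x : X) {a b : Ω} (h : fib (L.π x a) = fib (L.π x b)) : fib a = fib b := by
  simpa using L.fibp x⁻¹ _ _ h

theorem Two3_D3 (x : X) {a b c : Ω} (h : D3 fib (L.π x a) (L.π x b) (L.π x c)) : D3 fib a b c :=
  ⟨fun e => h.ab (by rw [e]), fun e => h.ac (by rw [e]), fun e => h.bc (by rw [e]),
    Two3_fib x h.fb, Two3_fib x h.fc⟩

theorem Two3_D2 (x : X) {a b : Ω} (h : D2 fib a b) : D2 fib (L.π x a) (L.π x b) :=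
  ⟨(L.π x).injective.ne h.ab, L.fibp x _ _ h.fb⟩

theorem Two3_cube {a b c : Ω} (h : D3 fib a b c) (u : M) :
    L.T a b c • L.T a b c • L.T a b c • u = u := by
  rw [← mul_smul, ← mul_smul, ← pow_three', T_cube h, one_smul]

theorem Two3_inv {a b c : Ω} (h : D3 fib a b c) (u : M) :
    L.T b a c • u = L.T a b c • L.T a b c • u := by
  rw [T_rot ⟨h.ab.symm, h.bc, h.ac, h.fb.symm, h.fc.trans h.fb.symm⟩, ← T_inv h, inv_smul_eq_iff,
    Two3_cube h]

theorem SS_smul (x : X) {a b : Ω} (h : D2 fib a b) {u : M} (hu : u ∈ L.SS M a b) :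
    x • u ∈ L.SS M (L.π x a) (L.π x b) := by
  refine ⟨fun d e f h1 h2 h3 h4 h5 => ?_, fun c hc => ?_⟩
  · obtain ⟨d, rfl⟩ := (L.π x).surjective d
    obtain ⟨e, rfl⟩ := (L.π x).surjective e
    obtain ⟨f, rfl⟩ := (L.π x).surjective f
    have k := Two3_D3 x h1
    rw [← Two3_push x k, hu.1 d e f k (Two3_fib x h2) (by simpa using h3) (by simpa using h4)
      (by simpa using h5)]
  · obtain ⟨c, rfl⟩ := (L.π x).surjective c
    have k := Two3_D3 x hc
    rw [← Two3_push x k, ← Two3_push x k, ← smul_add, ← smul_add, hu.2 c k, smul_zero]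

theorem SS_symm {a b : Ω} (h : D2 fib a b) : L.SS M a b = L.SS M b a := by
  have key : ∀ {a b : Ω}, D2 fib a b → L.SS M a b ≤ L.SS M b a := fun {a b} h u hu =>
    ⟨fun d e f h1 h2 h3 h4 h5 => hu.1 d e f h1 (h2.trans h.fb) (by simpa [and_comm] using h3)
      (by simpa [and_comm] using h4) (by simpa [and_comm] using h5), fun c hc => by
      have k : D3 fib a b c := ⟨hc.ab.symm, hc.bc, hc.ac, h.fb, hc.fc.trans h.fb⟩
      rw [Two3_inv k, Two3_inv k, Two3_cube k, add_right_comm]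
      exact hu.2 c k⟩
  exact le_antisymm (key h) (key ⟨h.ab.symm, h.fb.symm⟩)

/-- Z0 -/
theorem Z0 (chr : ∀ m : M, 2 • m = 0) {a b x y : Ω} (h : D2 fib a b) (h' : D3 fib a x y)
    (hx : x ≠ b) (hy : y ≠ b) {u : M} (hu : u ∈ L.SS M a b) (hf : L.T a x y • u = u) :
    u = 0 := by
  obtain ⟨z, z1, z2⟩ := L.big.avoid a [a, b, x, y] (by simp)
  simp only [List.mem_cons, List.not_mem_nil, or_false, not_or] at z2
  obtain ⟨za, zb, zx, zy⟩ := z2
  have d : D3 fib a b z := ⟨h.ab, Ne.symm za, Ne.symm zb, h.fb, z1⟩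
  have dz : D3 fib z x y := ⟨zx, zy, h'.bc, h'.fb.trans z1.symm, h'.fc.trans z1.symm⟩
  have db : D3 fib b x y := ⟨hx.symm, hy.symm, h'.bc, h'.fb.trans h.fb.symm, h'.fc.trans h.fb.symm⟩
  have ex : L.π (L.T a b z) x = x := by rw [π_T d, c3_ne h'.ab.symm hx (Ne.symm zx)]
  have ey : L.π (L.T a b z) y = y := by rw [π_T d, c3_ne h'.ac.symm hy (Ne.symm zy)]
  have e0 := hu.2 z d
  have e1 : L.T z x y • u = u := hu.1 z x y dz z1 (by simp [za, zb]) (by simp [hx, h'.ab.symm])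
    (by simp [hy, h'.ac.symm])
  have e2 := Two3_push (L := L) (L.T a b z) dz (L.T a b z • L.T a b z • u)
  rw [ex, ey, π_T d, c3_c, Two3_cube d, hf] at e2
  have e3 := MulAction.injective _ (e2.trans (Two3_cube d u).symm)
  have e4 := congrArg (L.T z x y • ·) e0
  simp only [smul_add, smul_zero, e1] at e4
  rw [e3] at e4
  have e5 := add_left_cancel (add_right_cancel (e4.trans e0.symm))
  have e6 := Two3_push (L := L) (L.T a b z) db u
  rw [ex, ey, π_T d, c3_b d.ac d.bc, e5] at e6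
  have e7 : L.T a b z • u = u := T_tri (D := MulAction.stabilizer X u) d h' db dz hf
    (MulAction.injective _ e6) e1
  rw [e7, e7, ← two_nsmul, chr, zero_add] at e0
  exact e0

/-- S2, first part -/
theorem S2 (chr : ∀ m : M, 2 • m = 0) {a b c : Ω} (hW : L.WO M a) (h : D3 fib a b c) {w : M}
    (hw : w ∈ cm M (L.T a b c)) : ∃ u ∈ L.SS M a b, ∃ v ∈ L.SS M b c, w = u + v := by
  have c2 : ∀ m : M, m + m = 0 := fun m => by rw [← two_nsmul, chr]
  obtain ⟨p, p1, p2⟩ := L.big.avoid a [a, b, c] (by simp)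
  obtain ⟨q, q1, q2⟩ := L.big.avoid a [a, b, c, p] (by simp)
  simp only [List.mem_cons, List.not_mem_nil, or_false, not_or] at p2 q2
  have hF : ({a, b, p, q} : Finset Ω) ⊆ fbr fib a := by
    simp only [Finset.insert_subset_iff, mem_fbr, h.fb, p1, Finset.singleton_subset_iff, q1, and_self]
  obtain ⟨g, g1, g2⟩ := L.lift hF (dt_mem_AF h.ab (Ne.symm q2.2.2.2) (by simp) (by simp) (by simp)
    (by simp))
  obtain ⟨k, k1, k2⟩ := L.invE g1.1 (by
    have := h.ab
    rw [g2]; ext z; simp only [Perm.mul_apply, swap_apply_def, Perm.one_apply]; grind)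
  have ht := Subgroup.pow_mem _ g1 k
  rw [g2] at k1
  generalize g ^ k = t at ht k1 k2
  have tt : ∀ m : M, t • t • m = m := fun m => by rw [← mul_smul, k2, one_smul]
  have td : ∀ m : M, t • L.T a b c • m = L.T a b c • L.T a b c • t • m := fun m => by
    have := h.ab; have := h.ac; have := h.bc
    rw [Two3_push t h, ← Two3_inv h, k1]
    congr 2 <;> simp only [Perm.mul_apply, swap_apply_def] <;> grind
  have z3 : ∀ w ∈ cm M (L.T a b c), w + L.T a b c • w + L.T a b c • L.T a b c • w = 0 := by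
    rintro _ ⟨m, rfl⟩
    simp only [smul_sub, Two3_cube h]; abel
  have tc : ∀ w ∈ cm M (L.T a b c), t • w ∈ cm M (L.T a b c) := by
    rintro _ ⟨m, rfl⟩
    exact ⟨L.T a b c • t • m + t • m, by rw [smul_sub, td, smul_add]; abel⟩
  have dc : ∀ w ∈ cm M (L.T a b c), L.T a b c • w ∈ cm M (L.T a b c) := inv_cm rfl
  have K : ∀ w ∈ cm M (L.T a b c), w + t • w ∈ L.SS M a b := fun w hw => by
    have u1 := AddSubgroup.add_mem _ hw (tc w hw)
    have C : ∀ d e f, D3 fib d e f → fib d = fib a → d ∉ [a, b] → e ∉ [a, b] → f ∉ [a, b] →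
        L.T d e f • (w + t • w) = w + t • w := fun d e f h1 h2 h3 h4 h5 => by
      obtain ⟨r, r1, r2⟩ := L.big.avoid a [a, b, c, p, q, d, e, f] (by simp)
      obtain ⟨s, s1, s2⟩ := L.big.avoid a [a, b, c, p, q, d, e, f, r] (by simp)
      simp only [List.mem_cons, List.not_mem_nil, or_false, not_or] at r2 s2 h3 h4 h5
      have A : ∀ z, D3 fib z r s → z ≠ a ∧ z ≠ b → L.T z r s • (w + t • w) = w + t • w := by
        intro z hz hn
        have fz := hz.fb.symm.trans r1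
        by_cases e : z = c
        · subst e
          have t1 : t ∈ Cen X (cm M (L.T z r s)) := inv_mem (L := L) (D := Cen X (cm M (L.T z r s)))
            hF (fun x hx y hy v hv k =>
            hW z r s x y v hz k fz (mem_fbr.1 (hF hx)) (by grind) (by grind) (by grind)) ht k2
          have t2 := T_comm hz (ht.2.1 z (by grind)) (ht.2.1 r (by grind)) (ht.2.1 s (by grind))
          have t3 := t1 _ ⟨w, rfl⟩
          rw [smul_sub, ← mul_smul, t2, mul_smul] at t3
          rw [smul_add]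
          linear_combination (norm := abel) t3 + c2 (L.T z r s • w) - c2 w
        · exact hW a b c z r s h hz rfl fz (by grind) (by grind) (by grind) _ u1
      have B : ∀ z, fib z = fib a → z ≠ r → z ≠ s → D3 fib z r s := fun z k1 k2 k3 =>
        ⟨k2, k3, by grind, r1.trans k1.symm, s1.trans k1.symm⟩
      have b1 := B d h2 (by grind) (by grind)
      have b2 := B e (h1.fb.trans h2) (by grind) (by grind)
      have b3 := B f (h1.fc.trans h2) (by grind) (by grind)
      exact T_tri (D := MulAction.stabilizer X _) h1 b1 b2 b3 (A d b1 h3) (A e b2 h4) (A f b3 h5)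
    refine ⟨C, fun c' hc => ?_⟩
    by_cases e : c' = c
    · subst e; exact z3 _ u1
    obtain ⟨z, z1, z2⟩ := L.big.avoid a [a, b, c, c'] (by simp)
    simp only [List.mem_cons, List.not_mem_nil, or_false, not_or] at z2
    have dz : D3 fib c c' z := ⟨Ne.symm e, by grind, by grind, hc.fc.trans h.fc.symm,
      z1.trans h.fc.symm⟩
    have e1 := C c c' z dz h.fc (by simp [h.ac.symm, h.bc.symm]) (by simp [hc.ac.symm, hc.bc.symm])
      (by simp [z2.1, z2.2.1])
    have e2 := Two3_push (L := L) (M := M) (L.T c c' z) h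
    rw [π_T dz, c3_a dz.ab dz.ac, c3_ne h.ac hc.ac (Ne.symm z2.1),
      c3_ne h.bc hc.bc (Ne.symm z2.2.1)] at e2
    have e3 := congrArg (L.T c c' z • ·) (z3 _ u1)
    simp only [smul_zero] at e3
    rwa [smul_add, smul_add _ (w + t • w), e2, e2, e2, e1] at e3
  have u1 := AddSubgroup.add_mem _ hw (tc w hw)
  have u2 : t • (w + t • w) = w + t • w := by rw [smul_add, tt, add_comm]
  have v1 := AddSubgroup.add_mem _ hw (dc _ u1)
  have v2 : t • (w + L.T a b c • (w + t • w)) = w + L.T a b c • (w + t • w) := by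
    rw [smul_add t, td, u2]
    linear_combination (norm := abel) z3 _ u1 - c2 w - c2 (L.T a b c • (w + t • w))
  have v3 := K _ (dc _ v1)
  have v4 := SS_smul (L.T a b c) ⟨h.ab, h.fb⟩ (K w hw)
  rw [π_T h, c3_a h.ab h.ac, c3_b h.ac h.bc] at v4
  refine ⟨_, v3, _, v4, ?_⟩
  rw [td, v2]
  linear_combination (norm := abel) c2 w - z3 _ v1

theorem Two3_card (x : X) {a b : Ω} (h : D2 fib a b) :
    Nat.card (L.SS M a b) = Nat.card (L.SS M (L.π x a) (L.π x b)) := by
  have key : ∀ (x : X) {a b : Ω}, D2 fib a b →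
      Nat.card (L.SS M a b) ≤ Nat.card (L.SS M (L.π x a) (L.π x b)) := fun x _ _ h =>
    Nat.card_le_card_of_injective (fun u => ⟨x • u.1, SS_smul x h u.2⟩)
      fun _ _ e => Subtype.ext (MulAction.injective x (congrArg Subtype.val e))
  exact le_antisymm (key x h) (by simpa only [map_inv, Perm.coe_inv, symm_apply_apply] using key x⁻¹ (Two3_D2 (L := L) x h))

theorem card_SS_eq {a b a' b' : Ω} (h : D2 fib a b) (h' : D2 fib a' b') (hf : fib a' = fib a) :
    Nat.card (L.SS M a b) = Nat.card (L.SS M a' b') := by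
  obtain ⟨σ, h1, h2⟩ := trans_list (F := fbr fib a) [a, b] [a', b'] (by simp [h.ab])
    (by simp [h'.ab]) rfl (by simp [mem_fbr, h.fb]) (by simp [mem_fbr, h'.fb, hf])
    (by have := L.big a; simp; omega)
  obtain ⟨g, -, rfl⟩ := L.lift subset_rfl h1
  simp only [List.map_cons, List.map_nil, List.cons.injEq, and_true] at h2
  rw [← h2.1, ← h2.2]
  exact Two3_card g h

theorem Off.two_le_card (h : L.Off M B) {a b : Ω} (hW : L.WO M a) (hab : D2 fib a b) :
    2 ≤ Nat.card (L.SS M a b) := by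
  by_contra hc
  obtain ⟨c, c1, c2⟩ := L.big.avoid a [a, b] (by simp)
  simp only [List.mem_cons, List.not_mem_nil, or_false, not_or] at c2
  have d : D3 fib a b c := ⟨hab.ab, Ne.symm c2.1, Ne.symm c2.2, hab.fb, c1⟩
  have e := card_SS_eq (L := L) (M := M) hab ⟨d.bc, c1.trans hab.fb.symm⟩ hab.fb
  have e1 := AddSubgroup.eq_bot_of_card_le (L.SS M a b) (by omega)
  have e2 := AddSubgroup.eq_bot_of_card_le (L.SS M b c) (by omega)
  refine c3_ne_one d.ab d.ac ((π_T d).symm.trans (h.faith _ fun m => ?_))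
  obtain ⟨u, hu, v, hv, k⟩ := S2 h.chr hW d ⟨m, rfl⟩
  rw [e1, AddSubgroup.mem_bot] at hu
  rw [e2, AddSubgroup.mem_bot] at hv
  rwa [hu, hv, add_zero, sub_eq_zero] at k

theorem Two3_kill (chr : ∀ m : M, 2 • m = 0) {p q : Ω} (h : D2 fib p q) {u : M}
    (hu : u ∈ L.SS M p q) (l : List Ω) (hl : l.length ≤ 13)
    (hf : ∀ x y, D3 fib p x y → x ∉ l → y ∉ l → L.T p x y • u = u) : u = 0 := by
  obtain ⟨x, x1, x2⟩ := L.big.avoid p (p :: q :: l) (by simp; omega)
  obtain ⟨y, y1, y2⟩ := L.big.avoid p (x :: p :: q :: l) (by simp; omega)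
  simp only [List.mem_cons, not_or] at x2 y2
  have d : D3 fib p x y := ⟨Ne.symm x2.1, Ne.symm y2.2.1, Ne.symm y2.1, x1, y1⟩
  exact Z0 chr h d x2.2.1 y2.2.2.1 hu (hf x y d x2.2.2 y2.2.2.2)

theorem Off.Two3_sym (h : L.Off M B) {g : X} (hg : g ∈ B) {x y : Ω} (e : L.π g x = y) :
    L.π g y = x := by
  rw [← e, ← Perm.mul_apply, ← map_mul, ← pow_two, h.exp g hg, map_one, Perm.one_apply]

/-- Orbits -/
theorem Off.orb2 (h : L.Off M B) {α : Ω} (hW : L.WO M α) {a b : X} (ha : a ∈ B) (hb : b ∈ B)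
    (h1 : L.π a α ≠ α) (h2 : L.π b α ≠ α) : L.π a α = L.π b α := by
  by_contra hc
  have hab := B.mul_mem ha hb
  obtain ⟨q, q1, q2⟩ := L.big.avoid α [α, L.π a α, L.π b α, L.π (a * b) α] (by simp)
  simp only [List.mem_cons, List.not_mem_nil, or_false, not_or] at q2
  have d : D2 fib α q := ⟨Ne.symm q2.1, q1⟩
  have := h.two_le_card hW d
  refine (AddSubgroup.one_lt_card_iff_ne_bot _).1 this (eq_bot_iff.2 fun s hs => ?_)
  refine Two3_kill h.chr d hs [L.π a α, L.π a q, L.π b α, L.π b q, L.π (a * b) α, L.π (a * b) q]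
    (by simp only [map_mul, Perm.coe_mul, Function.comp_apply, List.length_cons, List.length_nil, zero_add, Nat.reduceAdd, Nat.reduceLeDiff]) fun x y k hx hy => ?_
  have key : ∀ g ∈ B, L.π g α ≠ α → q ≠ L.π g α → x ∉ [L.π g α, L.π g q] →
      y ∉ [L.π g α, L.π g q] → L.T α x y • g • s = g • s := fun g hg k1 k2 k3 k4 =>
    (SS_smul g d hs).1 α x y k (h.FP_two hg α).symm (by
      simpa using ⟨k1.symm, fun e => k2 (h.Two3_sym hg e.symm).symm⟩) k3 k4
  have e : s = b • s + a • s - (a * b) • s := by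
    have := h.quad a ha b hb s
    rw [smul_sub, ← mul_smul] at this
    linear_combination (norm := abel) this
  simp only [List.mem_cons, List.not_mem_nil, or_false, not_or] at key hx hy
  rw [e, smul_sub, smul_add, key a ha h1 q2.2.1 ⟨hx.1, hx.2.1⟩ ⟨hy.1, hy.2.1⟩,
    key b hb h2 q2.2.2.1 ⟨hx.2.2.1, hx.2.2.2.1⟩ ⟨hy.2.2.1, hy.2.2.2.1⟩,
    key _ hab (fun e => hc (h.Two3_sym ha (by rwa [map_mul] at e))) q2.2.2.2 hx.2.2.2.2 hy.2.2.2.2]

/-- Cnt -/
theorem Off.cnt (h : L.Off M B) {q : Ω} {B0 : Subgroup X} (h0 : B0 ≤ B) (J : Finset Ω)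
    (hf : B0 ≤ fixer L.π (insert q J)) (hJ : ∀ x ∈ J, fib x = fib q) (h3 : J.card ≤ 3)
    (hm : ∀ x ∈ J, ∃ b ∈ B, L.π b x ≠ x)
    (hd : ∀ x ∈ J, ∀ y ∈ J, ∀ b ∈ B, L.π b x = y → x = y)
    (hq' : ∀ x ∈ J, ∀ b ∈ B, L.π b x ≠ q) :
    ∏ x ∈ J, Nat.card (L.SS M x q) ≤ B0.relIndex B := by
  have d : ∀ x ∈ J, D2 fib x q := fun x hx =>
    ⟨by simpa using hq' x hx 1 B.one_mem, (hJ x hx).symm⟩
  let f : (∀ x : J, L.SS M x q) →+ M :=
    { toFun := fun s => ∑ x, (s x).1
      map_zero' := by simp only [Finset.univ_eq_attach, Pi.zero_apply, ZeroMemClass.coe_zero, Finset.sum_const_zero]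
      map_add' := fun s t => by simp only [Finset.univ_eq_attach, Pi.add_apply, AddSubgroup.coe_add, Finset.sum_add_distrib] }
  have key := card_le_relIndex f (S := FixS M B0) (C := FixS M B) (fun s =>
    AddSubgroup.sum_mem _ fun x _ b hb => by
      obtain ⟨a, ha, hx⟩ := hm x x.2
      have k1 := SS_smul b (d x x.2) (s x).2
      rw [hf hb x (by simp), hf hb q (by simp)] at k1
      have k2 := AddSubgroup.sub_mem _ k1 (s x).2
      have k3 := SS_smul a (d x x.2) k2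
      rw [h.quad a ha b (h0 hb)] at k3
      exact sub_eq_zero.1 (Two3_kill h.chr (d x x.2) k2 [L.π a x, L.π a q] (by simp)
        fun y z k hy hz => k3.1 x y z k (h.FP_two ha x).symm (by
          simpa using ⟨hx.symm, fun e => hq' x x.2 a ha (h.Two3_sym ha e.symm)⟩) hy hz))
    fun s hs => funext fun x₀ => Subtype.ext (by
      obtain ⟨a, ha, hx⟩ := hm x₀ x₀.2
      refine Two3_kill h.chr (d x₀ x₀.2) (s x₀).2
        (q :: L.π a q :: (J.toList ++ J.toList.map (L.π a))) (by simp; omega) fun y z k hy hz => ?_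
      simp only [List.mem_cons, List.mem_append, List.mem_map, Finset.mem_toList, not_or,
        not_exists, not_and] at hy hz
      have e1 : ∑ x, a • (s x).1 = ∑ x, (s x).1 := Finset.smul_sum.symm.trans (hs a ha)
      have e2 : L.T x₀ y z • ∑ x, a • (s x).1 = ∑ x, a • (s x).1 := by
        rw [Finset.smul_sum]
        refine Finset.sum_congr rfl fun x _ => (SS_smul a (d x x.2) (s x).2).1 x₀ y z k
          (((hJ _ x₀.2).trans (hJ _ x.2).symm).trans (h.FP_two ha x).symm) ?_ ?_ ?_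
        · simp only [List.mem_cons, List.not_mem_nil, or_false, not_or]
          exact ⟨fun e => hx ((congrArg (L.π a) (hd x x.2 x₀ x₀.2 a ha e.symm)).symm.trans e.symm),
            fun e => hq' _ x₀.2 a ha (h.Two3_sym ha e.symm)⟩
        · simpa using ⟨fun e => hy.2.2.2 x x.2 e.symm, hy.2.1⟩
        · simpa using ⟨fun e => hz.2.2.2 x x.2 e.symm, hz.2.1⟩
      rw [e1, Finset.smul_sum, ← sub_eq_zero, ← Finset.sum_sub_distrib,
        Finset.sum_eq_single x₀ (fun x _ hne => sub_eq_zero.2 ((s x).2.1 x₀ y z k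
          ((hJ _ x₀.2).trans (hJ _ x.2).symm) (by
            simpa using ⟨fun e => hne e.symm, (d _ x₀.2).ab⟩)
          (by simpa using ⟨fun e => hy.2.2.1 (e ▸ x.2), hy.1⟩)
          (by simpa using ⟨fun e => hz.2.2.1 (e ▸ x.2), hz.1⟩))) (by simp only [Finset.univ_eq_attach, Finset.mem_attach, not_true_eq_false, IsEmpty.forall_iff]), sub_eq_zero] at e2
      exact e2)
  rw [Nat.card_pi, Finset.prod_coe_sort J fun x => Nat.card (L.SS M x q)] at key
  exact key.trans (h.min B0 h0)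

theorem Off.Two3_orb (h : L.Off M B) {α : Ω} (hW : L.WO M α) {x : Ω} (hx : fib x = fib α)
    {g : X} (hg : g ∈ B) (hm : L.π g x ≠ x) (b : X) (hb : b ∈ B) :
    L.π b x = x ∨ L.π b x = L.π g x := by
  by_cases e : L.π b x = x
  · exact Or.inl e
  · exact Or.inr (h.orb2 (fun a b c d e f h1 h2 h3 h4 =>
      hW a b c d e f h1 h2 (h3.trans hx) (h4.trans hx)) hb hg e hm)

theorem Off.Two3_idx (h : L.Off M B) {α : Ω} (hW : L.WO M α) {x : Ω} (hx : fib x = fib α) :
    (fixer L.π {x}).relIndex B ≤ 2 := by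
  by_cases e : ∃ g ∈ B, L.π g x ≠ x
  · obtain ⟨g, hg, hm⟩ := e
    exact relIndex_fixer_le L.π B x [x, L.π g x] fun b hb => by
      simpa using h.Two3_orb hW hx hg hm b hb
  · push Not at e
    exact relIndex_fixer_le L.π B x [x, x] fun b hb => by simp [e b hb]

theorem Off.Two3_cnt (h : L.Off M B) {α β q : Ω} (hβ : D2 fib α β) (hq : fib q = fib α)
    (K : Subgroup X) (J : Finset Ω)
    (hf : K ⊓ B ≤ fixer L.π (insert q J)) (hJ : ∀ x ∈ J, fib x = fib q) (h3 : J.card ≤ 3)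
    (hm : ∀ x ∈ J, ∃ b ∈ B, L.π b x ≠ x)
    (hd : ∀ x ∈ J, ∀ y ∈ J, ∀ b ∈ B, L.π b x = y → x = y)
    (hq' : ∀ x ∈ J, ∀ b ∈ B, L.π b x ≠ q) :
    Nat.card (L.SS M α β) ^ J.card ≤ K.relIndex B := by
  have := h.cnt inf_le_right J hf hJ h3 hm hd hq'
  rwa [Subgroup.inf_relIndex_right, Finset.prod_eq_pow_card fun x hx => (card_SS_eq hβ
    ⟨by simpa using hq' x hx 1 B.one_mem, (hJ x hx).symm⟩ ((hJ x hx).trans hq)).symm] at this

theorem Off.Two3_ne (h : L.Off M B) {x y : Ω} (k : ∀ b ∈ B, L.π b x ≠ y) : x ≠ y := by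
  simpa using k 1 B.one_mem

theorem Off.Two3_cnt2 (h : L.Off M B) {α β x y q : Ω} (hβ : D2 fib α β) (hx : fib x = fib α)
    (hy : fib y = fib α) (hq : fib q = fib α) (K : Subgroup X)
    (hK : ∀ b ∈ K ⊓ B, L.π b q = q ∧ L.π b x = x ∧ L.π b y = y) (mx : ∃ b ∈ B, L.π b x ≠ x)
    (my : ∃ b ∈ B, L.π b y ≠ y) (xy : ∀ b ∈ B, L.π b x ≠ y) (xq : ∀ b ∈ B, L.π b x ≠ q)
    (yq : ∀ b ∈ B, L.π b y ≠ q) : Nat.card (L.SS M α β) ^ 2 ≤ K.relIndex B := by
  rw [← Finset.card_pair (h.Two3_ne xy)]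
  refine h.Two3_cnt hβ hq K {x, y} (fun b hb => ?_) ?_ (Finset.card_le_two.trans (by simp)) ?_ ?_ ?_
  all_goals simp only [mem_fixer, Finset.mem_insert, Finset.mem_singleton, forall_eq_or_imp,
    forall_eq, implies_true, true_and, and_true]
  exacts [hK b hb, ⟨hx.trans hq.symm, hy.trans hq.symm⟩, ⟨mx, my⟩,
    ⟨fun b hb e => (xy b hb e).elim, fun b hb e => (xy b hb (h.Two3_sym hb e)).elim⟩, ⟨xq, yq⟩]

theorem Off.Two3_cnt3 (h : L.Off M B) {α β x y z q : Ω} (hβ : D2 fib α β) (hx : fib x = fib α)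
    (hy : fib y = fib α) (hz : fib z = fib α) (hq : fib q = fib α) (K : Subgroup X)
    (hK : ∀ b ∈ K ⊓ B, L.π b q = q ∧ L.π b x = x ∧ L.π b y = y ∧ L.π b z = z)
    (mx : ∃ b ∈ B, L.π b x ≠ x) (my : ∃ b ∈ B, L.π b y ≠ y) (mz : ∃ b ∈ B, L.π b z ≠ z)
    (xy : ∀ b ∈ B, L.π b x ≠ y) (xz : ∀ b ∈ B, L.π b x ≠ z) (yz : ∀ b ∈ B, L.π b y ≠ z)
    (xq : ∀ b ∈ B, L.π b x ≠ q) (yq : ∀ b ∈ B, L.π b y ≠ q) (zq : ∀ b ∈ B, L.π b z ≠ q) :
    Nat.card (L.SS M α β) ^ 3 ≤ K.relIndex B := by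
  rw [← Finset.card_eq_three.2 ⟨x, y, z, h.Two3_ne xy, h.Two3_ne xz, h.Two3_ne yz, rfl⟩]
  refine h.Two3_cnt hβ hq K {x, y, z} (fun b hb => ?_) ?_ Finset.card_le_three ?_ ?_ ?_
  all_goals simp only [mem_fixer, Finset.mem_insert, Finset.mem_singleton, forall_eq_or_imp,
    forall_eq, implies_true, true_and, and_true]
  exacts [hK b hb, ⟨hx.trans hq.symm, hy.trans hq.symm, hz.trans hq.symm⟩, ⟨mx, my, mz⟩,
    ⟨⟨fun b hb e => (xy b hb e).elim, fun b hb e => (xz b hb e).elim⟩,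
      ⟨fun b hb e => (xy b hb (h.Two3_sym hb e)).elim, fun b hb e => (yz b hb e).elim⟩,
      fun b hb e => (xz b hb (h.Two3_sym hb e)).elim,
      fun b hb e => (yz b hb (h.Two3_sym hb e)).elim⟩, ⟨xq, yq, zq⟩]

theorem Off.Two3_out (h : L.Off M B) {α : Ω} (hW : L.WO M α) {x : Ω} (hx : fib x = fib α)
    {g : X} (hg : g ∈ B) (hm : L.π g x ≠ x) {y : Ω} (h1 : y ≠ x) (h2 : y ≠ L.π g x) (b : X)
    (hb : b ∈ B) : L.π b x ≠ y := fun e =>
  (h.Two3_orb hW hx hg hm b hb).elim (fun k => h1 (e.symm.trans k)) fun k => h2 (e.symm.trans k)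

theorem Off.card_SS (h : L.Off M B) {α : Ω} (hW : L.WO M α) {a : X} (ha : a ∈ B)
    (hm : L.π a α ≠ α) {β : Ω} (hβ : D2 fib α β) : Nat.card (L.SS M α β) = 2 := by
  have h2 := h.two_le_card hW hβ
  have i1 := h.Two3_idx hW rfl
  have o1 := fun {y : Ω} => h.Two3_out hW rfl ha hm (y := y)
  have m : ∀ x : Ω, x ∈ ({x} : Finset Ω) := Finset.mem_singleton_self
  by_cases hc : ∃ p, fib p = fib α ∧ p ∉ [α, L.π a α] ∧ ∃ g ∈ B, L.π g p ≠ p
  · obtain ⟨p, p1, p2, g, hg, p3⟩ := hc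
    obtain ⟨q, q1, q2⟩ := L.big.avoid α [α, L.π a α, p, L.π g p] (by simp)
    simp only [List.mem_cons, List.not_mem_nil, or_false, not_or] at p2 q2
    have k := h.Two3_cnt2 hβ rfl p1 q1 (fixer L.π {α} ⊓ fixer L.π {p} ⊓ fixer L.π {q})
      (fun b hb => ⟨hb.1.2 q (m q), hb.1.1.1 α (m α), hb.1.1.2 p (m p)⟩) ⟨a, ha, hm⟩ ⟨g, hg, p3⟩
      (o1 p2.1 p2.2) (o1 q2.1 q2.2.1) (h.Two3_out hW p1 hg p3 q2.2.2.1 q2.2.2.2)
    have k' := k.trans (Subgroup.relIndex_inf_le.trans (Nat.mul_le_mul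
      (Subgroup.relIndex_inf_le.trans (Nat.mul_le_mul i1 (h.Two3_idx hW p1))) (h.Two3_idx hW q1)))
    by_contra hne
    have := (Nat.pow_le_pow_left (show 3 ≤ Nat.card (L.SS M α β) by omega) 2).trans k'
    omega
  · push Not at hc
    obtain ⟨q, q1, q2⟩ := L.big.avoid α [α, L.π a α] (by simp)
    have q3 := hc q q1 q2
    simp only [List.mem_cons, List.not_mem_nil, or_false, not_or] at q2
    have k : Nat.card (L.SS M α β) ^ Finset.card {α} ≤ (fixer L.π {α}).relIndex B := by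
      refine h.Two3_cnt hβ q1 _ {α} (fun b hb => ?_) ?_ (by simp) ?_ ?_ ?_
      all_goals simp only [mem_fixer, Finset.mem_insert, Finset.mem_singleton, forall_eq_or_imp,
        forall_eq, implies_true]
      exacts [⟨q3 b hb.2, hb.1 α (m α)⟩, q1.symm, ⟨a, ha, hm⟩, o1 q2.1 q2.2]
    rw [Finset.card_singleton, pow_one] at k
    omega

theorem Off.notNoT (h : L.Off M B) {α : Ω} (hW : L.WO M α) {a : X} (ha : a ∈ B)
    (hm : L.π a α ≠ α) : ¬ NoT fib (fun σ => ∃ b ∈ B, L.π b = σ) := by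
  intro hN
  have hβ : D2 fib α (L.π a α) := ⟨hm.symm, h.FP_two ha α⟩
  have h2 := h.card_SS hW ha hm hβ
  have i1 := h.Two3_idx hW rfl
  have m : ∀ x : Ω, x ∈ ({x} : Finset Ω) := Finset.mem_singleton_self
  obtain ⟨O, O1, O2, O3, O4⟩ := hN _ ⟨a, ha, rfl⟩ α hm
  obtain ⟨p, p0, p2⟩ := exists_notMem (F := O) [α, L.π a α] (by simp; omega)
  have p1 := mem_fbr.1 (O3 p0)
  have p3 : L.π a p ≠ p := fun e => hm (O4 _ ⟨a, ha, rfl⟩ p p0 α O1 e)
  have p4 : ∀ b ∈ B, L.π b α = α → L.π b p = p := fun b hb => O4 _ ⟨b, hb, rfl⟩ α O1 p p0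
  obtain ⟨q, q1, q2⟩ := L.big.avoid α [α, L.π a α, p, L.π a p] (by simp)
  simp only [List.mem_cons, List.not_mem_nil, or_false, not_or] at p2 q2
  have o1 := fun {y : Ω} => h.Two3_out hW rfl ha hm (y := y)
  have o2 := h.Two3_out hW p1 ha p3 q2.2.2.1 q2.2.2.2
  by_cases hc : ∀ b ∈ B, L.π b α = α → L.π b q = q
  · have k := h.Two3_cnt2 hβ rfl p1 q1 (fixer L.π {α})
      (fun b hb => ⟨hc b hb.2 (hb.1 α (m α)), hb.1 α (m α), p4 b hb.2 (hb.1 α (m α))⟩)
      ⟨a, ha, hm⟩ ⟨a, ha, p3⟩ (o1 p2.1 p2.2) (o1 q2.1 q2.2.1) o2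
    rw [h2] at k
    omega
  push Not at hc
  obtain ⟨b, hb, b1, b2⟩ := hc
  obtain ⟨O', P1, P2, P3, P4⟩ := hN _ ⟨b, hb, rfl⟩ q b2
  obtain ⟨r, r0, r2⟩ := exists_notMem (F := O') [q, L.π b q] (by simp; omega)
  simp only [List.mem_cons, List.not_mem_nil, or_false, not_or] at r2
  have r3 : L.π b r ≠ r := fun e => b2 (P4 _ ⟨b, hb, rfl⟩ r r0 q P1 e)
  have fx : ∀ x, L.π b x = x → ∀ c ∈ B, L.π c x ≠ r := fun x e c hc k => r3 (by
    rw [← k, ← Perm.mul_apply, ← map_mul, h.com b hb c hc, map_mul, Perm.mul_apply, e])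
  have k := h.Two3_cnt3 hβ rfl p1 q1 ((mem_fbr.1 (P3 r0)).trans q1) (fixer L.π {α} ⊓ fixer L.π {q})
    (fun c hc => ⟨P4 _ ⟨c, hc.2, rfl⟩ q P1 r r0 (hc.1.2 q (m q)), hc.1.1 α (m α),
      p4 c hc.2 (hc.1.1 α (m α)), hc.1.2 q (m q)⟩) ⟨a, ha, hm⟩ ⟨a, ha, p3⟩ ⟨b, hb, b2⟩
    (o1 p2.1 p2.2) (o1 q2.1 q2.2.1) o2 (fx α b1) (fx p (p4 b hb b1))
    (h.Two3_out hW q1 hb b2 r2.1 r2.2)
  have k' := k.trans (Subgroup.relIndex_inf_le.trans (Nat.mul_le_mul i1 (h.Two3_idx hW q1)))
  rw [h2] at k'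
  omega

variable (L M) in
/-- the natural-module structure -/
structure Nat' where
  s : Ω → Ω → M
  eqv : ∀ (x : X) a b, D2 fib a b → x • s a b = s (L.π x a) (L.π x b)
  symm : ∀ a b, D2 fib a b → s a b = s b a
  ne : ∀ a b, D2 fib a b → s a b ≠ 0
  add : ∀ a b c, D3 fib a b c → s a b + s b c = s a c
  wo : ∀ a b c d e f, D3 fib a b c → D3 fib d e f → d ∉ [a, b, c] → e ∉ [a, b, c] →
    f ∉ [a, b, c] → ∀ w ∈ cm M (L.T a b c), L.T d e f • w = w

theorem exists_nat (chr : ∀ m : M, 2 • m = 0) (htr : ∀ a b, ∃ x : X, fib (L.π x a) = fib b)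
    {α β : Ω} (hW : L.WO M α) (h : D2 fib α β) (hc : Nat.card (L.SS M α β) = 2) :
    Nonempty (L.Nat' M) := by
  have ex : ∀ a b, ∃ s : M, D2 fib a b →
      s ∈ L.SS M a b ∧ s ≠ 0 ∧ ∀ u ∈ L.SS M a b, u ≠ 0 → u = s := fun a b => by
    by_cases d : D2 fib a b
    · obtain ⟨x, hx⟩ := htr α a
      have e := ((card_SS_eq (L := L) (M := M) (Two3_D2 x h) d hx.symm).symm.trans
        (Two3_card x h).symm).trans hc
      obtain ⟨s, s1, s2⟩ := (Nat.card_eq_two_iff' 0).1 e
      exact ⟨s, fun _ => ⟨s.2, fun e => s1 (Subtype.ext e), fun u hu hn =>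
        congrArg Subtype.val (s2 ⟨u, hu⟩ fun e => hn (congrArg Subtype.val e))⟩⟩
    · exact ⟨0, fun k => (d k).elim⟩
  choose s hs using ex
  have eqv : ∀ (x : X) a b, D2 fib a b → x • s a b = s (L.π x a) (L.π x b) := fun x a b d =>
    (hs _ _ (Two3_D2 x d)).2.2 _ (SS_smul x d (hs a b d).1) fun e =>
      (hs a b d).2.1 (by simpa using congrArg (x⁻¹ • ·) e)
  have sy : ∀ a b, D2 fib a b → s a b = s b a := fun a b d =>
    (hs b a ⟨d.ab.symm, d.fb.symm⟩).2.2 _ (SS_symm (L := L) (M := M) d ▸ (hs a b d).1)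
      (hs a b d).2.1
  refine ⟨⟨s, eqv, sy, fun a b d => (hs a b d).2.1, fun a b c d => ?_,
    fun a b c d e f h1 h2 n1 n2 n3 w hw => ?_⟩⟩
  · have e := (hs a b ⟨d.ab, d.fb⟩).1.2 c d
    rw [eqv _ a b ⟨d.ab, d.fb⟩, π_T d, c3_a d.ab d.ac, c3_b d.ac d.bc,
      eqv _ b c ⟨d.bc, d.fc.trans d.fb.symm⟩, π_T d, c3_b d.ac d.bc, c3_c,
      ← sy a c ⟨d.ac, d.fc⟩] at e
    have := chr (s a c)
    rw [two_nsmul] at this
    linear_combination (norm := abel) e - this
  · obtain ⟨x, hx⟩ := htr α a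
    obtain ⟨u, hu, v, hv, rfl⟩ := S2 chr (hW.map x hx) h1 hw
    simp only [List.mem_cons, List.not_mem_nil, or_false, not_or] at n1 n2 n3
    have key : ∀ y z, D2 fib y z → c3 d e f y = y → c3 d e f z = z → ∀ u ∈ L.SS M y z,
        L.T d e f • u = u := fun y z k k1 k2 u hu => by
      by_cases e : u = 0
      · rw [e, smul_zero]
      · rw [(hs y z k).2.2 u hu e, eqv _ y z k, π_T h2, k1, k2]
    have ea := c3_ne (Ne.symm n1.1) (Ne.symm n2.1) (Ne.symm n3.1)
    have eb := c3_ne (Ne.symm n1.2.1) (Ne.symm n2.2.1) (Ne.symm n3.2.1)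
    have ec := c3_ne (Ne.symm n1.2.2) (Ne.symm n2.2.2) (Ne.symm n3.2.2)
    rw [smul_add, key a b ⟨h1.ab, h1.fb⟩ ea eb u hu,
      key b c ⟨h1.bc, h1.fc.trans h1.fb.symm⟩ eb ec v hv]

end Loc

end Pool.Agent.MP_1d62fe_al.W

end
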